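import Pool.Agent.Q75.BN.L1

/-!
# Interpolation between the `L¹` bound and the `L²` isometry, general constant
-/

set_option autoImplicit false

open MeasureTheory Set Filter Topology ComplexConjugate
open scoped ContDiff ENNReal SchwartzMap FourierTransform

namespace Pool.Agent.Q75.BN

open Pool.Agent.Q75.BM
open Pool.Agent.Y282.RB (Tn)

/-- the three lines step -/
theorem step {n m : ℕ} {X : ℝ} (hXb : ColB n m X) {q : ℝ} (hq1 : 1 < q) (hq2 : q ≤ 2)
    {ψ : ℝ → ℂ} (hψ : ContDiff ℝ (⊤ : ℕ∞) ψ) {a b : ℝ} (ha : 0 < a)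
    (h1 : ∀ x, x ≤ a → ψ x = 0) (h2 : ∀ x, b ≤ x → ψ x = 0) {ε : ℝ} (hε : 0 < ε)
    {B : Set ℝ} (hB : MeasurableSet B) {c d δ Λ : ℝ} (hc : 0 < c) (hBcd : B ⊆ Icc c d)
    (hδ : 0 < δ) (hG1 : ∀ x ∈ B, δ ≤ ‖S n m ψ x‖) (hG2 : ∀ x ∈ B, ‖S n m ψ x‖ ≤ Λ) :
    ∫ x in B, ‖S n m ψ x‖ ^ q ≤ X ^ (2 - q) *
      ∫ y in Icc a b, Real.exp (q * lam ε ψ y) := by
  have hX1 : 1 ≤ X := hXb.1
  set G : ℝ → ℂ := S n m ψ with hG
  have hψm : Measurable ψ := hψ.continuous.measurable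
  have hGm : Measurable G := S_meas n m hψm
  set e : ℝ → ℝ := fun y => Real.exp (q * lam ε ψ y) with he
  have hlc : Continuous (lam ε ψ) := (lam_smooth hε hψ).continuous
  have hec : Continuous e := by
    rw [he]
    fun_prop
  set N : ℝ := ∫ y in Icc a b, e y with hN
  have hN0 : 0 ≤ N := setIntegral_nonneg measurableSet_Icc fun y _ => (Real.exp_pos _).le
  set D : ℝ := ∫ x in B, ‖G x‖ ^ q with hD
  have hD0 : 0 ≤ D := setIntegral_nonneg hB fun y _ => by positivity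
  have hBfin : volume B ≠ ⊤ := ne_top_of_le_ne_top (by simp) (measure_mono hBcd)
  have hGne : ∀ x ∈ B, G x ≠ 0 := fun x hx h0 => by
    have := hG1 x hx
    rw [h0, norm_zero] at this
    linarith
  -- integrability of `‖G‖ ^ q` on `B`
  have hDint : IntegrableOn (fun x => ‖G x‖ ^ q) B := by
    refine IntegrableOn.of_bound (lt_top_iff_ne_top.2 hBfin)
      ((hGm.norm.pow_const q).aestronglyMeasurable) (Λ ^ q) ?_
    refine (ae_restrict_iff' hB).2 (Eventually.of_forall fun x hx => ?_)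
    rw [Real.norm_eq_abs, abs_of_nonneg (by positivity)]
    exact Real.rpow_le_rpow (norm_nonneg _) (hG2 x hx) (by linarith)
  have hDe : ∫⁻ x in B, ENNReal.ofReal (‖G x‖ ^ q) = ENNReal.ofReal D := by
    rw [hD, ofReal_integral_eq_lintegral_ofReal hDint (Eventually.of_forall fun x => by positivity)]
  have hNe : ∫⁻ y in Icc a b, ENNReal.ofReal (e y) = ENNReal.ofReal N := by
    rw [hN, ofReal_integral_eq_lintegral_ofReal (hec.integrableOn_Icc)
      (Eventually.of_forall fun x => (Real.exp_pos _).le)]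
  -- the norm of `ψ_w`
  have hz1 : ∀ w, ∀ x, x ≤ a → psw q ε ψ w x = 0 := fun w x hx => by
    unfold psw
    rw [h1 x hx, zero_mul]
  have hz2 : ∀ w, ∀ x, b ≤ x → psw q ε ψ w x = 0 := fun w x hx => by
    unfold psw
    rw [h2 x hx, zero_mul]
  have hsupp : ∀ (w : ℂ) (r : ℝ → ℝ≥0∞), (∀ y, psw q ε ψ w y = 0 → r y = 0) →
      (∀ y, r y ≤ ENNReal.ofReal (e y)) → ∫⁻ y in Ioi (0 : ℝ), r y ≤ ENNReal.ofReal N := by
    intro w r hr0 hre
    rw [← hNe, ← lintegral_indicator measurableSet_Ioi, ← lintegral_indicator measurableSet_Icc]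
    refine lintegral_mono fun y => ?_
    by_cases hy : y ∈ Icc a b
    · rw [indicator_of_mem hy]
      refine (indicator_le_self _ _ _).trans (hre y)
    · rw [indicator_of_notMem hy]
      have hy0 : psw q ε ψ w y = 0 := by
        by_cases hya : y ≤ a
        · exact hz1 w y hya
        · refine hz2 w y ?_
          by_contra hcon
          exact hy ⟨(not_le.1 hya).le, (not_le.1 hcon).le⟩
      refine (indicator_le_self _ _ _).trans ?_
      rw [hr0 y hy0]
  -- the function `F`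
  set F : ℂ → ℂ := fun w => ∫ x in B, phw q G w x * S n m (psw q ε ψ w) x with hF
  have hFe : ∀ w, ‖F w‖ₑ ≤ ∫⁻ x in B, ‖phw q G w x‖ₑ * ‖S n m (psw q ε ψ w) x‖ₑ := by
    intro w
    refine (enorm_integral_le_lintegral_enorm _).trans (le_of_eq ?_)
    exact lintegral_congr fun x => enorm_mul _ _
  have hBI : B ⊆ Ioi (0 : ℝ) := fun x hx => lt_of_lt_of_le hc (hBcd hx).1
  -- left edge
  have hF0 : ∀ w : ℂ, w.re = 0 → ‖F w‖ ≤ X * N := by
    intro w hw
    have h3 : ‖F w‖ₑ ≤ ENNReal.ofReal (X * N) := by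
      refine (hFe w).trans ?_
      calc ∫⁻ x in B, ‖phw q G w x‖ₑ * ‖S n m (psw q ε ψ w) x‖ₑ
          ≤ ∫⁻ x in B, ‖S n m (psw q ε ψ w) x‖ₑ := by
            refine setLIntegral_mono' hB fun x hx => ?_
            have h4 : ‖phw q G w x‖ₑ = 1 := by
              rw [← ofReal_norm, norm_phw (hGne x hx), hw]
              simp
            rw [h4, one_mul]
        _ ≤ ∫⁻ x in Ioi (0 : ℝ), ‖S n m (psw q ε ψ w) x‖ₑ := lintegral_mono_set hBI
        _ ≤ ENNReal.ofReal X * ∫⁻ x in Ioi (0 : ℝ), ‖psw q ε ψ w x‖ₑ :=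
            S_L1 hXb (psw_smooth hε hψ w).continuous.measurable
              (fun x hx => hz1 w x (hx.trans ha.le))
        _ ≤ ENNReal.ofReal X * ENNReal.ofReal N := by
            gcongr
            refine hsupp w _ (fun y hy => by rw [hy]; simp) fun y => ?_
            rw [← ofReal_norm]
            exact ENNReal.ofReal_le_ofReal (psw0 hε ψ w hw y)
        _ = ENNReal.ofReal (X * N) := (ENNReal.ofReal_mul (by linarith)).symm
    rw [← ofReal_norm] at h3
    exact (ENNReal.ofReal_le_ofReal_iff (by positivity)).1 h3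
  -- right edge
  have hF1 : ∀ w : ℂ, w.re = 1 → ‖F w‖ ≤ √D * √N := by
    intro w hw
    have h3 : ‖F w‖ₑ ≤ ENNReal.ofReal (√D * √N) := by
      refine (hFe w).trans ?_
      have hH := ENNReal.lintegral_mul_le_Lp_mul_Lq (volume.restrict B)
        (Real.HolderConjugate.two_two) (f := fun x => ‖phw q G w x‖ₑ)
        (g := fun x => ‖S n m (psw q ε ψ w) x‖ₑ) ((phw_meas hGm w).enorm.aemeasurable)
        ((S_meas n m (psw_smooth hε hψ w).continuous.measurable).enorm.aemeasurable)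
      refine hH.trans ?_
      have e1 : ∫⁻ x in B, ‖phw q G w x‖ₑ ^ (2 : ℝ) = ENNReal.ofReal D := by
        rw [← hDe]
        refine setLIntegral_congr_fun hB fun x hx => ?_
        rw [← ofReal_norm, norm_phw (hGne x hx), hw, ENNReal.ofReal_rpow_of_nonneg (by positivity)
          (by norm_num), ← Real.rpow_mul (norm_nonneg _)]
        congr 2
        ring
      have e2 : ∫⁻ x in B, ‖S n m (psw q ε ψ w) x‖ₑ ^ (2 : ℝ) ≤ ENNReal.ofReal N := by
        calc ∫⁻ x in B, ‖S n m (psw q ε ψ w) x‖ₑ ^ (2 : ℝ)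
            ≤ ∫⁻ x in Ioi (0 : ℝ), ‖S n m (psw q ε ψ w) x‖ₑ ^ (2 : ℝ) := lintegral_mono_set hBI
          _ = ∫⁻ x in Ioi (0 : ℝ), ‖S n m (psw q ε ψ w) x‖ₑ ^ 2 := by
              simp only [ENNReal.rpow_two]
          _ = ∫⁻ x in Ioi (0 : ℝ), ‖psw q ε ψ w x‖ₑ ^ 2 :=
              S_L2 n m (psw_smooth hε hψ w) ha (hz1 w) (hz2 w)
          _ ≤ ENNReal.ofReal N := by
              refine hsupp w _ (fun y hy => by rw [hy]; simp) fun y => ?_
              rw [← ofReal_norm, ← ENNReal.ofReal_pow (norm_nonneg _)]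
              exact ENNReal.ofReal_le_ofReal (psw1 hε ψ w hw y)
      rw [e1]
      calc (ENNReal.ofReal D) ^ (1 / (2 : ℝ)) *
            (∫⁻ x in B, ‖S n m (psw q ε ψ w) x‖ₑ ^ (2 : ℝ)) ^ (1 / (2 : ℝ))
          ≤ (ENNReal.ofReal D) ^ (1 / (2 : ℝ)) * (ENNReal.ofReal N) ^ (1 / (2 : ℝ)) := by
            gcongr
        _ = ENNReal.ofReal (√D * √N) := by
            rw [ENNReal.ofReal_rpow_of_nonneg hD0 (by norm_num),
              ENNReal.ofReal_rpow_of_nonneg hN0 (by norm_num), ← Real.sqrt_eq_rpow,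
              ← Real.sqrt_eq_rpow, ENNReal.ofReal_mul (Real.sqrt_nonneg _)]
    rw [← ofReal_norm] at h3
    exact (ENNReal.ofReal_le_ofReal_iff (by positivity)).1 h3
  -- bounds
  obtain ⟨Kl, hKl⟩ := isCompact_Icc.exists_bound_of_continuousOn (s := Icc (min a c) (max b d))
    hlc.continuousOn
  set h0 : ℝ → ℂ := fun y => ψ y * Complex.exp (((q : ℂ) - 1) * (lam ε ψ y : ℂ)) with hh0
  have hh0c : Continuous h0 := by
    have := hψ.continuous
    rw [hh0]
    fun_prop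
  obtain ⟨Kh, hKh⟩ := isCompact_Icc.exists_bound_of_continuousOn (s := Icc (min a c) (max b d))
    hh0c.continuousOn
  obtain ⟨Ck, hCk⟩ := ker_bound n m ha
  have hsub1 : B ⊆ Icc (min a c) (max b d) := fun x hx =>
    ⟨(min_le_right _ _).trans (hBcd hx).1, (hBcd hx).2.trans (le_max_right _ _)⟩
  have hsub2 : Icc a b ⊆ Icc (min a c) (max b d) := fun x hx =>
    ⟨(min_le_left _ _).trans hx.1, hx.2.trans (le_max_left _ _)⟩
  set Km : ℝ := |Real.log δ| + |Real.log Λ| with hKm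
  have hmu : ∀ x ∈ B, |Real.log ‖G x‖| ≤ Km := by
    intro x hx
    have h3 := Real.log_le_log hδ (hG1 x hx)
    have h4 := Real.log_le_log (lt_of_lt_of_le hδ (hG1 x hx)) (hG2 x hx)
    rw [abs_le]
    constructor
    · have := neg_abs_le (Real.log δ)
      have := abs_nonneg (Real.log Λ)
      linarith
    · have := le_abs_self (Real.log Λ)
      have := abs_nonneg (Real.log δ)
      linarith
  have hM : ∀ x ∈ B, ∀ y ∈ Icc (min a c) (max b d),
      |q / 2 * (Real.log ‖G x‖ - lam ε ψ y)| ≤ q / 2 * (Km + Kl) := by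
    intro x hx y hy
    rw [abs_mul, abs_of_pos (by linarith : (0 : ℝ) < q / 2)]
    have h3 := hmu x hx
    have h4 := hKl y hy
    rw [Real.norm_eq_abs] at h4
    have h5 := abs_sub (Real.log ‖G x‖) (lam ε ψ y)
    have h6 : |Real.log ‖G x‖ - lam ε ψ y| ≤ Km + Kl := by linarith
    gcongr
  -- first part
  set c1 : ℝ → ℂ := fun x => cs G x * h0 x with hc1
  set M1 : ℝ → ℝ := fun x => q / 2 * (Real.log ‖G x‖ - lam ε ψ x) with hM1
  have hM1m : Measurable M1 := by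
    rw [hM1]
    exact measurable_const.mul ((Real.measurable_log.comp hGm.norm).sub hlc.measurable)
  have hc1i : Integrable c1 (volume.restrict B) := by
    refine IntegrableOn.of_bound (lt_top_iff_ne_top.2 hBfin)
      ((cs_meas hGm).mul hh0c.measurable).aestronglyMeasurable Kh ?_
    refine (ae_restrict_iff' hB).2 (Eventually.of_forall fun x hx => ?_)
    rw [hc1]
    simp only
    rw [norm_mul]
    calc ‖cs G x‖ * ‖h0 x‖ ≤ 1 * ‖h0 x‖ := by
          gcongr
          exact norm_cs_le G x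
      _ ≤ Kh := by
          rw [one_mul]
          exact hKh x (hsub1 hx)
  have hM1b : ∀ᵐ x ∂(volume.restrict B), |M1 x| ≤ q / 2 * (Km + Kl) :=
    (ae_restrict_iff' hB).2 (Eventually.of_forall fun x hx => hM x hx x (hsub1 hx))
  -- second part
  set ν : Measure (ℝ × ℝ) := (volume.restrict B).prod (volume.restrict (Icc a b)) with hν
  have hν' : ν = (volume.prod volume).restrict (B ×ˢ Icc a b) := Measure.prod_restrict _ _
  set c2 : ℝ × ℝ → ℂ := fun p => cs G p.1 * (((ker n m p.1 p.2 : ℝ) : ℂ) * h0 p.2) with hc2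
  set M2 : ℝ × ℝ → ℝ := fun p => q / 2 * (Real.log ‖G p.1‖ - lam ε ψ p.2) with hM2
  have hM2m : Measurable M2 := by
    rw [hM2]
    exact measurable_const.mul (((Real.measurable_log.comp hGm.norm).comp measurable_fst).sub
      (hlc.measurable.comp measurable_snd))
  have : IsFiniteMeasure (volume.restrict B) := ⟨by
    rw [Measure.restrict_apply_univ]
    exact lt_top_iff_ne_top.2 hBfin⟩
  have : IsFiniteMeasure ν := by
    rw [hν]
    infer_instance
  have hc2m : Measurable c2 := by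
    rw [hc2]
    exact ((cs_meas hGm).comp measurable_fst).mul ((Complex.measurable_ofReal.comp
      (ker_meas n m)).mul (hh0c.measurable.comp measurable_snd))
  have hc2i : Integrable c2 ν := by
    refine Integrable.of_bound hc2m.aestronglyMeasurable (Ck * Kh) ?_
    rw [hν']
    refine (ae_restrict_iff' (hB.prod measurableSet_Icc)).2 (Eventually.of_forall fun p hp => ?_)
    have hp1 : 0 < p.1 := lt_of_lt_of_le hc (hBcd hp.1).1
    have h3 := hCk p.1 p.2 hp1 hp.2.1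
    have h4 := hKh p.2 (hsub2 hp.2)
    rw [hc2]
    simp only
    rw [norm_mul, norm_mul, Complex.norm_real, Real.norm_eq_abs]
    have h5 := norm_cs_le G p.1
    calc ‖cs G p.1‖ * (|ker n m p.1 p.2| * ‖h0 p.2‖) ≤ 1 * (Ck * Kh) := by
          have := abs_nonneg (ker n m p.1 p.2)
          have h6 : 0 ≤ Ck := this.trans h3
          gcongr
      _ = Ck * Kh := one_mul _
  have hM2b : ∀ᵐ p ∂ν, |M2 p| ≤ q / 2 * (Km + Kl) := by
    rw [hν']
    exact (ae_restrict_iff' (hB.prod measurableSet_Icc)).2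
      (Eventually.of_forall fun p hp => hM p.1 hp.1 p.2 (hsub2 hp.2))
  -- decomposition
  have hdec : ∀ w, F w = (∫ x in B, c1 x * Complex.exp (w * M1 x)) +
      ∫ p, c2 p * Complex.exp (w * M2 p) ∂ν := by
    intro w
    have i1 := an_int hc1i hM1m.aestronglyMeasurable hM1b w
    have i2 := an_int hc2i hM2m.aestronglyMeasurable hM2b w
    have i3 := i2.integral_prod_left
    rw [hν, integral_prod _ i2, ← integral_add i1 i3, hF]
    refine setIntegral_congr_fun hB fun x hx => ?_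
    rw [S_eq, mul_add]
    congr 1
    · have := prodexp q ε ψ G w x x
      rw [this]
    · rw [← MeasureTheory.integral_const_mul, ← MeasureTheory.integral_indicator measurableSet_Icc]
      refine integral_congr_ae (Eventually.of_forall fun y => ?_)
      simp only
      by_cases hy : y ∈ Icc a b
      · rw [indicator_of_mem hy]
        have := prodexp q ε ψ G w x y
        rw [hc2, hM2]
        simp only
        rw [hh0]
        simp only
        linear_combination ((ker n m x y : ℝ) : ℂ) * this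
      · rw [indicator_of_notMem hy]
        have hy0 : psw q ε ψ w y = 0 := by
          by_cases hya : y ≤ a
          · exact hz1 w y hya
          · refine hz2 w y ?_
            by_contra hcon
            exact hy ⟨(not_le.1 hya).le, (not_le.1 hcon).le⟩
        rw [hy0]
        ring
  have hFd : Differentiable ℂ F := by
    have e3 : F = fun w => (∫ x in B, c1 x * Complex.exp (w * M1 x)) +
      ∫ p, c2 p * Complex.exp (w * M2 p) ∂ν := funext hdec
    rw [e3]
    exact (an_diff hc1i hM1m.aestronglyMeasurable hM1b).add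
      (an_diff hc2i hM2m.aestronglyMeasurable hM2b)
  set Kt : ℝ := q / 2 * (Km + Kl) with hKt
  have hFb : BddAbove ((norm ∘ F) '' Complex.HadamardThreeLines.verticalClosedStrip 0 1) := by
    refine ⟨Real.exp |Kt| * (∫ x in B, ‖c1 x‖) + Real.exp |Kt| * ∫ p, ‖c2 p‖ ∂ν, ?_⟩
    rintro _ ⟨w, hw, rfl⟩
    have hw' : 0 ≤ w.re ∧ w.re ≤ 1 := hw
    have h3 : Real.exp (Kt * |w.re|) ≤ Real.exp |Kt| := by
      refine Real.exp_le_exp.2 ?_
      calc Kt * |w.re| ≤ |Kt| * |w.re| := by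
            gcongr
            exact le_abs_self _
        _ ≤ |Kt| * 1 := by
            gcongr
            rw [abs_of_nonneg hw'.1]
            exact hw'.2
        _ = |Kt| := mul_one _
    show ‖F w‖ ≤ _
    rw [hdec]
    refine (norm_add_le _ _).trans (add_le_add ?_ ?_)
    · refine (an_bound hc1i hM1b w).trans ?_
      exact mul_le_mul_of_nonneg_right h3 (integral_nonneg fun _ => norm_nonneg _)
    · refine (an_bound hc2i hM2b w).trans ?_
      exact mul_le_mul_of_nonneg_right h3 (integral_nonneg fun _ => norm_nonneg _)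
  -- the middle point
  set θ : ℝ := 2 - 2 / q with hθ
  have hq0 : 0 < q := by linarith
  have hθ0 : 0 < θ := by
    have : 2 / q < 2 := by
      rw [div_lt_iff₀ hq0]
      linarith
    linarith
  have hθ1 : θ ≤ 1 := by
    have : 1 ≤ 2 / q := by
      rw [le_div_iff₀ hq0]
      linarith
    linarith
  have h3l := Complex.HadamardThreeLines.norm_le_interp_of_mem_verticalClosedStrip₀₁' F
    (z := (θ : ℂ)) (a := X * N) (b := √D * √N)
    (by
      show (θ : ℂ).re ∈ Icc 0 1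
      rw [Complex.ofReal_re]
      exact ⟨hθ0.le, hθ1⟩)
    hFd.diffContOnCl hFb (fun w hw => hF0 w hw) (fun w hw => hF1 w hw)
  rw [Complex.ofReal_re] at h3l
  have hFθ : F (θ : ℂ) = ((D : ℝ) : ℂ) := by
    have e4 : psw q ε ψ (θ : ℂ) = ψ := by
      funext y
      unfold psw
      have : ((q : ℂ) * (1 - (θ : ℂ) / 2) - 1) = 0 := by
        rw [hθ]
        push_cast
        have : (q : ℂ) ≠ 0 := Complex.ofReal_ne_zero.2 hq0.ne'
        field_simp
        ring
      rw [this, zero_mul, Complex.exp_zero, mul_one]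
    rw [hF, hD]
    simp only
    rw [e4, ← integral_complex_ofReal]
    refine setIntegral_congr_fun hB fun x hx => ?_
    have hx0 := hGne x hx
    have hx1 : 0 < ‖G x‖ := norm_pos_iff.2 hx0
    unfold phw cs
    have e5 : Complex.exp (((q : ℂ) * (θ : ℂ) / 2) * (Real.log ‖G x‖ : ℂ))
        = ((‖G x‖ ^ (q - 1) : ℝ) : ℂ) := by
      rw [Real.rpow_def_of_pos hx1, Complex.ofReal_exp]
      congr 1
      rw [hθ]
      push_cast
      have : (q : ℂ) ≠ 0 := Complex.ofReal_ne_zero.2 hq0.ne'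
      field_simp
    rw [e5]
    have e6 : (starRingEnd ℂ) (G x) * G x = ((‖G x‖ ^ 2 : ℝ) : ℂ) := by
      rw [mul_comm, Complex.mul_conj, Complex.normSq_eq_norm_sq]
    have e7 : ‖G x‖ ^ q = ‖G x‖ ^ (q - 1) * ‖G x‖ := by
      rw [← Real.rpow_add_one hx1.ne']
      ring_nf
    rw [e7]
    have hx2 : (‖G x‖ : ℂ) ≠ 0 := Complex.ofReal_ne_zero.2 hx1.ne'
    have e8 : (starRingEnd ℂ) (G x) / (‖G x‖ : ℂ) * ((‖G x‖ ^ (q - 1) : ℝ) : ℂ) * G x
        = ((‖G x‖ ^ (q - 1) : ℝ) : ℂ) * (((starRingEnd ℂ) (G x) * G x) / (‖G x‖ : ℂ)) := by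
      ring
    rw [← hG, e8, e6]
    push_cast
    field_simp
  rw [hFθ, Complex.norm_real, Real.norm_eq_abs, abs_of_nonneg hD0] at h3l
  -- conclusion
  rcases hD0.eq_or_lt with hDz | hDp
  · rw [← hDz]
    positivity
  have hNp : 0 < N := by
    rcases hN0.eq_or_lt with h | h
    · exfalso
      rw [← h] at h3l
      rw [Real.sqrt_zero, mul_zero (√D), Real.zero_rpow hθ0.ne', mul_zero] at h3l
      linarith
    · exact h
  have hXp : 0 < X := by linarith
  have hlog := Real.log_le_log hDp h3l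
  rw [Real.log_mul (by positivity) (by positivity), Real.log_rpow (by positivity),
    Real.log_rpow (by positivity), Real.log_mul hXp.ne' hNp.ne',
    Real.log_mul (Real.sqrt_pos.2 hDp).ne' (Real.sqrt_pos.2 hNp).ne', Real.log_sqrt hDp.le,
    Real.log_sqrt hNp.le] at hlog
  have hfin : Real.log D ≤ (2 - q) * Real.log X + Real.log N := by
    have e9 : q * (1 - θ) = 2 - q := by
      rw [hθ]
      field_simp
      ring
    have e10 : q * (1 - θ / 2) = 1 := by
      rw [hθ]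
      field_simp
      ring
    have h5 : (1 - θ / 2) * Real.log D ≤ (1 - θ) * Real.log X + (1 - θ / 2) * Real.log N := by
      nlinarith
    have h6 := mul_le_mul_of_nonneg_left h5 hq0.le
    have h7 : q * ((1 - θ / 2) * Real.log D) = Real.log D := by rw [← mul_assoc, e10, one_mul]
    have h8 : q * ((1 - θ) * Real.log X + (1 - θ / 2) * Real.log N)
        = (2 - q) * Real.log X + Real.log N := by
      rw [mul_add, ← mul_assoc, ← mul_assoc, e9, e10, one_mul]
    linarith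
  rw [← Real.log_le_log_iff hDp (by positivity), Real.log_mul (by positivity) hNp.ne',
    Real.log_rpow hXp]
  exact hfin

theorem step2 {n m : ℕ} {X : ℝ} (hXb : ColB n m X) {q : ℝ} (hq1 : 1 < q) (hq2 : q ≤ 2)
    {ψ : ℝ → ℂ} (hψ : ContDiff ℝ (⊤ : ℕ∞) ψ) {a b : ℝ} (ha : 0 < a)
    (h1 : ∀ x, x ≤ a → ψ x = 0) (h2 : ∀ x, b ≤ x → ψ x = 0)
    {B : Set ℝ} (hB : MeasurableSet B) {c d δ Λ : ℝ} (hc : 0 < c) (hBcd : B ⊆ Icc c d)
    (hδ : 0 < δ) (hG1 : ∀ x ∈ B, δ ≤ ‖S n m ψ x‖) (hG2 : ∀ x ∈ B, ‖S n m ψ x‖ ≤ Λ) :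
    ∫ x in B, ‖S n m ψ x‖ ^ q ≤ X ^ (2 - q) *
      ∫ y in Icc a b, ‖ψ y‖ ^ q := by
  have hX0 : 0 < X := lt_of_lt_of_le one_pos hXb.1
  have hq0 : 0 < q := by linarith
  set V : ℝ := volume.real (Icc a b) with hV
  have hψc := hψ.continuous
  have hcont : Continuous fun y => ‖ψ y‖ ^ q := hψc.norm.rpow_const (fun _ => Or.inr hq0.le)
  have key : ∀ ε : ℝ, 0 < ε → ∫ x in B, ‖S n m ψ x‖ ^ q ≤
      X ^ (2 - q) * ((∫ y in Icc a b, ‖ψ y‖ ^ q) + V * ε ^ q) := by
    intro ε hε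
    refine (step hXb hq1 hq2 hψ ha h1 h2 hε hB hc hBcd hδ hG1 hG2).trans ?_
    refine mul_le_mul_of_nonneg_left ?_ (by positivity)
    have h3 : V * ε ^ q = ∫ _ in Icc a b, ε ^ q := by
      rw [setIntegral_const, smul_eq_mul]
    rw [h3, ← integral_add hcont.integrableOn_Icc (integrable_const _)]
    refine setIntegral_mono_on ?_ ?_ measurableSet_Icc fun y _ => exp_lam_le hq1 hq2 hε ψ y
    · have : Continuous fun y => Real.exp (q * lam ε ψ y) := by
        have := (lam_smooth hε hψ).continuous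
        fun_prop
      exact this.integrableOn_Icc
    · exact hcont.integrableOn_Icc.add (integrable_const _)
  have hlim : Tendsto (fun ε : ℝ => X ^ (2 - q) * ((∫ y in Icc a b, ‖ψ y‖ ^ q) + V * ε ^ q))
      (𝓝[>] 0) (𝓝 (X ^ (2 - q) * ((∫ y in Icc a b, ‖ψ y‖ ^ q) + V * 0 ^ q))) := by
    have hc' : Continuous fun ε : ℝ => X ^ (2 - q) * ((∫ y in Icc a b, ‖ψ y‖ ^ q) + V * ε ^ q) := by
      have := Real.continuous_rpow_const hq0.le
      fun_prop
    exact (hc'.tendsto 0).mono_left nhdsWithin_le_nhds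
  rw [Real.zero_rpow hq0.ne', mul_zero, add_zero] at hlim
  refine ge_of_tendsto hlim ?_
  filter_upwards [self_mem_nhdsWithin] with ε hε
  exact key ε hε

/-- the `L^q` bound on the half-line -/
theorem S_Lq {n m : ℕ} {X : ℝ} (hXb : ColB n m X) {q : ℝ} (hq1 : 1 < q) (hq2 : q ≤ 2)
    {ψ : ℝ → ℂ} (hψ : ContDiff ℝ (⊤ : ℕ∞) ψ) {a b : ℝ} (ha : 0 < a)
    (h1 : ∀ x, x ≤ a → ψ x = 0) (h2 : ∀ x, b ≤ x → ψ x = 0) :
    ∫⁻ x in Ioi (0 : ℝ), ‖S n m ψ x‖ₑ ^ q ≤
      ENNReal.ofReal (X ^ (2 - q)) * ∫⁻ x in Ioi (0 : ℝ), ‖ψ x‖ₑ ^ q := by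
  have hX0 : 0 < X := lt_of_lt_of_le one_pos hXb.1
  have hq0 : 0 < q := by linarith
  set G : ℝ → ℂ := S n m ψ with hG
  have hψm : Measurable ψ := hψ.continuous.measurable
  have hGm : Measurable G := S_meas n m hψm
  have hcont : Continuous fun y => ‖ψ y‖ ^ q := hψ.continuous.norm.rpow_const (fun _ => Or.inr hq0.le)
  set s : ℕ → Set ℝ := fun j => {x | (1 / ((j : ℝ) + 1) ≤ x ∧ x ≤ (j : ℝ) + 1) ∧
    (1 / ((j : ℝ) + 1) ≤ ‖G x‖ ∧ ‖G x‖ ≤ (j : ℝ) + 1)} with hs
  have hsm : ∀ j, MeasurableSet (s j) := by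
    intro j
    have hm1 : MeasurableSet {x : ℝ | 1 / ((j : ℝ) + 1) ≤ x} := measurableSet_le measurable_const measurable_id
    have hm2 : MeasurableSet {x : ℝ | x ≤ (j : ℝ) + 1} := measurableSet_le measurable_id measurable_const
    have hm3 : MeasurableSet {x : ℝ | 1 / ((j : ℝ) + 1) ≤ ‖G x‖} := measurableSet_le measurable_const hGm.norm
    have hm4 : MeasurableSet {x : ℝ | ‖G x‖ ≤ (j : ℝ) + 1} := measurableSet_le hGm.norm measurable_const
    exact (hm1.inter hm2).inter (hm3.inter hm4)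
  have hmono : Monotone s := by
    intro i j hij x hx
    have hij' : (i : ℝ) ≤ j := by exact_mod_cast hij
    have hle : 1 / ((j : ℝ) + 1) ≤ 1 / ((i : ℝ) + 1) := by
      apply one_div_le_one_div_of_le (by positivity)
      linarith
    exact ⟨⟨hle.trans hx.1.1, hx.1.2.trans (by linarith)⟩, ⟨hle.trans hx.2.1, hx.2.2.trans (by linarith)⟩⟩
  have hcov : ∀ x, 0 < x → G x ≠ 0 → x ∈ ⋃ j, s j := by
    intro x hx hGx
    have hGp : 0 < ‖G x‖ := norm_pos_iff.2 hGx
    obtain ⟨j, hj⟩ := exists_nat_gt (max (max x (1 / x)) (max ‖G x‖ (1 / ‖G x‖)))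
    have j1 : x < j := lt_of_le_of_lt ((le_max_left _ _).trans (le_max_left _ _)) hj
    have j2 : 1 / x < j := lt_of_le_of_lt ((le_max_right _ _).trans (le_max_left _ _)) hj
    have j3 : ‖G x‖ < j := lt_of_le_of_lt ((le_max_left _ _).trans (le_max_right _ _)) hj
    have j4 : 1 / ‖G x‖ < j := lt_of_le_of_lt ((le_max_right _ _).trans (le_max_right _ _)) hj
    have hj0 : (0 : ℝ) ≤ j := Nat.cast_nonneg j
    refine mem_iUnion.2 ⟨j, ⟨⟨?_, by linarith⟩, ⟨?_, by linarith⟩⟩⟩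
    · rw [div_le_iff₀ (by positivity)]
      rw [div_lt_iff₀ hx] at j2
      nlinarith
    · rw [div_le_iff₀ (by positivity)]
      rw [div_lt_iff₀ hGp] at j4
      nlinarith
  have hle1 : ∫⁻ x in Ioi (0 : ℝ), ‖G x‖ₑ ^ q ≤ ∫⁻ x in ⋃ j, s j, ‖G x‖ₑ ^ q := by
    rw [← lintegral_indicator measurableSet_Ioi,
      ← lintegral_indicator (MeasurableSet.iUnion hsm)]
    refine lintegral_mono fun x => ?_
    by_cases hx : 0 < x
    · by_cases hGx : G x = 0
      · rw [indicator_of_mem (mem_Ioi.2 hx), hGx]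
        simp [hq0]
      · rw [indicator_of_mem (hcov x hx hGx)]
        exact indicator_le_self _ _ _
    · rw [indicator_of_notMem (by simpa using hx)]
      exact zero_le
  refine hle1.trans ?_
  rw [setLIntegral_iUnion_of_directed _ (hmono.directed_le)]
  refine iSup_le fun j => ?_
  have hj1 : (0 : ℝ) < 1 / ((j : ℝ) + 1) := by positivity
  have h3 := step2 hXb hq1 hq2 hψ ha h1 h2 (hsm j) (c := 1 / ((j : ℝ) + 1)) (d := (j : ℝ) + 1)
    (δ := 1 / ((j : ℝ) + 1)) (Λ := (j : ℝ) + 1) hj1 (fun x hx => ⟨hx.1.1, hx.1.2⟩) hj1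
    (fun x hx => hx.2.1) (fun x hx => hx.2.2)
  have hfin : volume (s j) < ⊤ := by
    have hsub : s j ⊆ Icc (1 / ((j : ℝ) + 1)) ((j : ℝ) + 1) := fun x hx => ⟨hx.1.1, hx.1.2⟩
    refine lt_of_le_of_lt (measure_mono hsub) ?_
    rw [Real.volume_Icc]
    exact ENNReal.ofReal_lt_top
  have hint : IntegrableOn (fun x => ‖G x‖ ^ q) (s j) := by
    refine IntegrableOn.of_bound hfin
      ((hGm.norm.pow_const q).aestronglyMeasurable) (((j : ℝ) + 1) ^ q) ?_
    refine (ae_restrict_iff' (hsm j)).2 (Eventually.of_forall fun x hx => ?_)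
    rw [Real.norm_eq_abs, abs_of_nonneg (by positivity)]
    exact Real.rpow_le_rpow (norm_nonneg _) hx.2.2 (by linarith)
  have e1 : ∫⁻ x in s j, ‖G x‖ₑ ^ q = ENNReal.ofReal (∫ x in s j, ‖G x‖ ^ q) := by
    rw [ofReal_integral_eq_lintegral_ofReal hint (Eventually.of_forall fun x => by positivity)]
    refine lintegral_congr fun x => ?_
    rw [← ofReal_norm, ENNReal.ofReal_rpow_of_nonneg (norm_nonneg _) hq0.le]
  have e2 : ENNReal.ofReal (∫ y in Icc a b, ‖ψ y‖ ^ q) ≤ ∫⁻ x in Ioi (0 : ℝ), ‖ψ x‖ₑ ^ q := by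
    rw [ofReal_integral_eq_lintegral_ofReal hcont.integrableOn_Icc
      (Eventually.of_forall fun x => by positivity)]
    calc ∫⁻ y in Icc a b, ENNReal.ofReal (‖ψ y‖ ^ q) = ∫⁻ y in Icc a b, ‖ψ y‖ₑ ^ q := by
          refine lintegral_congr fun x => ?_
          rw [← ofReal_norm, ENNReal.ofReal_rpow_of_nonneg (norm_nonneg _) hq0.le]
      _ ≤ _ := lintegral_mono_set fun x hx => lt_of_lt_of_le ha hx.1
  rw [e1]
  refine (ENNReal.ofReal_le_ofReal h3).trans ?_
  rw [ENNReal.ofReal_mul (by positivity)]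
  gcongr

/-- the `L^q` bound on the plane -/
theorem plane_Lq {n m : ℕ} {X : ℝ} (hXb : ColB n m X) {q : ℝ} (hq1 : 1 < q) (hq2 : q ≤ 2)
    {ψ : ℝ → ℂ} (hψ : ContDiff ℝ (⊤ : ℕ∞) ψ) {a b : ℝ} (ha : 0 < a)
    (h1 : ∀ x, x ≤ a → ψ x = 0) (h2 : ∀ x, b ≤ x → ψ x = 0) :
    ∃ f : 𝓢(ℂ, ℂ), (∀ z, f z = (z / (‖z‖ : ℂ)) ^ (2 * n + m) * ψ (Complex.normSq z)) ∧
      ∫⁻ z : ℂ, ‖Tn n f z‖ₑ ^ q ≤
        ENNReal.ofReal (X ^ (2 - q)) * ∫⁻ z : ℂ, ‖f z‖ₑ ^ q := by
  obtain ⟨f, hf1, hf2⟩ := plane n m hψ ha h1 h2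
  refine ⟨f, hf1, ?_⟩
  have hm : Measurable ψ := hψ.continuous.measurable
  have hne : ∀ᵐ z : ℂ, z ≠ 0 := by
    rw [ae_iff]
    simp
  have e2 : ∫⁻ z : ℂ, ‖Tn n f z‖ₑ ^ q = ∫⁻ z : ℂ, (fun x : ℝ => ‖S n m ψ x‖ₑ ^ q) (Complex.normSq z) := by
    refine lintegral_congr_ae ?_
    filter_upwards [hne] with z hz
    have h := hf2 z hz
    have h' : ‖Tn n f z‖ₑ = ‖S n m ψ (Complex.normSq z)‖ₑ := by
      rw [← ofReal_norm, ← ofReal_norm, h]
    rw [h']
  have e3 : ∫⁻ z : ℂ, ‖f z‖ₑ ^ q = ∫⁻ z : ℂ, (fun x : ℝ => ‖ψ x‖ₑ ^ q) (Complex.normSq z) := by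
    refine lintegral_congr_ae ?_
    filter_upwards [hne] with z hz
    have h' : ‖f z‖ₑ = ‖ψ (Complex.normSq z)‖ₑ := by
      have hn : ‖z‖ ≠ 0 := norm_ne_zero_iff.2 hz
      rw [← ofReal_norm, ← ofReal_norm, hf1 z, norm_mul, norm_pow, norm_div, Complex.norm_real,
        norm_norm, div_self hn, one_pow, one_mul]
    rw [h']
  rw [e2, e3, polar _ ((S_meas n m hm).enorm.pow_const q), polar _ (hm.enorm.pow_const q)]
  calc ENNReal.ofReal Real.pi * ∫⁻ x in Ioi (0 : ℝ), ‖S n m ψ x‖ₑ ^ q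
      ≤ ENNReal.ofReal Real.pi * (ENNReal.ofReal (X ^ (2 - q)) *
        ∫⁻ x in Ioi (0 : ℝ), ‖ψ x‖ₑ ^ q) := by
        gcongr
        exact S_Lq hXb hq1 hq2 hψ ha h1 h2
    _ = _ := by ring

/-- the bound after cutting off -/
theorem dual_cut {n m : ℕ} {X : ℝ} (hXb : ColB n m X) {p : ℝ} (hp : 2 < p) (f : 𝓢(ℂ, ℂ))
    (hf : ∀ a z : ℂ, ‖a‖ = 1 → f (a * z) = conj a ^ m * f z)
    {χ : ℝ → ℝ} (hχ : ContDiff ℝ (⊤ : ℕ∞) χ) {a b : ℝ} (ha : 0 < a)
    (h0 : ∀ x, x ≤ a → χ x = 0) (hb : ∀ x, b ≤ x → χ x = 0) (h01 : ∀ x, 0 ≤ χ x ∧ χ x ≤ 1) :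
    ∫⁻ z : ℂ, ENNReal.ofReal (χ (Complex.normSq z) * ‖Tn n f z‖ ^ p) ≤
      ENNReal.ofReal (X ^ (p - 2)) * ∫⁻ z : ℂ, ‖f z‖ₑ ^ p := by
  have hX0 : 0 < X := lt_of_lt_of_le one_pos hXb.1
  set H : ℂ → ℂ := Tn n f with hH
  have hHs : ContDiff ℝ (⊤ : ℕ∞) H := Tn_smooth n f
  have hHc : Continuous H := hHs.continuous
  have hp0 : 0 < p := by linarith
  set q : ℝ := p / (p - 1) with hq
  have hq1 : 1 < q := by
    rw [hq, lt_div_iff₀ (by linarith)]
    linarith
  have hq2 : q ≤ 2 := by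
    rw [hq, div_le_iff₀ (by linarith)]
    linarith
  have hq0 : 0 < q := by linarith
  have hpq : p.HolderConjugate q := (Real.holderConjugate_iff_eq_conjExponent (by linarith)).2 rfl
  have hHrot : ∀ z : ℂ, z ≠ 0 → H z = conj (z / (‖z‖ : ℂ)) ^ (2 * n + m) * H ((‖z‖ : ℝ) : ℂ) := by
    intro z hz
    have hn' : (‖z‖ : ℂ) ≠ 0 := Complex.ofReal_ne_zero.2 (norm_ne_zero_iff.2 hz)
    have hu : ‖z / (‖z‖ : ℂ)‖ = 1 := by
      rw [norm_div, Complex.norm_real, norm_norm]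
      exact div_self (norm_ne_zero_iff.2 hz)
    have h1 := Tn_rot n hu f (c := conj (z / (‖z‖ : ℂ)) ^ m) (fun w => hf _ w hu) ((‖z‖ : ℝ) : ℂ)
    rw [div_mul_cancel₀ _ hn'] at h1
    rw [hH, h1, pow_add]
  -- the quantities
  set A : ℝ → ℝ≥0∞ := fun δ => ∫⁻ z : ℂ, ENNReal.ofReal
    (χ (Complex.normSq z) * (‖H z‖ ^ 2 + δ ^ 2) ^ (p / 2)) with hA
  set L : ℝ≥0∞ := (∫⁻ z : ℂ, ‖f z‖ₑ ^ p) ^ (1 / p) * (ENNReal.ofReal (X ^ (2 - q))) ^ (1 / q) with hL
  set A0 : ℝ≥0∞ := ∫⁻ z : ℂ, ENNReal.ofReal (χ (Complex.normSq z) * ‖H z‖ ^ p) with hA0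
  have hne : ∀ᵐ z : ℂ, z ≠ 0 := by
    rw [ae_iff]
    simp
  have hχc : Continuous fun z : ℂ => χ (Complex.normSq z) :=
    hχ.continuous.comp Complex.continuous_normSq
  have hχs : HasCompactSupport fun z : ℂ => χ (Complex.normSq z) := by
    refine HasCompactSupport.intro (isCompact_closedBall (0 : ℂ) (|b| + 1)) fun w hw => ?_
    rw [Metric.mem_closedBall, dist_zero_right, not_le] at hw
    apply hb
    rw [Complex.normSq_eq_norm_sq]
    nlinarith [le_abs_self b, abs_nonneg b]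
  have key : ∀ δ : ℝ, 0 < δ → A0 ≤ L * (A δ) ^ (1 / q) := by
    intro δ hδ
    obtain ⟨g, hg1, hg2⟩ := plane_Lq hXb hq1 hq2 (prof_smooth hχ hHs ha h0 p hδ) ha
      (fun x hx => by unfold prof; rw [h0 x hx]; simp)
      (fun x hx => by unfold prof; rw [hb x hx]; simp)
    set W : ℂ → ℝ := fun z => χ (Complex.normSq z) *
      (‖H z‖ ^ 2 * (‖H z‖ ^ 2 + δ ^ 2) ^ ((p - 2) / 2)) with hW
    have hWc : Continuous W := by
      have hc1 : Continuous fun z => (‖H z‖ ^ 2 + δ ^ 2) ^ ((p - 2) / 2) := by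
        refine Continuous.rpow_const (by fun_prop) fun z => Or.inl ?_
        positivity
      exact hχc.mul ((hHc.norm.pow 2).mul hc1)
    have hWs : HasCompactSupport W := hχs.mul_right
    have hW0 : ∀ z, 0 ≤ W z := fun z => by
      have := (h01 (Complex.normSq z)).1
      rw [hW]
      positivity
    have hsq : ∀ z : ℂ, √(Complex.normSq z) = ‖z‖ := fun z => rfl
    have hnormH : ∀ z : ℂ, z ≠ 0 → ‖H z‖ = ‖H ((‖z‖ : ℝ) : ℂ)‖ := by
      intro z hz
      have hu : ‖z / (‖z‖ : ℂ)‖ = 1 := by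
        rw [norm_div, Complex.norm_real, norm_norm]
        exact div_self (norm_ne_zero_iff.2 hz)
      rw [hHrot z hz, norm_mul, norm_pow, RCLike.norm_conj, hu, one_pow, one_mul]
    have hHg : ∀ z : ℂ, z ≠ 0 → H z * g z = ((W z : ℝ) : ℂ) := by
      intro z hz
      have hu : ‖z / (‖z‖ : ℂ)‖ = 1 := by
        rw [norm_div, Complex.norm_real, norm_norm]
        exact div_self (norm_ne_zero_iff.2 hz)
      have e0 : conj (z / (‖z‖ : ℂ)) * (z / (‖z‖ : ℂ)) = 1 := by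
        rw [mul_comm, Complex.mul_conj, Complex.normSq_eq_norm_sq, hu]
        simp
      have e1 : conj (z / (‖z‖ : ℂ)) ^ (2 * n + m) * (z / (‖z‖ : ℂ)) ^ (2 * n + m) = 1 := by
        rw [← mul_pow, e0, one_pow]
      have e2 : H ((‖z‖ : ℝ) : ℂ) * conj (H ((‖z‖ : ℝ) : ℂ)) = ((‖H ((‖z‖ : ℝ) : ℂ)‖ ^ 2 : ℝ) : ℂ) := by
        rw [Complex.mul_conj, Complex.normSq_eq_norm_sq]
      rw [hg1, hW]
      simp only
      rw [hnormH z hz, hHrot z hz]
      unfold prof
      rw [hsq]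
      have e3 : conj (z / (‖z‖ : ℂ)) ^ (2 * n + m) * H ((‖z‖ : ℝ) : ℂ) *
          ((z / (‖z‖ : ℂ)) ^ (2 * n + m) * ((χ (Complex.normSq z) : ℂ) *
          (conj (H ((‖z‖ : ℝ) : ℂ)) *
            (((‖H ((‖z‖ : ℝ) : ℂ)‖ ^ 2 + δ ^ 2) ^ ((p - 2) / 2) : ℝ) : ℂ))))
          = (conj (z / (‖z‖ : ℂ)) ^ (2 * n + m) * (z / (‖z‖ : ℂ)) ^ (2 * n + m)) *
            ((χ (Complex.normSq z) : ℂ) * ((H ((‖z‖ : ℝ) : ℂ) * conj (H ((‖z‖ : ℝ) : ℂ))) *
            (((‖H ((‖z‖ : ℝ) : ℂ)‖ ^ 2 + δ ^ 2) ^ ((p - 2) / 2) : ℝ) : ℂ))) := by ring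
      rw [e3, e1, e2, one_mul]
      push_cast
      ring
    have hgn : ∀ z : ℂ, z ≠ 0 → ‖g z‖ = χ (Complex.normSq z) *
        (‖H z‖ * (‖H z‖ ^ 2 + δ ^ 2) ^ ((p - 2) / 2)) := by
      intro z hz
      have hu : ‖z / (‖z‖ : ℂ)‖ = 1 := by
        rw [norm_div, Complex.norm_real, norm_norm]
        exact div_self (norm_ne_zero_iff.2 hz)
      rw [hg1, norm_mul, norm_pow, hu, one_pow, one_mul, hnormH z hz]
      unfold prof
      rw [hsq, norm_mul, norm_mul, Complex.norm_real, Complex.norm_real, RCLike.norm_conj,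
        Real.norm_of_nonneg (h01 _).1, Real.norm_of_nonneg (by positivity)]
    -- (iii)
    have s1 : A0 ≤ ∫⁻ z : ℂ, ENNReal.ofReal (W z) := by
      refine lintegral_mono fun z => ENNReal.ofReal_le_ofReal ?_
      rw [hW]
      simp only
      refine mul_le_mul_of_nonneg_left ?_ (h01 _).1
      have e4 : ‖H z‖ ^ p = ‖H z‖ ^ 2 * (‖H z‖ ^ 2) ^ ((p - 2) / 2) := by
        rw [← Real.rpow_natCast ‖H z‖ 2, ← Real.rpow_mul (norm_nonneg _),
          ← Real.rpow_add' (norm_nonneg _)]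
        · congr 1
          push_cast
          ring
        · push_cast
          linarith
      rw [e4]
      gcongr
      nlinarith [sq_nonneg δ]
    have s2 : ∫⁻ z : ℂ, ENNReal.ofReal (W z) = ‖∫ z : ℂ, H z * g z‖ₑ := by
      rw [← ofReal_integral_eq_lintegral_ofReal (hWc.integrable_of_hasCompactSupport hWs)
        (Eventually.of_forall hW0)]
      have e5 : ∫ z : ℂ, H z * g z = ((∫ z : ℂ, W z : ℝ) : ℂ) := by
        rw [← integral_complex_ofReal]
        refine integral_congr_ae ?_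
        filter_upwards [hne] with z hz
        exact hHg z hz
      rw [e5, ← ofReal_norm, Complex.norm_real, Real.norm_of_nonneg (integral_nonneg hW0)]
    have s3 : ‖∫ z : ℂ, H z * g z‖ₑ ≤ ∫⁻ z : ℂ, ‖f z‖ₑ * ‖Tn n g z‖ₑ := by
      rw [hH, pair n f g]
      refine (enorm_integral_le_lintegral_enorm _).trans (le_of_eq ?_)
      exact lintegral_congr fun z => enorm_mul _ _
    have s4 : ∫⁻ z : ℂ, ‖f z‖ₑ * ‖Tn n g z‖ₑ ≤
        (∫⁻ z : ℂ, ‖f z‖ₑ ^ p) ^ (1 / p) * (∫⁻ z : ℂ, ‖Tn n g z‖ₑ ^ q) ^ (1 / q) :=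
      ENNReal.lintegral_mul_le_Lp_mul_Lq volume hpq f.continuous.enorm.measurable.aemeasurable
        (Tn_smooth n g).continuous.enorm.measurable.aemeasurable
    have s5 : ∫⁻ z : ℂ, ‖g z‖ₑ ^ q ≤ A δ := by
      refine lintegral_mono_ae ?_
      filter_upwards [hne] with z hz
      rw [← ofReal_norm, ENNReal.ofReal_rpow_of_nonneg (norm_nonneg _) hq0.le, hgn z hz]
      exact ENNReal.ofReal_le_ofReal
        (ofReal_mul_rpow_le hp hq (h01 _).1 (h01 _).2 (norm_nonneg _) hδ)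
    calc A0 ≤ ∫⁻ z : ℂ, ‖f z‖ₑ * ‖Tn n g z‖ₑ := s1.trans (s2.le.trans s3)
      _ ≤ (∫⁻ z : ℂ, ‖f z‖ₑ ^ p) ^ (1 / p) * (∫⁻ z : ℂ, ‖Tn n g z‖ₑ ^ q) ^ (1 / q) := s4
      _ ≤ (∫⁻ z : ℂ, ‖f z‖ₑ ^ p) ^ (1 / p) *
          (ENNReal.ofReal (X ^ (2 - q)) * A δ) ^ (1 / q) := by
          gcongr
          exact hg2.trans (by gcongr)
      _ = L * (A δ) ^ (1 / q) := by
          rw [ENNReal.mul_rpow_of_nonneg _ _ (by positivity), hL, mul_assoc]
  -- the limit `δ → 0`
  have hAfin : A 1 < ⊤ := by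
    have hc1 : Continuous fun z => χ (Complex.normSq z) * (‖H z‖ ^ 2 + 1 ^ 2) ^ (p / 2) := by
      refine hχc.mul ?_
      refine Continuous.rpow_const (by fun_prop) fun z => Or.inl ?_
      positivity
    have hi := (hc1.integrable_of_hasCompactSupport (μ := (volume : Measure ℂ)) hχs.mul_right).lintegral_lt_top
    exact hi
  have hlimA : Tendsto (fun k : ℕ => A (1 / ((k : ℝ) + 1))) atTop (𝓝 A0) := by
    refine tendsto_lintegral_of_dominated_convergence (fun z => ENNReal.ofReal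
      (χ (Complex.normSq z) * (‖H z‖ ^ 2 + 1 ^ 2) ^ (p / 2))) (fun k => ?_) (fun k => ?_)
      hAfin.ne ?_
    · apply Measurable.ennreal_ofReal
      have hc1 : Continuous fun z => χ (Complex.normSq z) *
          (‖H z‖ ^ 2 + (1 / ((k : ℝ) + 1)) ^ 2) ^ (p / 2) := by
        refine hχc.mul ?_
        exact Continuous.rpow_const (by fun_prop) fun z => Or.inr (by linarith)
      exact hc1.measurable
    · refine Eventually.of_forall fun z => ENNReal.ofReal_le_ofReal ?_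
      have h3 : (1 / ((k : ℝ) + 1)) ^ 2 ≤ 1 ^ 2 := by
        have : 1 / ((k : ℝ) + 1) ≤ 1 := by
          rw [div_le_one (by positivity)]
          have : (0 : ℝ) ≤ k := Nat.cast_nonneg k
          linarith
        gcongr
      refine mul_le_mul_of_nonneg_left ?_ (h01 _).1
      gcongr
    · refine Eventually.of_forall fun z => ?_
      refine ENNReal.tendsto_ofReal ?_
      have h4 : Tendsto (fun k : ℕ => (1 : ℝ) / ((k : ℝ) + 1)) atTop (𝓝 0) :=
        tendsto_one_div_add_atTop_nhds_zero_nat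
      have h5 : Continuous fun t : ℝ => χ (Complex.normSq z) * (‖H z‖ ^ 2 + t ^ 2) ^ (p / 2) := by
        refine continuous_const.mul ?_
        exact Continuous.rpow_const (by fun_prop) fun z => Or.inr (by linarith)
      have h6 := (h5.tendsto 0).comp h4
      have h7 : χ (Complex.normSq z) * (‖H z‖ ^ 2 + 0 ^ 2) ^ (p / 2)
          = χ (Complex.normSq z) * ‖H z‖ ^ p := by
        congr 1
        rw [zero_pow two_ne_zero, add_zero, ← Real.rpow_natCast, ← Real.rpow_mul (norm_nonneg _)]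
        congr 1
        push_cast
        ring
      rw [h7] at h6
      exact h6
  have hA0fin : A0 ≠ ⊤ := by
    refine ne_top_of_le_ne_top hAfin.ne (le_of_tendsto hlimA (Eventually.of_forall fun k => ?_))
    refine lintegral_mono fun z => ENNReal.ofReal_le_ofReal ?_
    have h3 : (1 / ((k : ℝ) + 1)) ^ 2 ≤ 1 ^ 2 := by
      have : 1 / ((k : ℝ) + 1) ≤ 1 := by
        rw [div_le_one (by positivity)]
        have : (0 : ℝ) ≤ k := Nat.cast_nonneg k
        linarith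
      gcongr
    refine mul_le_mul_of_nonneg_left ?_ (h01 _).1
    gcongr
  have hLtop : L ≠ ⊤ := by
    have h3 : ∫⁻ z : ℂ, ‖f z‖ₑ ^ p < ⊤ := by
      have h4 : MemLp f (ENNReal.ofReal p) (volume : Measure ℂ) := f.memLp _ _
      have h5 := lintegral_rpow_enorm_lt_top_of_eLpNorm_lt_top (by simpa using hp0)
        ENNReal.ofReal_ne_top h4.2
      rwa [ENNReal.toReal_ofReal hp0.le] at h5
    rw [hL]
    refine ENNReal.mul_ne_top ?_ ?_
    · exact ENNReal.rpow_ne_top_of_nonneg (by positivity) h3.ne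
    · exact ENNReal.rpow_ne_top_of_nonneg (by positivity) ENNReal.ofReal_ne_top
  have hfin : A0 ≤ L * A0 ^ (1 / q) := by
    have hl : Tendsto (fun k : ℕ => L * (A (1 / ((k : ℝ) + 1))) ^ (1 / q)) atTop
        (𝓝 (L * A0 ^ (1 / q))) := by
      refine ENNReal.Tendsto.const_mul ?_ (Or.inr hLtop)
      exact (ENNReal.continuous_rpow_const.tendsto _).comp hlimA
    exact ge_of_tendsto hl (Eventually.of_forall fun k => key _ (by positivity))
  have hfin2 : A0 ^ (1 / p) ≤ L := by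
    by_cases hz : A0 = 0
    · rw [hz, ENNReal.zero_rpow_of_pos (by positivity)]
      exact zero_le
    · have h3 : A0 = A0 ^ (1 / p) * A0 ^ (1 / q) := by
        rw [← ENNReal.rpow_add _ _ hz hA0fin]
        have : 1 / p + 1 / q = 1 := by
          rw [hq]
          have : p - 1 ≠ 0 := by linarith
          field_simp
          ring
        rw [this, ENNReal.rpow_one]
      have h4 : A0 ^ (1 / p) * A0 ^ (1 / q) ≤ L * A0 ^ (1 / q) := h3 ▸ hfin
      refine (ENNReal.mul_le_mul_iff_left ?_ ?_).1 h4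
      · rw [ne_eq, ENNReal.rpow_eq_zero_iff]
        rintro (⟨h, _⟩ | ⟨h, _⟩)
        · exact hz h
        · exact hA0fin h
      · exact ENNReal.rpow_ne_top_of_nonneg (by positivity) hA0fin
  have h8 := ENNReal.rpow_le_rpow hfin2 hp0.le
  rw [← ENNReal.rpow_mul, one_div_mul_cancel hp0.ne', ENNReal.rpow_one, hL,
    ENNReal.mul_rpow_of_nonneg _ _ hp0.le, ← ENNReal.rpow_mul, one_div_mul_cancel hp0.ne',
    ENNReal.rpow_one, ← ENNReal.rpow_mul, ENNReal.ofReal_rpow_of_nonneg (by positivity)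
    (by positivity), ← Real.rpow_mul hX0.le] at h8
  have h9 : (2 - q) * (1 / q * p) = p - 2 := by
    rw [hq]
    have : p - 1 ≠ 0 := by linarith
    field_simp
    ring
  rw [h9, mul_comm] at h8
  exact h8

/-- negative modes -/
theorem neg_mode {n m : ℕ} {X : ℝ} (hXb : ColB n m X) {p : ℝ} (hp : 2 ≤ p) (f : 𝓢(ℂ, ℂ))
    (hf : ∀ a z : ℂ, ‖a‖ = 1 → f (a * z) = conj a ^ m * f z) :
    eLpNorm (Tn n f) (ENNReal.ofReal p) (volume : Measure ℂ) ≤
      ENNReal.ofReal (X ^ (1 - 2 / p)) *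
        eLpNorm f (ENNReal.ofReal p) (volume : Measure ℂ) := by
  rcases hp.eq_or_lt with h | h
  · rw [← h, eLp_two]
    norm_num
  · exact uncut n h (lt_of_lt_of_le one_pos hXb.1) f
      fun χ h1 a b ha h2 h3 h4 => dual_cut hXb h f hf h1 ha h2 h3 h4

end Pool.Agent.Q75.BN
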