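import Pool.Agent.Q75.BN.L1

/-!
# Interpolation between the `L²` isometry and the `L^∞` bound
-/

set_option autoImplicit false

open MeasureTheory Set Filter Topology ComplexConjugate
open scoped ContDiff ENNReal SchwartzMap FourierTransform

namespace Pool.Agent.Q75.BN

open Pool.Agent.Q75.BM
open Pool.Agent.Y282.RB (Tn)

/-- the three lines step -/
theorem stepP {n m : ℕ} {X : ℝ} (hXb : RowB n m X) {q : ℝ} (hq2 : 2 ≤ q)
    {ψ : ℝ → ℂ} (hψ : ContDiff ℝ (⊤ : ℕ∞) ψ) {a b : ℝ} (ha : 0 < a)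
    (h1 : ∀ x, x ≤ a → ψ x = 0) (h2 : ∀ x, b ≤ x → ψ x = 0) {ε : ℝ} (hε : 0 < ε)
    {B : Set ℝ} (hB : MeasurableSet B) {c d δ Λ : ℝ} (hc : 0 < c) (hBcd : B ⊆ Icc c d)
    (hδ : 0 < δ) (hG1 : ∀ x ∈ B, δ ≤ ‖S n m ψ x‖) (hG2 : ∀ x ∈ B, ‖S n m ψ x‖ ≤ Λ) :
    ∫ x in B, ‖S n m ψ x‖ ^ q ≤ X ^ (q - 2) *
      ∫ y in Icc a b, Real.exp (q * lam ε ψ y) := by
  have hX1 : 1 ≤ X := hXb.1
  have hq1 : 1 < q := by linarith
  set G : ℝ → ℂ := S n m ψ with hG
  have hψm : Measurable ψ := hψ.continuous.measurable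
  have hGm : Measurable G := S_meas n m hψm
  set e : ℝ → ℝ := fun y => Real.exp (q * lam ε ψ y) with he
  have hlc : Continuous (lam ε ψ) := (lam_smooth hε hψ).continuous
  have hec : Continuous e := by
    rw [he]
    fun_prop
  set N : ℝ := ∫ y in Icc a b, e y with hN
  have hN0 : 0 ≤ N := setIntegral_nonneg measurableSet_Icc fun y _ => (Real.exp_pos _).le
  set D : ℝ := ∫ x in B, ‖G x‖ ^ q with hD
  have hD0 : 0 ≤ D := setIntegral_nonneg hB fun y _ => by positivity
  have hBfin : volume B ≠ ⊤ := ne_top_of_le_ne_top (by simp) (measure_mono hBcd)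
  have hGne : ∀ x ∈ B, G x ≠ 0 := fun x hx h0 => by
    have := hG1 x hx
    rw [h0, norm_zero] at this
    linarith
  -- integrability of `‖G‖ ^ q` on `B`
  have hDint : IntegrableOn (fun x => ‖G x‖ ^ q) B := by
    refine IntegrableOn.of_bound (lt_top_iff_ne_top.2 hBfin)
      ((hGm.norm.pow_const q).aestronglyMeasurable) (Λ ^ q) ?_
    refine (ae_restrict_iff' hB).2 (Eventually.of_forall fun x hx => ?_)
    rw [Real.norm_eq_abs, abs_of_nonneg (by positivity)]
    exact Real.rpow_le_rpow (norm_nonneg _) (hG2 x hx) (by linarith)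
  have hDe : ∫⁻ x in B, ENNReal.ofReal (‖G x‖ ^ q) = ENNReal.ofReal D := by
    rw [hD, ofReal_integral_eq_lintegral_ofReal hDint (Eventually.of_forall fun x => by positivity)]
  have hNe : ∫⁻ y in Icc a b, ENNReal.ofReal (e y) = ENNReal.ofReal N := by
    rw [hN, ofReal_integral_eq_lintegral_ofReal (hec.integrableOn_Icc)
      (Eventually.of_forall fun x => (Real.exp_pos _).le)]
  -- the norm of `ψ_w`
  have hz1 : ∀ w, ∀ x, x ≤ a → psw q ε ψ w x = 0 := fun w x hx => by
    unfold psw
    rw [h1 x hx, zero_mul]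
  have hz2 : ∀ w, ∀ x, b ≤ x → psw q ε ψ w x = 0 := fun w x hx => by
    unfold psw
    rw [h2 x hx, zero_mul]
  have hsupp : ∀ (w : ℂ) (r : ℝ → ℝ≥0∞), (∀ y, psw q ε ψ w y = 0 → r y = 0) →
      (∀ y, r y ≤ ENNReal.ofReal (e y)) → ∫⁻ y in Ioi (0 : ℝ), r y ≤ ENNReal.ofReal N := by
    intro w r hr0 hre
    rw [← hNe, ← lintegral_indicator measurableSet_Ioi, ← lintegral_indicator measurableSet_Icc]
    refine lintegral_mono fun y => ?_
    by_cases hy : y ∈ Icc a b
    · rw [indicator_of_mem hy]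
      refine (indicator_le_self _ _ _).trans (hre y)
    · rw [indicator_of_notMem hy]
      have hy0 : psw q ε ψ w y = 0 := by
        by_cases hya : y ≤ a
        · exact hz1 w y hya
        · refine hz2 w y ?_
          by_contra hcon
          exact hy ⟨(not_le.1 hya).le, (not_le.1 hcon).le⟩
      refine (indicator_le_self _ _ _).trans ?_
      rw [hr0 y hy0]
  -- the function `F`
  set F : ℂ → ℂ := fun w => ∫ x in B, phw q G (2 - w) x * S n m (psw q ε ψ (2 - w)) x with hF
  have hFe : ∀ w, ‖F w‖ₑ ≤ ∫⁻ x in B, ‖phw q G (2 - w) x‖ₑ * ‖S n m (psw q ε ψ (2 - w)) x‖ₑ := by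
    intro w
    refine (enorm_integral_le_lintegral_enorm _).trans (le_of_eq ?_)
    exact lintegral_congr fun x => enorm_mul _ _
  have hBI : B ⊆ Ioi (0 : ℝ) := fun x hx => lt_of_lt_of_le hc (hBcd hx).1
  -- left edge
  have hF0 : ∀ w : ℂ, w.re = 0 → ‖F w‖ ≤ X * D := by
    intro w hw
    have hw2 : (2 - w).re = 2 := by simp [hw]
    have h3 : ‖F w‖ₑ ≤ ENNReal.ofReal (X * D) := by
      refine (hFe w).trans ?_
      calc ∫⁻ x in B, ‖phw q G (2 - w) x‖ₑ * ‖S n m (psw q ε ψ (2 - w)) x‖ₑ
          ≤ ∫⁻ x in B, ENNReal.ofReal X * ENNReal.ofReal (‖G x‖ ^ q) := by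
            refine setLIntegral_mono' hB fun x hx => ?_
            have h4 : ‖phw q G (2 - w) x‖ₑ = ENNReal.ofReal (‖G x‖ ^ q) := by
              rw [← ofReal_norm, norm_phw (hGne x hx), hw2]
              congr 2
              ring
            rw [h4, mul_comm]
            refine mul_le_mul' ?_ le_rfl
            refine S_Linf hXb (fun x hx => hz1 (2 - w) x (hx.trans ha.le)) (fun y => ?_) (hBI hx)
            rw [norm_psw, hw2]
            calc ‖ψ y‖ * Real.exp ((q * (1 - 2 / 2) - 1) * lam ε ψ y)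
                ≤ Real.exp (lam ε ψ y) * Real.exp ((q * (1 - 2 / 2) - 1) * lam ε ψ y) := by
                  gcongr
                  exact norm_le_exp_lam hε ψ y
              _ = 1 := by
                  rw [← Real.exp_add]
                  ring_nf
                  exact Real.exp_zero
        _ = ENNReal.ofReal X * ∫⁻ x in B, ENNReal.ofReal (‖G x‖ ^ q) := by
            rw [lintegral_const_mul _ (hGm.norm.pow_const q).ennreal_ofReal]
        _ = ENNReal.ofReal (X * D) := by
            rw [hDe, ENNReal.ofReal_mul (by linarith)]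
    rw [← ofReal_norm] at h3
    exact (ENNReal.ofReal_le_ofReal_iff (by positivity)).1 h3
  -- right edge
  have hF1 : ∀ w : ℂ, w.re = 1 → ‖F w‖ ≤ √D * √N := by
    intro w hw
    have hw2 : (2 - w).re = 1 := by
      rw [Complex.sub_re, hw]
      norm_num
    have h3 : ‖F w‖ₑ ≤ ENNReal.ofReal (√D * √N) := by
      refine (hFe w).trans ?_
      have hH := ENNReal.lintegral_mul_le_Lp_mul_Lq (volume.restrict B)
        (Real.HolderConjugate.two_two) (f := fun x => ‖phw q G (2 - w) x‖ₑ)
        (g := fun x => ‖S n m (psw q ε ψ (2 - w)) x‖ₑ) ((phw_meas hGm (2 - w)).enorm.aemeasurable)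
        ((S_meas n m (psw_smooth hε hψ (2 - w)).continuous.measurable).enorm.aemeasurable)
      refine hH.trans ?_
      have e1 : ∫⁻ x in B, ‖phw q G (2 - w) x‖ₑ ^ (2 : ℝ) = ENNReal.ofReal D := by
        rw [← hDe]
        refine setLIntegral_congr_fun hB fun x hx => ?_
        rw [← ofReal_norm, norm_phw (hGne x hx), hw2, ENNReal.ofReal_rpow_of_nonneg (by positivity)
          (by norm_num), ← Real.rpow_mul (norm_nonneg _)]
        congr 2
        ring
      have e2 : ∫⁻ x in B, ‖S n m (psw q ε ψ (2 - w)) x‖ₑ ^ (2 : ℝ) ≤ ENNReal.ofReal N := by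
        calc ∫⁻ x in B, ‖S n m (psw q ε ψ (2 - w)) x‖ₑ ^ (2 : ℝ)
            ≤ ∫⁻ x in Ioi (0 : ℝ), ‖S n m (psw q ε ψ (2 - w)) x‖ₑ ^ (2 : ℝ) := lintegral_mono_set hBI
          _ = ∫⁻ x in Ioi (0 : ℝ), ‖S n m (psw q ε ψ (2 - w)) x‖ₑ ^ 2 := by
              simp only [ENNReal.rpow_two]
          _ = ∫⁻ x in Ioi (0 : ℝ), ‖psw q ε ψ (2 - w) x‖ₑ ^ 2 :=
              S_L2 n m (psw_smooth hε hψ (2 - w)) ha (hz1 (2 - w)) (hz2 (2 - w))
          _ ≤ ENNReal.ofReal N := by
              refine hsupp (2 - w) _ (fun y hy => by rw [hy]; simp) fun y => ?_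
              rw [← ofReal_norm, ← ENNReal.ofReal_pow (norm_nonneg _)]
              exact ENNReal.ofReal_le_ofReal (psw1 hε ψ (2 - w) hw2 y)
      rw [e1]
      calc (ENNReal.ofReal D) ^ (1 / (2 : ℝ)) *
            (∫⁻ x in B, ‖S n m (psw q ε ψ (2 - w)) x‖ₑ ^ (2 : ℝ)) ^ (1 / (2 : ℝ))
          ≤ (ENNReal.ofReal D) ^ (1 / (2 : ℝ)) * (ENNReal.ofReal N) ^ (1 / (2 : ℝ)) := by
            gcongr
        _ = ENNReal.ofReal (√D * √N) := by
            rw [ENNReal.ofReal_rpow_of_nonneg hD0 (by norm_num),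
              ENNReal.ofReal_rpow_of_nonneg hN0 (by norm_num), ← Real.sqrt_eq_rpow,
              ← Real.sqrt_eq_rpow, ENNReal.ofReal_mul (Real.sqrt_nonneg _)]
    rw [← ofReal_norm] at h3
    exact (ENNReal.ofReal_le_ofReal_iff (by positivity)).1 h3
  -- bounds
  obtain ⟨Kl, hKl⟩ := isCompact_Icc.exists_bound_of_continuousOn (s := Icc (min a c) (max b d))
    hlc.continuousOn
  set h0 : ℝ → ℂ := fun y => ψ y * Complex.exp (((q : ℂ) - 1) * (lam ε ψ y : ℂ)) with hh0
  have hh0c : Continuous h0 := by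
    have := hψ.continuous
    rw [hh0]
    fun_prop
  obtain ⟨Kh, hKh⟩ := isCompact_Icc.exists_bound_of_continuousOn (s := Icc (min a c) (max b d))
    hh0c.continuousOn
  obtain ⟨Ck, hCk⟩ := ker_bound n m ha
  have hsub1 : B ⊆ Icc (min a c) (max b d) := fun x hx =>
    ⟨(min_le_right _ _).trans (hBcd hx).1, (hBcd hx).2.trans (le_max_right _ _)⟩
  have hsub2 : Icc a b ⊆ Icc (min a c) (max b d) := fun x hx =>
    ⟨(min_le_left _ _).trans hx.1, hx.2.trans (le_max_left _ _)⟩
  set Km : ℝ := |Real.log δ| + |Real.log Λ| with hKm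
  have hmu : ∀ x ∈ B, |Real.log ‖G x‖| ≤ Km := by
    intro x hx
    have h3 := Real.log_le_log hδ (hG1 x hx)
    have h4 := Real.log_le_log (lt_of_lt_of_le hδ (hG1 x hx)) (hG2 x hx)
    rw [abs_le]
    constructor
    · have := neg_abs_le (Real.log δ)
      have := abs_nonneg (Real.log Λ)
      linarith
    · have := le_abs_self (Real.log Λ)
      have := abs_nonneg (Real.log δ)
      linarith
  have hM : ∀ x ∈ B, ∀ y ∈ Icc (min a c) (max b d),
      |q / 2 * (Real.log ‖G x‖ - lam ε ψ y)| ≤ q / 2 * (Km + Kl) := by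
    intro x hx y hy
    rw [abs_mul, abs_of_pos (by linarith : (0 : ℝ) < q / 2)]
    have h3 := hmu x hx
    have h4 := hKl y hy
    rw [Real.norm_eq_abs] at h4
    have h5 := abs_sub (Real.log ‖G x‖) (lam ε ψ y)
    have h6 : |Real.log ‖G x‖ - lam ε ψ y| ≤ Km + Kl := by linarith
    gcongr
  -- first part
  set c1 : ℝ → ℂ := fun x => cs G x * h0 x with hc1
  set M1 : ℝ → ℝ := fun x => q / 2 * (Real.log ‖G x‖ - lam ε ψ x) with hM1
  have hM1m : Measurable M1 := by
    rw [hM1]
    exact measurable_const.mul ((Real.measurable_log.comp hGm.norm).sub hlc.measurable)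
  have hc1i : Integrable c1 (volume.restrict B) := by
    refine IntegrableOn.of_bound (lt_top_iff_ne_top.2 hBfin)
      ((cs_meas hGm).mul hh0c.measurable).aestronglyMeasurable Kh ?_
    refine (ae_restrict_iff' hB).2 (Eventually.of_forall fun x hx => ?_)
    rw [hc1]
    simp only
    rw [norm_mul]
    calc ‖cs G x‖ * ‖h0 x‖ ≤ 1 * ‖h0 x‖ := by
          gcongr
          exact norm_cs_le G x
      _ ≤ Kh := by
          rw [one_mul]
          exact hKh x (hsub1 hx)
  have hM1b : ∀ᵐ x ∂(volume.restrict B), |M1 x| ≤ q / 2 * (Km + Kl) :=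
    (ae_restrict_iff' hB).2 (Eventually.of_forall fun x hx => hM x hx x (hsub1 hx))
  -- second part
  set ν : Measure (ℝ × ℝ) := (volume.restrict B).prod (volume.restrict (Icc a b)) with hν
  have hν' : ν = (volume.prod volume).restrict (B ×ˢ Icc a b) := Measure.prod_restrict _ _
  set c2 : ℝ × ℝ → ℂ := fun p => cs G p.1 * (((ker n m p.1 p.2 : ℝ) : ℂ) * h0 p.2) with hc2
  set M2 : ℝ × ℝ → ℝ := fun p => q / 2 * (Real.log ‖G p.1‖ - lam ε ψ p.2) with hM2
  have hM2m : Measurable M2 := by
    rw [hM2]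
    exact measurable_const.mul (((Real.measurable_log.comp hGm.norm).comp measurable_fst).sub
      (hlc.measurable.comp measurable_snd))
  have : IsFiniteMeasure (volume.restrict B) := ⟨by
    rw [Measure.restrict_apply_univ]
    exact lt_top_iff_ne_top.2 hBfin⟩
  have : IsFiniteMeasure ν := by
    rw [hν]
    infer_instance
  have hc2m : Measurable c2 := by
    rw [hc2]
    exact ((cs_meas hGm).comp measurable_fst).mul ((Complex.measurable_ofReal.comp
      (ker_meas n m)).mul (hh0c.measurable.comp measurable_snd))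
  have hc2i : Integrable c2 ν := by
    refine Integrable.of_bound hc2m.aestronglyMeasurable (Ck * Kh) ?_
    rw [hν']
    refine (ae_restrict_iff' (hB.prod measurableSet_Icc)).2 (Eventually.of_forall fun p hp => ?_)
    have hp1 : 0 < p.1 := lt_of_lt_of_le hc (hBcd hp.1).1
    have h3 := hCk p.1 p.2 hp1 hp.2.1
    have h4 := hKh p.2 (hsub2 hp.2)
    rw [hc2]
    simp only
    rw [norm_mul, norm_mul, Complex.norm_real, Real.norm_eq_abs]
    have h5 := norm_cs_le G p.1
    calc ‖cs G p.1‖ * (|ker n m p.1 p.2| * ‖h0 p.2‖) ≤ 1 * (Ck * Kh) := by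
          have := abs_nonneg (ker n m p.1 p.2)
          have h6 : 0 ≤ Ck := this.trans h3
          gcongr
      _ = Ck * Kh := one_mul _
  have hM2b : ∀ᵐ p ∂ν, |M2 p| ≤ q / 2 * (Km + Kl) := by
    rw [hν']
    exact (ae_restrict_iff' (hB.prod measurableSet_Icc)).2
      (Eventually.of_forall fun p hp => hM p.1 hp.1 p.2 (hsub2 hp.2))
  -- decomposition
  have hdec : ∀ w, F w = (∫ x in B, c1 x * Complex.exp ((2 - w) * M1 x)) +
      ∫ p, c2 p * Complex.exp ((2 - w) * M2 p) ∂ν := by
    intro w'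
    set w : ℂ := 2 - w' with hw'
    have i1 := an_int hc1i hM1m.aestronglyMeasurable hM1b w
    have i2 := an_int hc2i hM2m.aestronglyMeasurable hM2b w
    have i3 := i2.integral_prod_left
    rw [hν, integral_prod _ i2, ← integral_add i1 i3, hF]
    refine setIntegral_congr_fun hB fun x hx => ?_
    rw [S_eq, mul_add]
    congr 1
    · have := prodexp q ε ψ G w x x
      rw [this]
    · rw [← MeasureTheory.integral_const_mul, ← MeasureTheory.integral_indicator measurableSet_Icc]
      refine integral_congr_ae (Eventually.of_forall fun y => ?_)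
      simp only
      by_cases hy : y ∈ Icc a b
      · rw [indicator_of_mem hy]
        have := prodexp q ε ψ G w x y
        rw [hc2, hM2]
        simp only
        rw [hh0]
        simp only
        linear_combination ((ker n m x y : ℝ) : ℂ) * this
      · rw [indicator_of_notMem hy]
        have hy0 : psw q ε ψ w y = 0 := by
          by_cases hya : y ≤ a
          · exact hz1 w y hya
          · refine hz2 w y ?_
            by_contra hcon
            exact hy ⟨(not_le.1 hya).le, (not_le.1 hcon).le⟩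
        rw [hy0]
        ring
  have hFd : Differentiable ℂ F := by
    have e3 : F = (fun w => (∫ x in B, c1 x * Complex.exp (w * M1 x)) +
      ∫ p, c2 p * Complex.exp (w * M2 p) ∂ν) ∘ fun w => 2 - w := funext hdec
    rw [e3]
    exact ((an_diff hc1i hM1m.aestronglyMeasurable hM1b).add
      (an_diff hc2i hM2m.aestronglyMeasurable hM2b)).comp (differentiable_id.const_sub 2)
  set Kt : ℝ := q / 2 * (Km + Kl) with hKt
  have hFb : BddAbove ((norm ∘ F) '' Complex.HadamardThreeLines.verticalClosedStrip 0 1) := by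
    refine ⟨Real.exp (2 * |Kt|) * (∫ x in B, ‖c1 x‖) + Real.exp (2 * |Kt|) * ∫ p, ‖c2 p‖ ∂ν, ?_⟩
    rintro _ ⟨w, hw, rfl⟩
    have hw' : 0 ≤ w.re ∧ w.re ≤ 1 := hw
    have h3 : Real.exp (Kt * |(2 - w).re|) ≤ Real.exp (2 * |Kt|) := by
      refine Real.exp_le_exp.2 ?_
      have h4 : |(2 - w).re| ≤ 2 := by
        rw [Complex.sub_re, abs_le]
        constructor
        · have : (2 : ℂ).re = 2 := by norm_num
          rw [this]
          linarith [hw'.2]
        · have : (2 : ℂ).re = 2 := by norm_num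
          rw [this]
          linarith [hw'.1]
      calc Kt * |(2 - w).re| ≤ |Kt| * |(2 - w).re| := by
            gcongr
            exact le_abs_self _
        _ ≤ |Kt| * 2 := by
            gcongr
        _ = 2 * |Kt| := mul_comm _ _
    show ‖F w‖ ≤ _
    rw [hdec]
    refine (norm_add_le _ _).trans (add_le_add ?_ ?_)
    · refine (an_bound hc1i hM1b (2 - w)).trans ?_
      exact mul_le_mul_of_nonneg_right h3 (integral_nonneg fun _ => norm_nonneg _)
    · refine (an_bound hc2i hM2b (2 - w)).trans ?_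
      exact mul_le_mul_of_nonneg_right h3 (integral_nonneg fun _ => norm_nonneg _)
  -- the middle point
  set θ : ℝ := 2 / q with hθ
  have hq0 : 0 < q := by linarith
  have hθ0 : 0 < θ := by positivity
  have hθ1 : θ ≤ 1 := by
    rw [hθ, div_le_one hq0]
    exact hq2
  have h3l := Complex.HadamardThreeLines.norm_le_interp_of_mem_verticalClosedStrip₀₁' F
    (z := (θ : ℂ)) (a := X * D) (b := √D * √N)
    (by
      show (θ : ℂ).re ∈ Icc 0 1
      rw [Complex.ofReal_re]
      exact ⟨hθ0.le, hθ1⟩)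
    hFd.diffContOnCl hFb (fun w hw => hF0 w hw) (fun w hw => hF1 w hw)
  rw [Complex.ofReal_re] at h3l
  have hFθ : F (θ : ℂ) = ((D : ℝ) : ℂ) := by
    have e4 : psw q ε ψ (2 - (θ : ℂ)) = ψ := by
      funext y
      unfold psw
      have : ((q : ℂ) * (1 - (2 - (θ : ℂ)) / 2) - 1) = 0 := by
        rw [hθ]
        push_cast
        have : (q : ℂ) ≠ 0 := Complex.ofReal_ne_zero.2 hq0.ne'
        field_simp
        ring
      rw [this, zero_mul, Complex.exp_zero, mul_one]
    rw [hF, hD]
    simp only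
    rw [e4, ← integral_complex_ofReal]
    refine setIntegral_congr_fun hB fun x hx => ?_
    have hx0 := hGne x hx
    have hx1 : 0 < ‖G x‖ := norm_pos_iff.2 hx0
    unfold phw cs
    have e5 : Complex.exp (((q : ℂ) * (2 - (θ : ℂ)) / 2) * (Real.log ‖G x‖ : ℂ))
        = ((‖G x‖ ^ (q - 1) : ℝ) : ℂ) := by
      rw [Real.rpow_def_of_pos hx1, Complex.ofReal_exp]
      congr 1
      rw [hθ]
      push_cast
      have : (q : ℂ) ≠ 0 := Complex.ofReal_ne_zero.2 hq0.ne'
      field_simp
    rw [e5]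
    have e6 : (starRingEnd ℂ) (G x) * G x = ((‖G x‖ ^ 2 : ℝ) : ℂ) := by
      rw [mul_comm, Complex.mul_conj, Complex.normSq_eq_norm_sq]
    have e7 : ‖G x‖ ^ q = ‖G x‖ ^ (q - 1) * ‖G x‖ := by
      rw [← Real.rpow_add_one hx1.ne']
      ring_nf
    rw [e7]
    have hx2 : (‖G x‖ : ℂ) ≠ 0 := Complex.ofReal_ne_zero.2 hx1.ne'
    have e8 : (starRingEnd ℂ) (G x) / (‖G x‖ : ℂ) * ((‖G x‖ ^ (q - 1) : ℝ) : ℂ) * G x
        = ((‖G x‖ ^ (q - 1) : ℝ) : ℂ) * (((starRingEnd ℂ) (G x) * G x) / (‖G x‖ : ℂ)) := by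
      ring
    rw [← hG, e8, e6]
    push_cast
    field_simp
  rw [hFθ, Complex.norm_real, Real.norm_eq_abs, abs_of_nonneg hD0] at h3l
  -- conclusion
  rcases hD0.eq_or_lt with hDz | hDp
  · rw [← hDz]
    positivity
  have hNp : 0 < N := by
    rcases hN0.eq_or_lt with h | h
    · exfalso
      rw [← h] at h3l
      rw [Real.sqrt_zero, mul_zero (√D), Real.zero_rpow hθ0.ne', mul_zero] at h3l
      linarith
    · exact h
  have hXp : 0 < X := by linarith
  have hlog := Real.log_le_log hDp h3l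
  rw [Real.log_mul (by positivity) (by positivity), Real.log_rpow (by positivity),
    Real.log_rpow (by positivity), Real.log_mul hXp.ne' hDp.ne',
    Real.log_mul (Real.sqrt_pos.2 hDp).ne' (Real.sqrt_pos.2 hNp).ne', Real.log_sqrt hDp.le,
    Real.log_sqrt hNp.le] at hlog
  have hfin : Real.log D ≤ (q - 2) * Real.log X + Real.log N := by
    have e9 : q * (1 - θ) = q - 2 := by
      rw [hθ]
      field_simp
    have e10 : q * (θ / 2) = 1 := by
      rw [hθ]
      field_simp
    have h5 : (θ / 2) * Real.log D ≤ (1 - θ) * Real.log X + (θ / 2) * Real.log N := by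
      nlinarith
    have h6 := mul_le_mul_of_nonneg_left h5 hq0.le
    have h7 : q * ((θ / 2) * Real.log D) = Real.log D := by rw [← mul_assoc, e10, one_mul]
    have h8 : q * ((1 - θ) * Real.log X + (θ / 2) * Real.log N)
        = (q - 2) * Real.log X + Real.log N := by
      rw [mul_add, ← mul_assoc, ← mul_assoc, e9, e10, one_mul]
    linarith
  rw [← Real.log_le_log_iff hDp (by positivity), Real.log_mul (by positivity) hNp.ne',
    Real.log_rpow hXp]
  exact hfin

end Pool.Agent.Q75.BN
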