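import Pool.Agent.Q75.BN.E3

/-!
# The `L^p` bound on the half-line, `p ≥ 2`, and on the modes `2 n + m`
-/

set_option autoImplicit false

open MeasureTheory Set Filter Topology ComplexConjugate
open scoped ContDiff ENNReal SchwartzMap FourierTransform

namespace Pool.Agent.Q75.BN

open Pool.Agent.Q75.BM
open Pool.Agent.Y282.RB (Tn)

theorem step2P {n m : ℕ} {X : ℝ} (hXb : RowB n m X) {q : ℝ} (hq2 : 2 ≤ q)
    {ψ : ℝ → ℂ} (hψ : ContDiff ℝ (⊤ : ℕ∞) ψ) {a b : ℝ} (ha : 0 < a)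
    (h1 : ∀ x, x ≤ a → ψ x = 0) (h2 : ∀ x, b ≤ x → ψ x = 0)
    {B : Set ℝ} (hB : MeasurableSet B) {c d δ Λ : ℝ} (hc : 0 < c) (hBcd : B ⊆ Icc c d)
    (hδ : 0 < δ) (hG1 : ∀ x ∈ B, δ ≤ ‖S n m ψ x‖) (hG2 : ∀ x ∈ B, ‖S n m ψ x‖ ≤ Λ) :
    ∫ x in B, ‖S n m ψ x‖ ^ q ≤ X ^ (q - 2) * ∫ y in Icc a b, ‖ψ y‖ ^ q := by
  have hX0 : 0 < X := lt_of_lt_of_le one_pos hXb.1
  have hq0 : 0 < q := by linarith
  have hψc := hψ.continuous
  have e1 : ∀ (ε : ℝ), 0 < ε → ∀ y, Real.exp (q * lam ε ψ y) = (‖ψ y‖ ^ 2 + ε ^ 2) ^ (q / 2) := by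
    intro ε hε y
    rw [Real.rpow_def_of_pos (pos_arg hε ψ y)]
    congr 1
    unfold lam
    ring
  have hc : Continuous fun ε : ℝ => X ^ (q - 2) * ∫ y in Icc a b, (‖ψ y‖ ^ 2 + ε ^ 2) ^ (q / 2) := by
    refine continuous_const.mul ?_
    refine continuous_parametric_integral_of_continuous ?_ isCompact_Icc
    have h3 : Continuous fun r : ℝ × ℝ => ‖ψ r.2‖ ^ 2 + r.1 ^ 2 := by fun_prop
    exact h3.rpow_const fun _ => Or.inr (by linarith)
  have hlim := (hc.tendsto 0).mono_left (nhdsWithin_le_nhds (s := Ioi 0))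
  have e2 : ∀ y, (‖ψ y‖ ^ 2 + (0 : ℝ) ^ 2) ^ (q / 2) = ‖ψ y‖ ^ q := by
    intro y
    rw [zero_pow two_ne_zero, add_zero, ← Real.rpow_natCast, ← Real.rpow_mul (norm_nonneg _)]
    congr 1
    push_cast
    ring
  simp only [e2] at hlim
  refine ge_of_tendsto hlim ?_
  filter_upwards [self_mem_nhdsWithin] with ε hε
  have h4 := stepP hXb hq2 hψ ha h1 h2 hε hB (by assumption) hBcd hδ hG1 hG2
  simp only [e1 ε hε] at h4
  exact h4

/-- the `L^q` bound on the half-line -/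
theorem S_LqP {n m : ℕ} {X : ℝ} (hXb : RowB n m X) {q : ℝ} (hq2 : 2 ≤ q)
    {ψ : ℝ → ℂ} (hψ : ContDiff ℝ (⊤ : ℕ∞) ψ) {a b : ℝ} (ha : 0 < a)
    (h1 : ∀ x, x ≤ a → ψ x = 0) (h2 : ∀ x, b ≤ x → ψ x = 0) :
    ∫⁻ x in Ioi (0 : ℝ), ‖S n m ψ x‖ₑ ^ q ≤
      ENNReal.ofReal (X ^ (q - 2)) * ∫⁻ x in Ioi (0 : ℝ), ‖ψ x‖ₑ ^ q := by
  have hX0 : 0 < X := lt_of_lt_of_le one_pos hXb.1
  have hq0 : 0 < q := by linarith
  set G : ℝ → ℂ := S n m ψ with hG
  have hψm : Measurable ψ := hψ.continuous.measurable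
  have hGm : Measurable G := S_meas n m hψm
  have hcont : Continuous fun y => ‖ψ y‖ ^ q := hψ.continuous.norm.rpow_const (fun _ => Or.inr hq0.le)
  set s : ℕ → Set ℝ := fun j => {x | (1 / ((j : ℝ) + 1) ≤ x ∧ x ≤ (j : ℝ) + 1) ∧
    (1 / ((j : ℝ) + 1) ≤ ‖G x‖ ∧ ‖G x‖ ≤ (j : ℝ) + 1)} with hs
  have hsm : ∀ j, MeasurableSet (s j) := by
    intro j
    have hm1 : MeasurableSet {x : ℝ | 1 / ((j : ℝ) + 1) ≤ x} := measurableSet_le measurable_const measurable_id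
    have hm2 : MeasurableSet {x : ℝ | x ≤ (j : ℝ) + 1} := measurableSet_le measurable_id measurable_const
    have hm3 : MeasurableSet {x : ℝ | 1 / ((j : ℝ) + 1) ≤ ‖G x‖} := measurableSet_le measurable_const hGm.norm
    have hm4 : MeasurableSet {x : ℝ | ‖G x‖ ≤ (j : ℝ) + 1} := measurableSet_le hGm.norm measurable_const
    exact (hm1.inter hm2).inter (hm3.inter hm4)
  have hmono : Monotone s := by
    intro i j hij x hx
    have hij' : (i : ℝ) ≤ j := by exact_mod_cast hij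
    have hle : 1 / ((j : ℝ) + 1) ≤ 1 / ((i : ℝ) + 1) := by
      apply one_div_le_one_div_of_le (by positivity)
      linarith
    exact ⟨⟨hle.trans hx.1.1, hx.1.2.trans (by linarith)⟩, ⟨hle.trans hx.2.1, hx.2.2.trans (by linarith)⟩⟩
  have hcov : ∀ x, 0 < x → G x ≠ 0 → x ∈ ⋃ j, s j := by
    intro x hx hGx
    have hGp : 0 < ‖G x‖ := norm_pos_iff.2 hGx
    obtain ⟨j, hj⟩ := exists_nat_gt (max (max x (1 / x)) (max ‖G x‖ (1 / ‖G x‖)))
    have j1 : x < j := lt_of_le_of_lt ((le_max_left _ _).trans (le_max_left _ _)) hj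
    have j2 : 1 / x < j := lt_of_le_of_lt ((le_max_right _ _).trans (le_max_left _ _)) hj
    have j3 : ‖G x‖ < j := lt_of_le_of_lt ((le_max_left _ _).trans (le_max_right _ _)) hj
    have j4 : 1 / ‖G x‖ < j := lt_of_le_of_lt ((le_max_right _ _).trans (le_max_right _ _)) hj
    have hj0 : (0 : ℝ) ≤ j := Nat.cast_nonneg j
    refine mem_iUnion.2 ⟨j, ⟨⟨?_, by linarith⟩, ⟨?_, by linarith⟩⟩⟩
    · rw [div_le_iff₀ (by positivity)]
      rw [div_lt_iff₀ hx] at j2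
      nlinarith
    · rw [div_le_iff₀ (by positivity)]
      rw [div_lt_iff₀ hGp] at j4
      nlinarith
  have hle1 : ∫⁻ x in Ioi (0 : ℝ), ‖G x‖ₑ ^ q ≤ ∫⁻ x in ⋃ j, s j, ‖G x‖ₑ ^ q := by
    rw [← lintegral_indicator measurableSet_Ioi,
      ← lintegral_indicator (MeasurableSet.iUnion hsm)]
    refine lintegral_mono fun x => ?_
    by_cases hx : 0 < x
    · by_cases hGx : G x = 0
      · rw [indicator_of_mem (mem_Ioi.2 hx), hGx]
        simp [hq0]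
      · rw [indicator_of_mem (hcov x hx hGx)]
        exact indicator_le_self _ _ _
    · rw [indicator_of_notMem (by simpa using hx)]
      exact zero_le
  refine hle1.trans ?_
  rw [setLIntegral_iUnion_of_directed _ (hmono.directed_le)]
  refine iSup_le fun j => ?_
  have hj1 : (0 : ℝ) < 1 / ((j : ℝ) + 1) := by positivity
  have h3 := step2P hXb hq2 hψ ha h1 h2 (hsm j) (c := 1 / ((j : ℝ) + 1)) (d := (j : ℝ) + 1)
    (δ := 1 / ((j : ℝ) + 1)) (Λ := (j : ℝ) + 1) hj1 (fun x hx => ⟨hx.1.1, hx.1.2⟩) hj1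
    (fun x hx => hx.2.1) (fun x hx => hx.2.2)
  have hfin : volume (s j) < ⊤ := by
    have hsub : s j ⊆ Icc (1 / ((j : ℝ) + 1)) ((j : ℝ) + 1) := fun x hx => ⟨hx.1.1, hx.1.2⟩
    refine lt_of_le_of_lt (measure_mono hsub) ?_
    rw [Real.volume_Icc]
    exact ENNReal.ofReal_lt_top
  have hint : IntegrableOn (fun x => ‖G x‖ ^ q) (s j) := by
    refine IntegrableOn.of_bound hfin
      ((hGm.norm.pow_const q).aestronglyMeasurable) (((j : ℝ) + 1) ^ q) ?_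
    refine (ae_restrict_iff' (hsm j)).2 (Eventually.of_forall fun x hx => ?_)
    rw [Real.norm_eq_abs, abs_of_nonneg (by positivity)]
    exact Real.rpow_le_rpow (norm_nonneg _) hx.2.2 (by linarith)
  have e1 : ∫⁻ x in s j, ‖G x‖ₑ ^ q = ENNReal.ofReal (∫ x in s j, ‖G x‖ ^ q) := by
    rw [ofReal_integral_eq_lintegral_ofReal hint (Eventually.of_forall fun x => by positivity)]
    refine lintegral_congr fun x => ?_
    rw [← ofReal_norm, ENNReal.ofReal_rpow_of_nonneg (norm_nonneg _) hq0.le]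
  have e2 : ENNReal.ofReal (∫ y in Icc a b, ‖ψ y‖ ^ q) ≤ ∫⁻ x in Ioi (0 : ℝ), ‖ψ x‖ₑ ^ q := by
    rw [ofReal_integral_eq_lintegral_ofReal hcont.integrableOn_Icc
      (Eventually.of_forall fun x => by positivity)]
    calc ∫⁻ y in Icc a b, ENNReal.ofReal (‖ψ y‖ ^ q) = ∫⁻ y in Icc a b, ‖ψ y‖ₑ ^ q := by
          refine lintegral_congr fun x => ?_
          rw [← ofReal_norm, ENNReal.ofReal_rpow_of_nonneg (norm_nonneg _) hq0.le]
      _ ≤ _ := lintegral_mono_set fun x hx => lt_of_lt_of_le ha hx.1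
  rw [e1]
  refine (ENNReal.ofReal_le_ofReal h3).trans ?_
  rw [ENNReal.ofReal_mul (by positivity)]
  gcongr

/-- the `L^q` bound on the plane -/
theorem plane_LqP {n m : ℕ} {X : ℝ} (hXb : RowB n m X) {q : ℝ} (hq2 : 2 ≤ q)
    {ψ : ℝ → ℂ} (hψ : ContDiff ℝ (⊤ : ℕ∞) ψ) {a b : ℝ} (ha : 0 < a)
    (h1 : ∀ x, x ≤ a → ψ x = 0) (h2 : ∀ x, b ≤ x → ψ x = 0) :
    ∃ f : 𝓢(ℂ, ℂ), (∀ z, f z = (z / (‖z‖ : ℂ)) ^ (2 * n + m) * ψ (Complex.normSq z)) ∧
      ∫⁻ z : ℂ, ‖Tn n f z‖ₑ ^ q ≤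
        ENNReal.ofReal (X ^ (q - 2)) * ∫⁻ z : ℂ, ‖f z‖ₑ ^ q := by
  obtain ⟨f, hf1, hf2⟩ := plane n m hψ ha h1 h2
  refine ⟨f, hf1, ?_⟩
  have hm : Measurable ψ := hψ.continuous.measurable
  have hne : ∀ᵐ z : ℂ, z ≠ 0 := by
    rw [ae_iff]
    simp
  have e2 : ∫⁻ z : ℂ, ‖Tn n f z‖ₑ ^ q = ∫⁻ z : ℂ, (fun x : ℝ => ‖S n m ψ x‖ₑ ^ q) (Complex.normSq z) := by
    refine lintegral_congr_ae ?_
    filter_upwards [hne] with z hz
    have h := hf2 z hz
    have h' : ‖Tn n f z‖ₑ = ‖S n m ψ (Complex.normSq z)‖ₑ := by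
      rw [← ofReal_norm, ← ofReal_norm, h]
    rw [h']
  have e3 : ∫⁻ z : ℂ, ‖f z‖ₑ ^ q = ∫⁻ z : ℂ, (fun x : ℝ => ‖ψ x‖ₑ ^ q) (Complex.normSq z) := by
    refine lintegral_congr_ae ?_
    filter_upwards [hne] with z hz
    have h' : ‖f z‖ₑ = ‖ψ (Complex.normSq z)‖ₑ := by
      have hn : ‖z‖ ≠ 0 := norm_ne_zero_iff.2 hz
      rw [← ofReal_norm, ← ofReal_norm, hf1 z, norm_mul, norm_pow, norm_div, Complex.norm_real,
        norm_norm, div_self hn, one_pow, one_mul]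
    rw [h']
  rw [e2, e3, polar _ ((S_meas n m hm).enorm.pow_const q), polar _ (hm.enorm.pow_const q)]
  calc ENNReal.ofReal Real.pi * ∫⁻ x in Ioi (0 : ℝ), ‖S n m ψ x‖ₑ ^ q
      ≤ ENNReal.ofReal Real.pi * (ENNReal.ofReal (X ^ (q - 2)) *
        ∫⁻ x in Ioi (0 : ℝ), ‖ψ x‖ₑ ^ q) := by
        gcongr
        exact S_LqP hXb hq2 hψ ha h1 h2
    _ = _ := by ring

/-- the modes `2 n + m` -/
theorem high_mode {n m : ℕ} (hn : 1 ≤ n) {X : ℝ} (hXb : RowB n m X) {p : ℝ} (hp : 2 ≤ p)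
    (f : 𝓢(ℂ, ℂ)) (hf : ∀ a z : ℂ, ‖a‖ = 1 → f (a * z) = a ^ (2 * n + m) * f z) :
    eLpNorm (Tn n f) (ENNReal.ofReal p) (volume : Measure ℂ) ≤
      ENNReal.ofReal (X ^ (1 - 2 / p)) *
        eLpNorm f (ENNReal.ofReal p) (volume : Measure ℂ) := by
  have hp0 : 0 < p := by linarith
  have hX0 : 0 < X := lt_of_lt_of_le one_pos hXb.1
  have hk : ∀ k : ℕ, (0 : ℝ) < 1 / ((k : ℝ) + 2) ∧ 1 / ((k : ℝ) + 2) < 1 := by
    intro k
    have : (0 : ℝ) ≤ k := Nat.cast_nonneg k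
    refine ⟨by positivity, ?_⟩
    rw [div_lt_one (by linarith)]
    linarith
  have hfn : ∀ z : ℂ, z ≠ 0 → f z = (z / (‖z‖ : ℂ)) ^ (2 * n + m) * f ((‖z‖ : ℝ) : ℂ) := by
    intro z hz
    have hn' : (‖z‖ : ℂ) ≠ 0 := Complex.ofReal_ne_zero.2 (norm_ne_zero_iff.2 hz)
    have hu : ‖z / (‖z‖ : ℂ)‖ = 1 := by
      rw [norm_div, Complex.norm_real, norm_norm]
      exact div_self (norm_ne_zero_iff.2 hz)
    have h1 := hf _ ((‖z‖ : ℝ) : ℂ) hu
    rw [div_mul_cancel₀ _ hn'] at h1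
    exact h1
  have hex : ∀ k : ℕ, ∃ h : 𝓢(ℂ, ℂ), (∀ z, ‖h z‖ ≤ ‖f z‖) ∧ (∀ z, ‖(f - h : 𝓢(ℂ, ℂ)) z‖ ≤ ‖f z‖) ∧
      (∀ z : ℂ, 1 / ((k : ℝ) + 2) ≤ Complex.normSq z → Complex.normSq z ≤ (k : ℝ) + 2 →
        (f - h : 𝓢(ℂ, ℂ)) z = 0) ∧
      eLpNorm (Tn n h) (ENNReal.ofReal p) (volume : Measure ℂ) ≤
        ENNReal.ofReal (X ^ (1 - 2 / p)) * eLpNorm h (ENNReal.ofReal p) (volume : Measure ℂ) := by
    intro k
    obtain ⟨χ, R, hχ1, hχ2, hχ3, hχ4, hχ5, hχ6⟩ :=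
      Pool.Agent.Y282.RB.K.exists_cut (1 / ((k : ℝ) + 2)) (hk k).1 (hk k).2
    set g : ℝ → ℂ := fun x => (χ x : ℂ) * f ((√x : ℝ) : ℂ) with hg
    have hgs : ContDiff ℝ (⊤ : ℕ∞) g := by
      rw [contDiff_iff_contDiffAt]
      intro x
      rcases lt_or_ge x (1 / ((k : ℝ) + 2) / 2) with hx | hx
      · refine (contDiffAt_const (c := (0 : ℂ))).congr_of_eventuallyEq ?_
        filter_upwards [Iio_mem_nhds hx] with y hy
        rw [hg]
        simp only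
        rw [hχ5 y (le_of_lt hy)]
        simp
      · have hx0 : 0 < x := lt_of_lt_of_le (by have := (hk k).1; positivity) hx
        have e1 : ContDiffAt ℝ (⊤ : ℕ∞) (fun x : ℝ => ((√x : ℝ) : ℂ)) x :=
          Complex.ofRealCLM.contDiff.contDiffAt.comp x (Real.contDiffAt_sqrt hx0.ne')
        have e2 : ContDiffAt ℝ (⊤ : ℕ∞) (fun x : ℝ => f ((√x : ℝ) : ℂ)) x :=
          (f.smooth _).contDiffAt.comp x e1
        exact (Complex.ofRealCLM.contDiff.contDiffAt.comp x hχ1.contDiffAt).mul e2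
    obtain ⟨h, hh1, hh2⟩ := plane_LqP hXb hp hgs (a := 1 / ((k : ℝ) + 2) / 2) (b := R)
      (by have := (hk k).1; positivity) (fun x hx => by rw [hg]; simp only; rw [hχ5 x hx]; simp)
      (fun x hx => by rw [hg]; simp only; rw [hχ6 x hx]; simp)
    have hhz : ∀ z, h z = (χ (Complex.normSq z) : ℂ) * f z := by
      intro z
      rcases eq_or_ne z 0 with rfl | hz
      · rw [hh1, hg]
        simp only [map_zero]
        rw [hχ5 0 (by have := (hk k).1; positivity)]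
        simp
      · rw [hh1, hfn z hz, hg]
        simp only
        rw [Complex.normSq_eq_norm_sq, Real.sqrt_sq (norm_nonneg _)]
        ring
    have hc0 := fun z : ℂ => (hχ3 (Complex.normSq z)).1
    have hc1 := fun z : ℂ => (hχ3 (Complex.normSq z)).2
    refine ⟨h, fun z => ?_, fun z => ?_, fun z hz1 hz2 => ?_, ?_⟩
    · rw [hhz, norm_mul, Complex.norm_real, Real.norm_of_nonneg (hc0 z)]
      calc χ (Complex.normSq z) * ‖f z‖ ≤ 1 * ‖f z‖ := by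
            gcongr
            exact hc1 z
        _ = _ := one_mul _
    · have e3 : (f - h : 𝓢(ℂ, ℂ)) z = ((1 - χ (Complex.normSq z) : ℝ) : ℂ) * f z := by
        rw [SchwartzMap.sub_apply, hhz]
        push_cast
        ring
      rw [e3, norm_mul, Complex.norm_real, Real.norm_of_nonneg (by linarith [hc1 z])]
      calc (1 - χ (Complex.normSq z)) * ‖f z‖ ≤ 1 * ‖f z‖ := by
            gcongr
            linarith [hc0 z]
        _ = _ := one_mul _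
    · rw [SchwartzMap.sub_apply, hhz, hχ4 _ hz1 (by rw [one_div_one_div]; exact hz2)]
      simp
    · rw [eLp hp0, eLp hp0]
      have h8 := ENNReal.rpow_le_rpow hh2 (by positivity : 0 ≤ 1 / p)
      refine h8.trans (le_of_eq ?_)
      rw [ENNReal.mul_rpow_of_nonneg _ _ (by positivity), ENNReal.ofReal_rpow_of_nonneg
        (by positivity) (by positivity), ← Real.rpow_mul hX0.le]
      congr 3
      field_simp
  choose h hle1 hle2 hz hb using hex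
  set K : ℝ≥0∞ := ENNReal.ofReal (Pool.Agent.TH55.PowA.Cn n * (p - 1)) with hK
  have hKt : K ≠ ⊤ := ENNReal.ofReal_ne_top
  have hP1 : (1 : ℝ≥0∞) ≤ ENNReal.ofReal p := by
    rw [← ENNReal.ofReal_one]
    exact ENNReal.ofReal_le_ofReal (by linarith)
  set C : ℝ := X ^ (1 - 2 / p) with hC
  have hbound : ∀ k, eLpNorm (Tn n f) (ENNReal.ofReal p) (volume : Measure ℂ) ≤
      K * eLpNorm (f - h k : 𝓢(ℂ, ℂ)) (ENNReal.ofReal p) (volume : Measure ℂ) +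
        ENNReal.ofReal C * eLpNorm (⇑f) (ENNReal.ofReal p) (volume : Measure ℂ) := by
    intro k
    have e1 : Tn n f = fun z => Tn n (f - h k : 𝓢(ℂ, ℂ)) z + Tn n (h k) z := by
      rw [← Pool.Agent.Y282.RB.K.Tn_add]
      congr 2
      rw [sub_add_cancel]
    have m1 : AEStronglyMeasurable (Tn n (f - h k : 𝓢(ℂ, ℂ))) (volume : Measure ℂ) :=
      (Tn_smooth n _).continuous.aestronglyMeasurable
    have m2 : AEStronglyMeasurable (Tn n (h k)) (volume : Measure ℂ) :=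
      (Tn_smooth n _).continuous.aestronglyMeasurable
    rw [e1]
    refine (eLpNorm_add_le m1 m2 hP1).trans (add_le_add ?_ ?_)
    · exact Pool.Agent.TH55.PowA.main p hp n hn (f - h k)
    · refine (hb k).trans ?_
      gcongr
      exact eLpNorm_mono (hle1 k)
  have hlim : Tendsto (fun k => K * eLpNorm (f - h k : 𝓢(ℂ, ℂ)) (ENNReal.ofReal p)
      (volume : Measure ℂ) + ENNReal.ofReal C * eLpNorm (⇑f) (ENNReal.ofReal p)
        (volume : Measure ℂ)) atTop (𝓝 (K * 0 + ENNReal.ofReal C * eLpNorm (⇑f) (ENNReal.ofReal p)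
          (volume : Measure ℂ))) := by
    refine Tendsto.add ?_ tendsto_const_nhds
    refine ENNReal.Tendsto.const_mul ?_ (Or.inr hKt)
    exact Pool.Agent.Y282.RB.K.tendsto_trunc f (fun k => f - h k) p hp (fun k z => hle2 k z)
      fun k z hz1 hz2 => hz k z hz1 hz2
  rw [mul_zero, zero_add] at hlim
  exact ge_of_tendsto' hlim hbound

end Pool.Agent.Q75.BN
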