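import Pool.Agent.Q75.BN.E1
import Pool.Agent.Q75.BN.E4

/-!
# All angular modes except `2 n`, from the kernel bound
-/

set_option autoImplicit false

open MeasureTheory Set ComplexConjugate
open scoped ENNReal SchwartzMap

namespace Pool.Agent.Q75.BN

open Pool.Agent.Q75.BM
open Pool.Agent.Y282.RB (Tn Cn)

lemma En_mono {a b : ℕ} (h : a ≤ b) : En a ≤ En b := by
  unfold En
  refine Real.exp_le_exp.2 ?_
  refine Finset.sum_le_sum_of_subset_of_nonneg (Finset.range_mono h) fun j _ _ => by positivity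

lemma En_one_le (n : ℕ) : 1 ≤ En n := by
  unfold En
  rw [Real.one_le_exp_iff]
  exact Finset.sum_nonneg fun j _ => by positivity

/-- the modes `k ≤ n` -/
theorem low (n : ℕ) (hn : 1 ≤ n) {p : ℝ} (hp : 2 ≤ p) (k : ℤ) (hk : k ≤ n)
    (hU : ∀ m : ℕ, 39 * n < m → UB n m (En n)) (f : 𝓢(ℂ, ℂ))
    (hf : ∀ a z : ℂ, ‖a‖ = 1 → f (a * z) = a ^ k * f z) :
    eLpNorm (Tn n f) (ENNReal.ofReal p) (volume : Measure ℂ) ≤
      ENNReal.ofReal (Cn p n) * eLpNorm f (ENNReal.ofReal p) (volume : Measure ℂ) := by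
  rcases le_or_gt (-(39 * (n : ℤ))) k with h0 | h0
  · refine (mode_le n hn hp k hk f hf).trans ?_
    gcongr
    refine const_le n hn hp ?_
    have h4 : -(39 * (n : ℝ)) ≤ (k : ℝ) := by exact_mod_cast h0
    have h5 : (0 : ℝ) ≤ n := Nat.cast_nonneg n
    nlinarith
  · obtain ⟨m, hm⟩ : ∃ m : ℕ, k = -(m : ℤ) := ⟨(-k).toNat, by
      rw [Int.toNat_of_nonneg (by omega)]
      ring⟩
    subst hm
    have hm1 : 39 * n < m := by omega
    refine (BN.neg_mode (colB (hU m hm1)) hp f (fun a z ha => by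
      rw [hf a z ha, zpow_neg, zpow_natCast, ← inv_pow]
      congr 2
      have h2 : a * conj a = 1 := by
        rw [Complex.mul_conj, Complex.normSq_eq_norm_sq, ha]
        simp
      exact (eq_inv_of_mul_eq_one_right h2).symm)).trans ?_
    gcongr
    exact En_le_Cn n hp

/-- the modes `2 n + m` -/
theorem high (n m : ℕ) (hn : 1 ≤ n) {p : ℝ} (hp : 2 ≤ p) (hU : UB n m (En n)) (f : 𝓢(ℂ, ℂ))
    (hf : ∀ a z : ℂ, ‖a‖ = 1 → f (a * z) = a ^ (2 * n + m) * f z) :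
    eLpNorm (Tn n f) (ENNReal.ofReal p) (volume : Measure ℂ) ≤
      ENNReal.ofReal (Cn p n) * eLpNorm f (ENNReal.ofReal p) (volume : Measure ℂ) := by
  refine (high_mode hn (rowB hU) hp f hf).trans ?_
  gcongr
  exact En_le_Cn n hp

/-- the modes `n + d`, `1 ≤ d < n` -/
theorem mid (n d : ℕ) (hd : 1 ≤ d) (hdn : d < n) {p : ℝ} (hp : 2 ≤ p) (hU : UB d (n - d) (En n))
    (f : 𝓢(ℂ, ℂ)) (hf : ∀ a z : ℂ, ‖a‖ = 1 → f (a * z) = a ^ (n + d) * f z) :
    eLpNorm (Tn n f) (ENNReal.ofReal p) (volume : Measure ℂ) ≤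
      ENNReal.ofReal (Cn p n) * eLpNorm f (ENNReal.ofReal p) (volume : Measure ℂ) := by
  have hp0 : 0 < p := by linarith
  have e1 : Tn n f = fun z => Tn d f (conj z) := funext fun z => Tn_mode_ge f hf z
  rw [e1, eLp_conj hp0 (Tn d f)]
  refine (high_mode hd (rowB hU) hp f (fun a z ha => by
    rw [hf a z ha]
    congr 2
    omega)).trans ?_
  gcongr
  exact En_le_Cn n hp

lemma UB_mono {n m : ℕ} {X Y : ℝ} (h : UB n m X) (hXY : X ≤ Y) : UB n m Y :=
  ⟨h.1.trans hXY, h.2.trans (ENNReal.ofReal_le_ofReal (by linarith))⟩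

/-- all angular modes except `2 n` -/
theorem all (hU : ∀ n m : ℕ, 1 ≤ n → 1 ≤ m → UB n m (En n)) (n : ℕ) (hn : 1 ≤ n) {p : ℝ}
    (hp : 2 ≤ p) (k : ℤ) (hk : k ≠ 2 * n) (f : 𝓢(ℂ, ℂ))
    (hf : ∀ a z : ℂ, ‖a‖ = 1 → f (a * z) = a ^ k * f z) :
    eLpNorm (Tn n f) (ENNReal.ofReal p) (volume : Measure ℂ) ≤
      ENNReal.ofReal (Cn p n) * eLpNorm f (ENNReal.ofReal p) (volume : Measure ℂ) := by
  rcases le_or_gt k (n : ℤ) with h1 | h1
  · exact low n hn hp k h1 (fun m hm => hU n m hn (by omega)) f hf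
  · rcases lt_or_gt_of_ne hk with h2 | h2
    · obtain ⟨d, hd⟩ : ∃ d : ℕ, k = ((n + d : ℕ) : ℤ) := ⟨(k - n).toNat, by
        push_cast
        rw [Int.toNat_of_nonneg (by omega)]
        ring⟩
      subst hd
      have hd1 : 1 ≤ d := by omega
      have hd2 : d < n := by omega
      refine mid n d hd1 hd2 hp (UB_mono (hU d (n - d) hd1 (by omega)) (En_mono hd2.le)) f
        fun a z ha => ?_
      rw [hf a z ha, zpow_natCast]
    · obtain ⟨m, hm⟩ : ∃ m : ℕ, k = ((2 * n + m : ℕ) : ℤ) := ⟨(k - 2 * n).toNat, by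
        push_cast
        rw [Int.toNat_of_nonneg (by omega)]
        ring⟩
      subst hm
      have hm1 : 1 ≤ m := by omega
      refine high n m hn hp (hU n m hn hm1) f fun a z ha => ?_
      rw [hf a z ha, zpow_natCast]

end Pool.Agent.Q75.BN
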