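import Pool.Agent.Q75.BN.N5

/-!
# The cases `n ≤ 2` and `m ≥ 16 n`
-/

set_option autoImplicit false

open MeasureTheory Set Polynomial

namespace Pool.Agent.Q75.BN

open Pool.Agent.Q75.BM (En En_ge pp cf)

lemma int_pow' (a : ℝ) (j : ℕ) : ∫ x in (0 : ℝ)..1, a * x ^ j = a / (j + 1) := by
  rw [intervalIntegral.integral_const_mul, integral_pow]
  simp
  ring

lemma UB_one (m : ℕ) (hm : 1 ≤ m) : UB 1 m (En 1) := by
  obtain ⟨k, rfl⟩ : ∃ k, m = k + 1 := ⟨m - 1, by omega⟩
  have h0 := En_ge 1 le_rfl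
  have hk : (0 : ℝ) ≤ k := Nat.cast_nonneg k
  have hy : ∀ u, yv 1 (k + 1) u = (k : ℝ) + 2 := by
    intro u
    unfold yv pp cf
    simp
    ring
  have key : ∫ x in (0 : ℝ)..1, ff 1 k x ≤ 4 := by
    have e : ∀ x : ℝ, ff 1 k x = (4 * ((k : ℝ) + 2)) * x ^ (2 * k + 1) := by
      intro x
      unfold ff
      rw [hy, abs_of_pos (by positivity)]
      ring
    simp only [e]
    rw [int_pow', div_le_iff₀ (by positivity)]
    push_cast
    nlinarith
  norm_num at h0
  exact UB_of 1 k (by linarith) (by linarith)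

lemma UB_two (m : ℕ) (hm : 1 ≤ m) : UB 2 m (En 2) := by
  obtain ⟨k, rfl⟩ : ∃ k, m = k + 1 := ⟨m - 1, by omega⟩
  have h0 := En_ge 2 (by norm_num)
  have hk : (0 : ℝ) ≤ k := Nat.cast_nonneg k
  have hy : ∀ u, yv 2 (k + 1) u = 2 * ((k : ℝ) + 3) * u + ((k : ℝ) + 3) * (k + 2) * (u - 1) := by
    intro u
    unfold yv pp cf
    rw [Finset.sum_range_succ, Finset.sum_range_one]
    have e1 : (2 + (k + 1)).descFactorial 2 = (k + 3) * (k + 2) := by
      rw [show 2 + (k + 1) = k + 3 by ring, Nat.descFactorial_succ, Nat.descFactorial_one]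
      rw [mul_comm]
      congr 1
    norm_num [e1]
    ring
  have key : ∫ x in (0 : ℝ)..1, ff 2 k x ≤ 12 := by
    have e : ∀ x ∈ Icc (0 : ℝ) 1, ff 2 k x ≤ 8 * ((k : ℝ) + 3) * x ^ (2 * k + 5) +
        (4 * (((k : ℝ) + 3) * (k + 2)) * x ^ (2 * k + 1) -
          4 * (((k : ℝ) + 3) * (k + 2)) * x ^ (2 * k + 5)) := by
      intro x hx
      unfold ff
      have h4 : x ^ 4 ≤ 1 := pow_le_one₀ hx.1 hx.2
      have h5 : 0 ≤ x ^ 4 := by
        have := hx.1
        positivity
      have h1 : |yv 2 (k + 1) (x ^ 4)| ≤ 2 * ((k : ℝ) + 3) * x ^ 4 +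
          ((k : ℝ) + 3) * (k + 2) * (1 - x ^ 4) := by
        rw [hy, abs_le]
        have h6 : 0 ≤ 2 * ((k : ℝ) + 3) * x ^ 4 := by positivity
        have h7 : 0 ≤ ((k : ℝ) + 3) * (k + 2) * (1 - x ^ 4) := by
          have : 0 ≤ 1 - x ^ 4 := by linarith
          positivity
        constructor <;> nlinarith
      have h2 : 0 ≤ 4 * x ^ (2 * k + 1) := by
        have := hx.1
        positivity
      refine (mul_le_mul_of_nonneg_left h1 h2).trans (le_of_eq ?_)
      have e3 : x ^ (2 * k + 5) = x ^ (2 * k + 1) * x ^ 4 := by rw [← pow_add]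
      rw [e3]
      ring
    refine (intervalIntegral.integral_mono_on zero_le_one ((ff_cont 2 k).intervalIntegrable _ _)
      (Continuous.intervalIntegrable (by fun_prop) _ _) e).trans ?_
    rw [intervalIntegral.integral_add (Continuous.intervalIntegrable (by fun_prop) _ _)
      (Continuous.intervalIntegrable (by fun_prop) _ _),
      intervalIntegral.integral_sub (Continuous.intervalIntegrable (by fun_prop) _ _)
      (Continuous.intervalIntegrable (by fun_prop) _ _), int_pow', int_pow', int_pow']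
    push_cast
    have e4 : 8 * ((k : ℝ) + 3) / (2 * k + 5 + 1) + (4 * (((k : ℝ) + 3) * (k + 2)) / (2 * k + 1 + 1) -
        4 * (((k : ℝ) + 3) * (k + 2)) / (2 * k + 5 + 1)) = 8 + 4 / (k + 1) := by
      have a1 : (2 * (k : ℝ) + 5 + 1) = 2 * (k + 3) := by ring
      have a2 : (2 * (k : ℝ) + 1 + 1) = 2 * (k + 1) := by ring
      rw [a1, a2]
      field_simp
      ring
    rw [e4]
    have : 4 / ((k : ℝ) + 1) ≤ 4 := by
      rw [div_le_iff₀ (by positivity)]
      nlinarith
    linarith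
  norm_num at h0
  exact UB_of 2 k (by linarith) (by linarith)

/-- the crude bound of the kernel polynomial -/
lemma yv_le (n m : ℕ) {u : ℝ} (h0 : 0 ≤ u) (h1 : u ≤ 1) :
    |yv n m u| ≤ ((n : ℝ) + m) / 5 * 6 ^ n * Real.exp (((n : ℝ) + m) * (1 - u) / 5) := by
  set e : ℝ := (n : ℝ) + m with he
  have he0 : 0 ≤ e := by positivity
  set E : ℝ := Real.exp (e * (1 - u) / 5) with hE
  have hE0 : 0 < E := Real.exp_pos _
  have hterm : ∀ j, |(C (cf n (n + m) (j + 1)) * ((X : ℝ[X]) ^ (n - (j + 1)) * (X - C 1) ^ j)).eval u| ≤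
      e / 5 * E * (5 ^ (j + 1) * (n.choose (j + 1) : ℝ)) := by
    intro j
    simp only [eval_mul, eval_C, eval_pow, eval_X, eval_sub]
    rw [abs_mul, abs_mul, abs_pow, abs_pow, abs_of_nonneg h0]
    have a1 : |u - 1| = 1 - u := by rw [abs_of_nonpos (by linarith)]; ring
    rw [a1]
    have a2 : |cf n (n + m) (j + 1)| ≤ (n.choose (j + 1) : ℝ) * e ^ (j + 1) / (j.factorial : ℝ) := by
      unfold cf
      rw [Nat.add_sub_cancel, abs_of_nonneg (by positivity)]
      have a3 : (((n + m).descFactorial (j + 1) : ℕ) : ℝ) ≤ e ^ (j + 1) := by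
        have := Nat.descFactorial_le_pow (n + m) (j + 1)
        calc (((n + m).descFactorial (j + 1) : ℕ) : ℝ) ≤ (((n + m) ^ (j + 1) : ℕ) : ℝ) := by
              exact_mod_cast this
          _ = e ^ (j + 1) := by push_cast; rfl
      gcongr
    have a4 : u ^ (n - (j + 1)) ≤ 1 := pow_le_one₀ h0 h1
    have a5 : 0 ≤ 1 - u := by linarith
    have a6 : (e * (1 - u) / 5) ^ j / (j.factorial : ℝ) ≤ E :=
      Real.pow_div_factorial_le_exp _ (by positivity) j
    calc |cf n (n + m) (j + 1)| * (u ^ (n - (j + 1)) * (1 - u) ^ j)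
        ≤ (n.choose (j + 1) : ℝ) * e ^ (j + 1) / (j.factorial : ℝ) * (1 * (1 - u) ^ j) := by
          gcongr
      _ = (n.choose (j + 1) : ℝ) * (e * 5 ^ j) * ((e * (1 - u) / 5) ^ j / (j.factorial : ℝ)) := by
          rw [div_pow, mul_pow]
          field_simp
          ring
      _ ≤ (n.choose (j + 1) : ℝ) * (e * 5 ^ j) * E := by gcongr
      _ = _ := by ring
  have hsum : ∑ j ∈ Finset.range n, (5 : ℝ) ^ (j + 1) * (n.choose (j + 1) : ℝ) ≤ 6 ^ n := by
    have h6 : (6 : ℝ) ^ n = ∑ j ∈ Finset.range (n + 1), (5 : ℝ) ^ j * (n.choose j : ℝ) := by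
      have := add_pow (5 : ℝ) 1 n
      norm_num at this
      exact this
    rw [h6, Finset.sum_range_succ']
    have : (0 : ℝ) ≤ 5 ^ 0 * (n.choose 0 : ℝ) := by positivity
    linarith
  unfold yv pp
  rw [eval_finsetSum]
  calc |∑ j ∈ Finset.range n, eval u (C (cf n (n + m) (j + 1)) * ((X : ℝ[X]) ^ (n - (j + 1)) *
        (X - C 1) ^ j))| ≤ ∑ j ∈ Finset.range n, e / 5 * E * (5 ^ (j + 1) * (n.choose (j + 1) : ℝ)) :=
        (Finset.abs_sum_le_sum_abs _ _).trans (Finset.sum_le_sum fun j _ => hterm j)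
    _ = e / 5 * E * ∑ j ∈ Finset.range n, (5 : ℝ) ^ (j + 1) * (n.choose (j + 1) : ℝ) := by
        rw [Finset.mul_sum]
    _ ≤ e / 5 * E * 6 ^ n := by gcongr
    _ = _ := by ring

lemma UB_far (n m : ℕ) (hn : 1 ≤ n) (hm : 16 * n ≤ m) : UB n m (En n) := by
  obtain ⟨k, rfl⟩ : ∃ k, m = k + 1 := ⟨m - 1, by omega⟩
  have h0 := En_ge n hn
  have hn' : (1 : ℝ) ≤ n := by exact_mod_cast hn
  have hm' : 16 * (n : ℝ) ≤ k + 1 := by exact_mod_cast hm
  set M : ℝ := (k : ℝ) + 1 with hM
  set e : ℝ := (n : ℝ) + M with he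
  have he0 : 0 < e := by linarith
  set β : ℝ := (M - 2) / 2 - e / 5 with hβ
  have hβe : e / 5 ≤ β := by
    rw [hβ, he]
    linarith
  have hβ0 : 0 < β := lt_of_lt_of_le (by positivity) hβe
  set δ : ℝ := 10 * n / e with hδ
  have hδ0 : 0 < δ := by positivity
  have hδ1 : δ < 1 := by
    rw [hδ, div_lt_one he0]
    linarith
  have hβδ : 1.9 * n ≤ β * δ := by
    have e1 : β * δ = (10 * n * β) / e := by rw [hδ]; ring
    rw [e1, le_div_iff₀ he0, hβ, he]
    nlinarith
  set a : ℝ := (1 - δ) ^ ((1 : ℝ) / 4) with ha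
  have ha0 : 0 < a := Real.rpow_pos_of_pos (by linarith) _
  have ha1 : a < 1 := Real.rpow_lt_one (by linarith) (by linarith) (by norm_num)
  have ha4 : a ^ 4 = 1 - δ := by
    rw [ha, ← Real.rpow_natCast, ← Real.rpow_mul (by linarith)]
    norm_num
  have hright := right_est n k hn ha0 ha1
  have hr2 : √((n : ℝ) * (n + (k + 1)) * (1 / a ^ 4 - 1)) ≤ 4.93 * n := by
    rw [Real.sqrt_le_left (by positivity), ha4]
    have e1 : (n : ℝ) * (n + (k + 1)) * (1 / (1 - δ) - 1) = 10 * (n : ℝ) ^ 2 * (e / (e - 10 * n)) := by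
      have : e - 10 * n ≠ 0 := by linarith
      have h2 : 1 - δ = (e - 10 * n) / e := by
        rw [hδ]
        field_simp
      have h3 : 1 / ((e - 10 * n) / e) - 1 = 10 * n / (e - 10 * n) := by
        rw [one_div_div, div_sub_one this]
        congr 1
        ring
      rw [h2, h3, ← hM, ← he]
      ring
    rw [e1]
    have h3 : e / (e - 10 * n) ≤ 17 / 7 := by
      rw [div_le_div_iff₀ (by linarith) (by norm_num)]
      linarith
    calc 10 * (n : ℝ) ^ 2 * (e / (e - 10 * n)) ≤ 10 * (n : ℝ) ^ 2 * (17 / 7) := by gcongr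
      _ ≤ _ := by nlinarith
  -- the part near `0`
  have hleft : ∫ x in (0 : ℝ)..a, ff n k x ≤ 1 := by
    have hk1 : 1 ≤ k := by omega
    have hpt : ∀ x ∈ Icc (0 : ℝ) a, ff n k x ≤ e / 5 * 6 ^ n *
        (4 * x ^ 3 * Real.exp (-(β * (1 - x ^ 4)))) := by
      intro x hx
      have hx0 := hx.1
      have hx1 : x ≤ 1 := hx.2.trans ha1.le
      have h4 : x ^ 4 ≤ 1 := pow_le_one₀ hx0 hx1
      have h5 := yv_le n (k + 1) (u := x ^ 4) (by positivity) h4
      have hkk : ((n : ℝ) + ((k + 1 : ℕ) : ℝ)) = e := by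
        push_cast
        rw [he, hM]
      rw [hkk] at h5
      have h6 : x ^ (2 * k + 1) ≤ x ^ 3 * Real.exp (-((M - 2) / 2 * (1 - x ^ 4))) := by
        have e2 : 2 * k + 1 = 3 + 2 * (k - 1) := by omega
        rw [e2, pow_add]
        have h7 : x ^ (2 * (k - 1)) ≤ Real.exp (-((M - 2) / 2 * (1 - x ^ 4))) := by
          have h8 : x ^ 4 ≤ Real.exp (-(1 - x ^ 4)) := by
            have := Real.add_one_le_exp (-(1 - x ^ 4))
            linarith
          have h9 : x ^ 2 ≤ Real.exp (-(1 - x ^ 4) / 2) := by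
            refine le_of_sq_le_sq ?_ (Real.exp_pos _).le
            rw [← Real.exp_nat_mul]
            have e3 : ((2 : ℕ) : ℝ) * (-(1 - x ^ 4) / 2) = -(1 - x ^ 4) := by push_cast; ring
            rw [e3]
            calc (x ^ 2) ^ 2 = x ^ 4 := by ring
              _ ≤ _ := h8
          rw [pow_mul]
          calc (x ^ 2) ^ (k - 1) ≤ (Real.exp (-(1 - x ^ 4) / 2)) ^ (k - 1) := by gcongr
            _ = Real.exp (-((M - 2) / 2 * (1 - x ^ 4))) := by
              rw [← Real.exp_nat_mul, Nat.cast_sub hk1]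
              congr 1
              push_cast
              rw [hM]
              ring
        gcongr
      unfold ff
      calc 4 * x ^ (2 * k + 1) * |yv n (k + 1) (x ^ 4)|
          ≤ 4 * (x ^ 3 * Real.exp (-((M - 2) / 2 * (1 - x ^ 4)))) *
            (e / 5 * 6 ^ n * Real.exp (e * (1 - x ^ 4) / 5)) := by gcongr
        _ = e / 5 * 6 ^ n * (4 * x ^ 3 * (Real.exp (-((M - 2) / 2 * (1 - x ^ 4))) *
            Real.exp (e * (1 - x ^ 4) / 5))) := by ring
        _ = _ := by
          rw [← Real.exp_add]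
          congr 4
          rw [hβ]
          ring
    have hint : ∫ x in (0 : ℝ)..a, 4 * x ^ 3 * Real.exp (-(β * (1 - x ^ 4))) ≤ Real.exp (-(β * δ)) / β := by
      have h := intervalIntegral.integral_eq_sub_of_hasDerivAt (a := 0) (b := a)
        (f := fun x : ℝ => Real.exp (-(β * (1 - x ^ 4))) / β)
        (f' := fun x => 4 * x ^ 3 * Real.exp (-(β * (1 - x ^ 4)))) (fun x _ => by
          have h1 := (((e1_der x).const_mul β).neg.exp).div_const β
          refine h1.congr_deriv ?_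
          simp only [Pi.neg_apply]
          field_simp) (Continuous.intervalIntegrable (by fun_prop) _ _)
      rw [h, ha4]
      have e2 : 1 - (1 - δ) = δ := by ring
      rw [e2]
      have : 0 ≤ Real.exp (-(β * (1 - 0 ^ 4))) / β := by positivity
      linarith
    refine (intervalIntegral.integral_mono_on ha0.le ((ff_cont n k).intervalIntegrable _ _)
      (Continuous.intervalIntegrable (by fun_prop) _ _) hpt).trans ?_
    rw [intervalIntegral.integral_const_mul]
    have hexp : (6 : ℝ) ^ n * Real.exp (-(β * δ)) ≤ 1 := by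
      have h1 : (6 : ℝ) ≤ Real.exp 1.9 := by
        have h2 : Real.exp 1.9 = Real.exp 1 * Real.exp 1 * Real.exp (-0.1) := by
          rw [← Real.exp_add, ← Real.exp_add]
          norm_num
        have h3 := Real.add_one_le_exp (-0.1 : ℝ)
        have h4 : (2.7182818283 : ℝ) < Real.exp 1 := Real.exp_one_gt_d9
        rw [h2]
        have h5 : (2.7 : ℝ) * 2.7 * 0.9 ≤ Real.exp 1 * Real.exp 1 * Real.exp (-0.1) := by
          have h6 : (2.7 : ℝ) ≤ Real.exp 1 := by linarith
          have h7 : (0.9 : ℝ) ≤ Real.exp (-0.1) := by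
            refine le_trans ?_ h3
            norm_num
          gcongr
        refine le_trans ?_ h5
        norm_num
      calc (6 : ℝ) ^ n * Real.exp (-(β * δ)) ≤ (Real.exp 1.9) ^ n * Real.exp (-(1.9 * n)) := by
            gcongr
        _ = 1 := by
            rw [← Real.exp_nat_mul, ← Real.exp_add]
            rw [show (n : ℝ) * 1.9 + -(1.9 * n) = 0 by ring, Real.exp_zero]
    calc e / 5 * 6 ^ n * ∫ x in (0 : ℝ)..a, 4 * x ^ 3 * Real.exp (-(β * (1 - x ^ 4)))
        ≤ e / 5 * 6 ^ n * (Real.exp (-(β * δ)) / β) := by gcongr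
      _ = e / 5 / β * (6 ^ n * Real.exp (-(β * δ))) := by ring
      _ ≤ 1 * 1 := by
          have h1 : e / 5 / β ≤ 1 := (div_le_one hβ0).2 hβe
          gcongr
      _ = 1 := one_mul 1
  have hs : ∫ x in (0 : ℝ)..1, ff n k x = (∫ x in (0 : ℝ)..a, ff n k x) + ∫ x in a..1, ff n k x :=
    (intervalIntegral.integral_add_adjacent_intervals ((ff_cont n k).intervalIntegrable _ _)
      ((ff_cont n k).intervalIntegrable _ _)).symm
  have key : ∫ x in (0 : ℝ)..1, ff n k x ≤ 1 + 4.93 * n := by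
    rw [hs]
    exact add_le_add hleft (hright.trans hr2)
  exact UB_of n k (by linarith) (by linarith)

/-- the kernel bound in all cases -/
theorem UB_all (n m : ℕ) (hn : 1 ≤ n) (hm : 1 ≤ m) : UB n m (En n) := by
  rcases Nat.lt_or_ge (16 * n) m with h | h
  · exact UB_far n m hn h.le
  · rcases Nat.lt_or_ge n 3 with h3 | h3
    · interval_cases n
      · exact UB_one m hm
      · exact UB_two m hm
    · exact UB_mid n m h3 hm h

end Pool.Agent.Q75.BN
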