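import Pool.Agent.Q75.BN.F
import Pool.Agent.Q75.BN.N3
import Pool.Agent.Y282.RB.N

/-!
# All angular modes except `2 n`
-/

set_option autoImplicit false

open MeasureTheory Set ComplexConjugate
open scoped ENNReal SchwartzMap

namespace Pool.Agent.Q75.BN

open Pool.Agent.Q75.BM
open Pool.Agent.Y282.RB (Tn Cn)

lemma expo_nonneg {p : ℝ} (hp : 2 ≤ p) : 0 ≤ 1 - 2 / p := by
  have : 2 / p ≤ 1 := (div_le_one (by linarith)).2 hp
  linarith

/-- all angular modes except `2 n`, with the constant `En n ^ (1 - 2 / p)` -/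
theorem allE (n : ℕ) (hn : 1 ≤ n) {p : ℝ} (hp : 2 ≤ p) (k : ℤ) (hk : k ≠ 2 * n) (f : 𝓢(ℂ, ℂ))
    (hf : ∀ a z : ℂ, ‖a‖ = 1 → f (a * z) = a ^ k * f z) :
    eLpNorm (Tn n f) (ENNReal.ofReal p) (volume : Measure ℂ) ≤
      ENNReal.ofReal (En n ^ (1 - 2 / p)) * eLpNorm f (ENNReal.ofReal p) (volume : Measure ℂ) := by
  have hp0 : 0 < p := by linarith
  have hn' : (1 : ℝ) ≤ n := by exact_mod_cast hn
  rcases le_or_gt k (n : ℤ) with h1 | h1
  · rcases le_or_gt 0 k with h0 | h0
    · refine (mode_le n hn hp k h1 f hf).trans ?_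
      have h2 : √((n : ℝ) * ((n : ℝ) - k)) ≤ n := by
        rw [Real.sqrt_le_left (by positivity)]
        have : (0 : ℝ) ≤ k := by exact_mod_cast h0
        nlinarith
      have h3 := En_ge n hn
      have h4 := expo_nonneg hp
      gcongr
      linarith
    · obtain ⟨m, hm⟩ : ∃ m : ℕ, k = -(m : ℤ) := ⟨(-k).toNat, by
        rw [Int.toNat_of_nonneg (by omega)]
        ring⟩
      subst hm
      exact BN.neg_mode (colB (UB_all n m hn (by omega))) hp f (fun a z ha => by
        rw [hf a z ha, zpow_neg, zpow_natCast, ← inv_pow]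
        congr 2
        have h2 : a * conj a = 1 := by
          rw [Complex.mul_conj, Complex.normSq_eq_norm_sq, ha]
          simp
        exact (eq_inv_of_mul_eq_one_right h2).symm)
  · rcases lt_or_gt_of_ne hk with h2 | h2
    · obtain ⟨d, hd⟩ : ∃ d : ℕ, k = ((n + d : ℕ) : ℤ) := ⟨(k - n).toNat, by
        push_cast
        rw [Int.toNat_of_nonneg (by omega)]
        ring⟩
      subst hd
      have hd1 : 1 ≤ d := by omega
      have hd2 : d < n := by omega
      have hf' : ∀ a z : ℂ, ‖a‖ = 1 → f (a * z) = a ^ (n + d) * f z := fun a z ha => by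
        rw [hf a z ha, zpow_natCast]
      have e1 : Tn n f = fun z => Tn d f (conj z) := funext fun z => Tn_mode_ge f hf' z
      rw [e1, eLp_conj hp0 (Tn d f)]
      exact high_mode hd1 (rowB (UB_mono (UB_all d (n - d) hd1 (by omega)) (En_mono hd2.le))) hp f
        (fun a z ha => by
          rw [hf' a z ha]
          congr 2
          omega)
    · obtain ⟨m, hm⟩ : ∃ m : ℕ, k = ((2 * n + m : ℕ) : ℤ) := ⟨(k - 2 * n).toNat, by
        push_cast
        rw [Int.toNat_of_nonneg (by omega)]
        ring⟩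
      subst hm
      exact high_mode hn (rowB (UB_all n m hn (by omega))) hp f fun a z ha => by
        rw [hf a z ha, zpow_natCast]

end Pool.Agent.Q75.BN
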