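import Pool.Agent.Q75.BM.H

/-!
# Endpoint bounds with general constants
-/

set_option autoImplicit false

open MeasureTheory Set Topology
open scoped SchwartzMap ContDiff ENNReal

namespace Pool.Agent.Q75.BN

open Pool.Agent.Q75.BM
open Pool.Agent.Y282.RB (Tn)

/-- column bound -/
def ColB (n m : ℕ) (X : ℝ) : Prop :=
  1 ≤ X ∧ ∀ y : ℝ, 0 < y → ∫⁻ x in Ioi (0 : ℝ), ‖ker n m x y‖ₑ ≤ ENNReal.ofReal (X - 1)

/-- row bound -/
def RowB (n m : ℕ) (X : ℝ) : Prop :=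
  1 ≤ X ∧ ∀ x : ℝ, 0 < x → ∫⁻ y in Ioi (0 : ℝ), ‖ker n m x y‖ₑ ≤ ENNReal.ofReal (X - 1)

/-- the bound `∫_0^1 |κ| du / u ≤ X - 1` -/
def UB (n m : ℕ) (X : ℝ) : Prop :=
  1 ≤ X ∧ ∫⁻ u in Ioo (0 : ℝ) 1, ENNReal.ofReal (|kap n m u| / u) ≤ ENNReal.ofReal (X - 1)

lemma S_le (n m : ℕ) {ψ : ℝ → ℂ} (h0 : ∀ x, x ≤ 0 → ψ x = 0) (x : ℝ) :
    ‖S n m ψ x‖ₑ ≤ ‖ψ x‖ₑ + ∫⁻ y in Ioi (0 : ℝ), ‖ker n m x y‖ₑ * ‖ψ y‖ₑ := by
  rw [S_eq]
  refine (enorm_add_le _ _).trans (add_le_add le_rfl ?_)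
  refine (enorm_integral_le_lintegral_enorm _).trans ?_
  have h1 : ∫⁻ y, ‖((ker n m x y : ℝ) : ℂ) * ψ y‖ₑ =
      ∫⁻ y in Ioi (0 : ℝ), ‖ker n m x y‖ₑ * ‖ψ y‖ₑ := by
    rw [← lintegral_indicator measurableSet_Ioi]
    refine lintegral_congr fun y => ?_
    by_cases hy : 0 < y
    · rw [indicator_of_mem (mem_Ioi.2 hy), enorm_mul]
      congr 1
      rw [← ofReal_norm, ← ofReal_norm, Complex.norm_real]
    · rw [indicator_of_notMem (by simpa using hy), h0 y (not_lt.1 hy)]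
      simp
  exact h1.le

/-- the `L¹` bound -/
theorem S_L1 {n m : ℕ} {X : ℝ} (hX : ColB n m X) {ψ : ℝ → ℂ} (hψ : Measurable ψ)
    (h0 : ∀ x, x ≤ 0 → ψ x = 0) :
    ∫⁻ x in Ioi (0 : ℝ), ‖S n m ψ x‖ₑ ≤ ENNReal.ofReal X *
      ∫⁻ x in Ioi (0 : ℝ), ‖ψ x‖ₑ := by
  have hkm : Measurable (Function.uncurry fun x y : ℝ => ‖ker n m x y‖ₑ * ‖ψ y‖ₑ) :=
    (ker_meas n m).enorm.mul (hψ.comp measurable_snd).enorm
  calc ∫⁻ x in Ioi (0 : ℝ), ‖S n m ψ x‖ₑ
      ≤ ∫⁻ x in Ioi (0 : ℝ), (‖ψ x‖ₑ + ∫⁻ y in Ioi (0 : ℝ), ‖ker n m x y‖ₑ * ‖ψ y‖ₑ) :=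
        lintegral_mono fun x => S_le n m h0 x
    _ = (∫⁻ x in Ioi (0 : ℝ), ‖ψ x‖ₑ) +
        ∫⁻ x in Ioi (0 : ℝ), ∫⁻ y in Ioi (0 : ℝ), ‖ker n m x y‖ₑ * ‖ψ y‖ₑ :=
        lintegral_add_left hψ.enorm _
    _ = (∫⁻ x in Ioi (0 : ℝ), ‖ψ x‖ₑ) +
        ∫⁻ y in Ioi (0 : ℝ), ∫⁻ x in Ioi (0 : ℝ), ‖ker n m x y‖ₑ * ‖ψ y‖ₑ := by
        rw [lintegral_lintegral_swap hkm.aemeasurable]
    _ ≤ (∫⁻ x in Ioi (0 : ℝ), ‖ψ x‖ₑ) +
        ∫⁻ y in Ioi (0 : ℝ), ENNReal.ofReal (X - 1) * ‖ψ y‖ₑ := by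
        refine add_le_add le_rfl ?_
        refine setLIntegral_mono' measurableSet_Ioi fun y hy => ?_
        rw [lintegral_mul_const'']
        · exact mul_le_mul' (hX.2 y hy) le_rfl
        · have : Measurable fun x : ℝ => ‖ker n m x y‖ₑ :=
            ((ker_meas n m).comp (measurable_id.prodMk measurable_const)).enorm
          exact this.aemeasurable
    _ = _ := by
        have h1 : ENNReal.ofReal X = 1 + ENNReal.ofReal (X - 1) := by
          rw [← ENNReal.ofReal_one, ← ENNReal.ofReal_add zero_le_one (by linarith [hX.1])]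
          ring_nf
        rw [lintegral_const_mul _ hψ.enorm, h1, add_mul, one_mul]

/-- the `L^∞` bound -/
theorem S_Linf {n m : ℕ} {X : ℝ} (hX : RowB n m X) {ψ : ℝ → ℂ}
    (h0 : ∀ x, x ≤ 0 → ψ x = 0) (h1 : ∀ x, ‖ψ x‖ ≤ 1) {x : ℝ} (hx : 0 < x) :
    ‖S n m ψ x‖ₑ ≤ ENNReal.ofReal X := by
  have he : ∀ y, ‖ψ y‖ₑ ≤ 1 := fun y => by
    rw [← ofReal_norm, ← ENNReal.ofReal_one]
    exact ENNReal.ofReal_le_ofReal (h1 y)
  calc ‖S n m ψ x‖ₑ ≤ ‖ψ x‖ₑ + ∫⁻ y in Ioi (0 : ℝ), ‖ker n m x y‖ₑ * ‖ψ y‖ₑ := S_le n m h0 x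
    _ ≤ 1 + ∫⁻ y in Ioi (0 : ℝ), ‖ker n m x y‖ₑ := by
        refine add_le_add (he x) (lintegral_mono fun y => ?_)
        calc ‖ker n m x y‖ₑ * ‖ψ y‖ₑ ≤ ‖ker n m x y‖ₑ * 1 := by
              gcongr
              exact he y
          _ = _ := mul_one _
    _ ≤ 1 + ENNReal.ofReal (X - 1) := by
        gcongr
        exact hX.2 x hx
    _ = ENNReal.ofReal X := by
        rw [← ENNReal.ofReal_one, ← ENNReal.ofReal_add zero_le_one (by linarith [hX.1])]
        ring_nf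

/-- from the integral of `|κ| / u` to the column bound -/
theorem colB {n m : ℕ} {X : ℝ} (h : UB n m X) : ColB n m X := by
  refine ⟨h.1, fun y hy => ?_⟩
  refine le_trans ?_ h.2
  have h1 : ∫⁻ x in Ioi (0 : ℝ), ‖ker n m x y‖ₑ
      = ∫⁻ x in Ioo (0 : ℝ) y, ENNReal.ofReal (|kap n m (x / y)| / y) := by
    rw [← lintegral_indicator measurableSet_Ioi, ← lintegral_indicator measurableSet_Ioo]
    refine lintegral_congr fun x => ?_
    by_cases hx0 : 0 < x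
    · by_cases hxy : x < y
      · rw [indicator_of_mem (mem_Ioi.2 hx0), indicator_of_mem (mem_Ioo.2 ⟨hx0, hxy⟩)]
        unfold ker
        rw [if_pos hxy, ← ofReal_norm, Real.norm_eq_abs, abs_div, abs_of_pos hy]
      · rw [indicator_of_mem (mem_Ioi.2 hx0), indicator_of_notMem (by
          simp only [mem_Ioo, not_and]; exact fun _ => hxy)]
        unfold ker
        rw [if_neg hxy]
        simp
    · rw [indicator_of_notMem (by simpa using hx0), indicator_of_notMem (by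
          simp only [mem_Ioo, not_and]; exact fun h => absurd h hx0)]
  have himg : (fun u : ℝ => y * u) '' Ioo (0 : ℝ) 1 = Ioo (0 : ℝ) y := by
    ext x
    constructor
    · rintro ⟨u, hu, rfl⟩
      exact ⟨mul_pos hy hu.1, by nlinarith [hu.2]⟩
    · intro hx
      refine ⟨x / y, ⟨div_pos hx.1 hy, (div_lt_one hy).2 hx.2⟩, ?_⟩
      simp only
      field_simp
  have h2 := lintegral_image_eq_lintegral_abs_deriv_mul (f := fun u : ℝ => y * u)
    (f' := fun _ => y) (s := Ioo (0 : ℝ) 1) measurableSet_Ioo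
    (fun u _ => by simpa using ((hasDerivAt_id u).const_mul y).hasDerivWithinAt)
    (fun u _ v _ huv => mul_left_cancel₀ hy.ne' huv)
    (fun x => ENNReal.ofReal (|kap n m (x / y)| / y))
  rw [h1, ← himg, h2]
  refine setLIntegral_mono' measurableSet_Ioo fun u hu => ?_
  rw [abs_of_pos hy, ← ENNReal.ofReal_mul hy.le]
  refine ENNReal.ofReal_le_ofReal ?_
  have e1 : y * u / y = u := by field_simp
  rw [e1]
  have e2 : y * (|kap n m u| / y) = |kap n m u| := by field_simp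
  rw [e2, le_div_iff₀ hu.1]
  nlinarith [abs_nonneg (kap n m u), hu.2, hu.1]

/-- from the integral of `|κ| / u` to the row bound -/
theorem rowB {n m : ℕ} {X : ℝ} (h : UB n m X) : RowB n m X := by
  refine ⟨h.1, fun x hx => ?_⟩
  refine le_trans (le_of_eq ?_) h.2
  have h1 : ∫⁻ y in Ioi (0 : ℝ), ‖ker n m x y‖ₑ
      = ∫⁻ y in Ioi x, ENNReal.ofReal (|kap n m (x / y)| / y) := by
    rw [← lintegral_indicator measurableSet_Ioi, ← lintegral_indicator measurableSet_Ioi]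
    refine lintegral_congr fun y => ?_
    by_cases hxy : x < y
    · have hy : 0 < y := hx.trans hxy
      rw [indicator_of_mem (mem_Ioi.2 hy), indicator_of_mem (mem_Ioi.2 hxy)]
      unfold ker
      rw [if_pos hxy, ← ofReal_norm, Real.norm_eq_abs, abs_div, abs_of_pos hy]
    · rw [indicator_of_notMem (s := Ioi x) (by simpa using hxy)]
      by_cases hy : 0 < y
      · rw [indicator_of_mem (mem_Ioi.2 hy)]
        unfold ker
        rw [if_neg hxy]
        simp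
      · rw [indicator_of_notMem (by simpa using hy)]
  have himg : (fun u : ℝ => x / u) '' Ioo (0 : ℝ) 1 = Ioi x := by
    ext y
    constructor
    · rintro ⟨u, hu, rfl⟩
      refine mem_Ioi.2 ?_
      rw [lt_div_iff₀ hu.1]
      nlinarith [hu.2]
    · intro hy
      have hy' : x < y := hy
      have hy0 : 0 < y := hx.trans hy'
      refine ⟨x / y, ⟨div_pos hx hy0, (div_lt_one hy0).2 hy'⟩, ?_⟩
      simp only
      field_simp
  have h2 := lintegral_image_eq_lintegral_abs_deriv_mul (f := fun u : ℝ => x / u)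
    (f' := fun u => -(x / u ^ 2)) (s := Ioo (0 : ℝ) 1) measurableSet_Ioo
    (fun u hu => by
      have h3 := (hasDerivAt_inv hu.1.ne').const_mul x
      have h4 : (fun u : ℝ => x / u) = fun u => x * u⁻¹ := funext fun u => div_eq_mul_inv _ _
      rw [h4]
      have h5 : -(x / u ^ 2) = x * -(u ^ 2)⁻¹ := by
        rw [div_eq_mul_inv]
        ring
      rw [h5]
      exact h3.hasDerivWithinAt)
    (fun u hu v hv huv => by
      have hu0 := hu.1.ne'
      have hv0 := hv.1.ne'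
      simp only at huv
      field_simp at huv
      exact huv.symm)
    (fun y => ENNReal.ofReal (|kap n m (x / y)| / y))
  rw [h1, ← himg, h2]
  refine setLIntegral_congr_fun measurableSet_Ioo fun u hu => ?_
  have hu0 : 0 < u := hu.1
  rw [abs_neg, abs_of_pos (by positivity : 0 < x / u ^ 2), ← ENNReal.ofReal_mul (by positivity)]
  congr 1
  have e1 : x / (x / u) = u := by field_simp
  rw [e1]
  field_simp

end Pool.Agent.Q75.BN
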