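import Pool.Agent.Q75.BN.V3

/-!
# Moments of the kernel polynomial
-/

set_option autoImplicit false

open Polynomial MeasureTheory intervalIntegral Set

namespace Pool.Agent.Q75.BN

open Pool.Agent.Q75.BM (pp orth deriv_Wp pp_one pp_degree int_sq)

lemma int_deriv (p : ℝ[X]) : ∫ u in (0 : ℝ)..1, (derivative p).eval u = p.eval 1 - p.eval 0 :=
  integral_eq_sub_of_hasDerivAt (fun x _ => p.hasDerivAt x)
    ((derivative p).continuous.intervalIntegrable _ _)

lemma orth' {n m : ℕ} (hn : 1 ≤ n) (q : ℝ[X]) (hq : q.degree < (n : WithBot ℕ)) :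
    ∫ u in (0 : ℝ)..1, u ^ m * (yv n m u * q.eval u) = q.eval 1 := by
  have h1 := orth (n := n) (e := n + m) hn (by omega) q hq
  rw [deriv_Wp n (n + m) hn (by omega)] at h1
  have h2 : ∀ u : ℝ, q.eval u * (C (((n - 1).factorial : ℝ)) *
      (X ^ (n + m - n) * pp n (n + m))).eval u
      = ((n - 1).factorial : ℝ) * (u ^ m * (yv n m u * q.eval u)) := by
    intro u
    rw [Nat.add_sub_cancel_left]
    simp only [eval_mul, eval_C, eval_pow, eval_X, yv]
    ring
  simp only [h2] at h1
  rw [intervalIntegral.integral_const_mul] at h1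
  have h3 : (((n - 1).factorial : ℝ)) ≠ 0 := by positivity
  rw [mul_comm (q.eval 1)] at h1
  exact mul_left_cancel₀ h3 h1

lemma int_S (n m : ℕ) (hn : 1 ≤ n) :
    ∫ u in (0 : ℝ)..1, u ^ m * (yv n m u) ^ 2 = (n : ℝ) * (n + m) := int_sq n m hn

/-- `∫ u ^ m (1 - u) y ^ 2 = n (n + m) / (2 n + m)` -/
theorem int_J (n m : ℕ) (hn : 1 ≤ n) :
    (2 * (n : ℝ) + m) * ∫ u in (0 : ℝ)..1, u ^ m * (1 - u) * (yv n m u) ^ 2 = (n : ℝ) * (n + m) := by
  set y : ℝ[X] := pp n (n + m) with hy
  have hdeg : (((1 : ℝ[X]) - X) * (C ((n : ℝ) - 1) * y - X * derivative y)).degree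
      < (n : WithBot ℕ) := by
    have hc : ∀ j, n ≤ j + 1 → (C ((n : ℝ) - 1) * y - X * derivative y).coeff j = 0 := by
      intro j hj
      have hyc : ∀ i, n ≤ i → y.coeff i = 0 := by
        intro i hi
        exact (degree_lt_iff_coeff_zero _ _).1 (pp_degree n (n + m)) i hi
      rw [coeff_sub, coeff_C_mul]
      rcases j with _ | j
      · have hn1 : n = 1 := by omega
        subst hn1
        simp
      · rw [coeff_X_mul, coeff_derivative]
        rcases Nat.lt_or_ge (j + 1) n with h | h
        · have : n = j + 2 := by omega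
          rw [this]
          push_cast
          ring
        · rw [hyc _ h]
          ring
    rw [degree_lt_iff_coeff_zero]
    intro j hj
    rw [sub_mul, one_mul, coeff_sub, hc j (by omega)]
    rcases j with _ | j
    · simp
    · rw [coeff_X_mul, hc j hj, sub_zero]
  have h1 := orth' (m := m) hn _ hdeg
  have h2 := int_deriv (X ^ (m + 1) * ((1 - X) * y ^ 2))
  have h3 := int_S n m hn
  set yd' : ℝ → ℝ := fun u => (derivative y).eval u with hyd
  have hyc : Continuous (yv n m) := yv_cont n m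
  have hydc : Continuous yd' := (derivative y).continuous
  set J : ℝ := ∫ u in (0 : ℝ)..1, u ^ m * (1 - u) * (yv n m u) ^ 2 with hJ
  set K : ℝ := ∫ u in (0 : ℝ)..1, u ^ (m + 1) * (1 - u) * (yv n m u * yd' u) with hK
  set L : ℝ := ∫ u in (0 : ℝ)..1, u ^ (m + 1) * (yv n m u) ^ 2 with hL
  have e1 : ((n : ℝ) - 1) * J - K = 0 := by
    rw [hJ, hK, ← intervalIntegral.integral_const_mul, ← intervalIntegral.integral_sub]
    · have h4 : eval 1 (((1 : ℝ[X]) - X) * (C ((n : ℝ) - 1) * y - X * derivative y)) = 0 := by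
        simp
      rw [h4] at h1
      refine Eq.trans ?_ h1
      refine intervalIntegral.integral_congr fun u _ => ?_
      simp only [eval_mul, eval_sub, eval_one, eval_X, eval_C, hyd]
      have : eval u y = yv n m u := rfl
      rw [this]
      ring
    · exact Continuous.intervalIntegrable (by fun_prop) _ _
    · exact Continuous.intervalIntegrable (by fun_prop) _ _
  have e2 : ((m : ℝ) + 1) * J - L + 2 * K = 0 := by
    have h4 : eval 1 (X ^ (m + 1) * ((1 - X) * y ^ 2)) - eval 0 (X ^ (m + 1) * ((1 - X) * y ^ 2))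
        = 0 := by simp
    rw [h4] at h2
    refine Eq.trans ?_ h2
    rw [hJ, hK, hL, ← intervalIntegral.integral_const_mul, ← intervalIntegral.integral_const_mul,
      ← intervalIntegral.integral_sub, ← intervalIntegral.integral_add]
    · refine integral_congr fun u _ => ?_
      simp only [derivative_mul, derivative_X_pow, derivative_sub, derivative_one, derivative_X,
        derivative_pow, Nat.add_sub_cancel, eval_add, eval_mul, eval_sub, eval_one, eval_X, eval_C,
        eval_pow, hyd]
      have : eval u y = yv n m u := rfl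
      rw [this]
      simp
      ring
    · exact Continuous.intervalIntegrable (by fun_prop) _ _
    · exact Continuous.intervalIntegrable (by fun_prop) _ _
    · exact Continuous.intervalIntegrable (by fun_prop) _ _
    · exact Continuous.intervalIntegrable (by fun_prop) _ _
  have e3 : J + L = (n : ℝ) * (n + m) := by
    rw [← h3, hJ, hL, ← intervalIntegral.integral_add]
    · refine integral_congr fun u _ => ?_
      ring
    · exact Continuous.intervalIntegrable (by fun_prop) _ _
    · exact Continuous.intervalIntegrable (by fun_prop) _ _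
  linear_combination e2 + 2 * e1 + e3

lemma subst4 (g : ℝ → ℝ) (hg : Continuous g) :
    ∫ x in (0 : ℝ)..1, g (x ^ 4) * (4 * x ^ 3) = ∫ u in (0 : ℝ)..1, g u := by
  have h := integral_comp_mul_deriv (a := 0) (b := 1) (f := fun x : ℝ => x ^ 4)
    (f' := fun x : ℝ => 4 * x ^ 3) (g := g) (fun x _ => x4_der x) (by fun_prop) hg
  simpa using h

/-- in the variable `x = u ^ (1/4)` -/
theorem int_Jx (n k : ℕ) (hn : 1 ≤ n) :
    ∫ x in (0 : ℝ)..1, x ^ (4 * k + 7) * (1 - x ^ 4) * (yv n (k + 1) (x ^ 4)) ^ 2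
      = (n : ℝ) * (n + (k + 1)) / (4 * (2 * n + (k + 1))) := by
  have h1 := int_J n (k + 1) hn
  have h2 := subst4 (fun u => u ^ (k + 1) * (1 - u) * (yv n (k + 1) u) ^ 2) (by
    have := yv_cont n (k + 1)
    fun_prop)
  rw [← h2] at h1
  have h3 : ∫ x in (0 : ℝ)..1, (fun u => u ^ (k + 1) * (1 - u) * (yv n (k + 1) u) ^ 2) (x ^ 4) *
      (4 * x ^ 3) = 4 * ∫ x in (0 : ℝ)..1, x ^ (4 * k + 7) * (1 - x ^ 4) *
        (yv n (k + 1) (x ^ 4)) ^ 2 := by
    rw [← intervalIntegral.integral_const_mul]
    refine integral_congr fun x _ => ?_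
    simp only
    ring
  rw [h3] at h1
  push_cast at h1
  have h4 : (0 : ℝ) < 2 * n + (k + 1) := by positivity
  rw [eq_div_iff (by positivity)]
  linarith

theorem int_Sx (n k : ℕ) (hn : 1 ≤ n) :
    ∫ x in (0 : ℝ)..1, 4 * x ^ (4 * k + 7) * (yv n (k + 1) (x ^ 4)) ^ 2
      = (n : ℝ) * (n + (k + 1)) := by
  have h1 := int_S n (k + 1) hn
  have h2 := subst4 (fun u => u ^ (k + 1) * (yv n (k + 1) u) ^ 2) (by
    have := yv_cont n (k + 1)
    fun_prop)
  push_cast at h1
  rw [← h1, ← h2]
  refine integral_congr fun x _ => ?_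
  ring

end Pool.Agent.Q75.BN
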