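import Pool.Agent.Q75.BN.M
import Pool.Agent.Q75.BN.L1

/-!
# Estimates of the integral of the kernel
-/

set_option autoImplicit false

open MeasureTheory Set
open scoped ENNReal

namespace Pool.Agent.Q75.BN

open Pool.Agent.Q75.BM (kap pp kap_cont)

lemma young {a b : ℝ} (hab : a ≤ b) {f g h : ℝ → ℝ} (hf : IntervalIntegrable f volume a b)
    (hg : IntervalIntegrable g volume a b) (hh : IntervalIntegrable h volume a b)
    (hp : ∀ x ∈ Ioo a b, 0 ≤ g x ∧ 0 ≤ h x ∧ f x ^ 2 ≤ g x * h x) {η : ℝ} (hη : 0 < η) :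
    ∫ x in a..b, f x ≤ (η * (∫ x in a..b, g x) + (∫ x in a..b, h x) / η) / 2 := by
  have h1 : ∫ x in a..b, f x ≤ ∫ x in a..b, (η * g x + h x / η) / 2 := by
    refine intervalIntegral.integral_mono_on_of_le_Ioo hab hf
      (((hg.const_mul η).add (hh.div_const η)).div_const 2) fun x hx => ?_
    obtain ⟨h2, h3, h4⟩ := hp x hx
    have h5 : 0 ≤ (η * g x + h x / η) / 2 := by positivity
    have h6 : η * g x * (h x / η) = g x * h x := by field_simp
    refine (abs_le_of_sq_le_sq' ?_ h5).2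
    nlinarith [sq_nonneg (η * g x - h x / η)]
  refine h1.trans (le_of_eq ?_)
  rw [intervalIntegral.integral_div, intervalIntegral.integral_add (hg.const_mul η) (hh.div_const η),
    intervalIntegral.integral_const_mul, intervalIntegral.integral_div]

lemma opt {F G H : ℝ} (hG : 0 < G) (hH : 0 < H) (h : ∀ η : ℝ, 0 < η → F ≤ (η * G + H / η) / 2) :
    F ≤ √(G * H) := by
  have h1 := h (√H / √G) (by positivity)
  have h2 := Real.sq_sqrt hG.le
  have h3 := Real.sq_sqrt hH.le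
  have h4 : 0 < √G := Real.sqrt_pos.2 hG
  have h5 : 0 < √H := Real.sqrt_pos.2 hH
  rw [Real.sqrt_mul hG.le]
  refine h1.trans (le_of_eq ?_)
  field_simp
  rw [h2, h3]
  ring

/-- `4 x ^ (2 m - 1) |y|` -/
noncomputable def ff (n k : ℕ) (x : ℝ) : ℝ := 4 * x ^ (2 * k + 1) * |yv n (k + 1) (x ^ 4)|

lemma ff_cont (n k : ℕ) : Continuous (ff n k) := by
  have hy : Continuous fun x : ℝ => yv n (k + 1) (x ^ 4) := (yv_cont n (k + 1)).comp (by fun_prop)
  unfold ff
  exact (by fun_prop : Continuous fun x : ℝ => 4 * x ^ (2 * k + 1)).mul hy.abs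

lemma ff_sq (n k : ℕ) (x : ℝ) : ff n k x ^ 2 = 16 * x ^ (4 * k + 2) * (yv n (k + 1) (x ^ 4)) ^ 2 := by
  unfold ff
  rw [mul_pow, mul_pow, sq_abs, ← pow_mul]
  ring

/-- the reduction to the variable `x` -/
theorem UB_of (n k : ℕ) {X : ℝ} (hX : 1 ≤ X) (h : ∫ x in (0 : ℝ)..1, ff n k x ≤ X - 1) :
    UB n (k + 1) X := by
  refine ⟨hX, ?_⟩
  have himg : (fun x : ℝ => x ^ 4) '' Ioo (0 : ℝ) 1 = Ioo (0 : ℝ) 1 := by
    ext u
    constructor
    · rintro ⟨x, hx, rfl⟩
      exact ⟨pow_pos hx.1 4, pow_lt_one₀ hx.1.le hx.2 (by norm_num)⟩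
    · intro hu
      refine ⟨u ^ ((1 : ℝ) / 4), ⟨Real.rpow_pos_of_pos hu.1 _,
        Real.rpow_lt_one hu.1.le hu.2 (by norm_num)⟩, ?_⟩
      simp only
      rw [← Real.rpow_natCast, ← Real.rpow_mul hu.1.le]
      norm_num
  have h2 := lintegral_image_eq_lintegral_abs_deriv_mul (f := fun x : ℝ => x ^ 4)
    (f' := fun x => 4 * x ^ 3) (s := Ioo (0 : ℝ) 1) measurableSet_Ioo
    (fun x _ => (x4_der x).hasDerivWithinAt)
    (fun x hx y hy hxy => by
      exact (pow_left_inj₀ hx.1.le hy.1.le (by norm_num)).1 hxy)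
    (fun u => ENNReal.ofReal (|kap n (k + 1) u| / u))
  rw [← himg, h2]
  have h3 : ∫⁻ x in Ioo (0 : ℝ) 1, ENNReal.ofReal |4 * x ^ 3| *
      ENNReal.ofReal (|kap n (k + 1) (x ^ 4)| / x ^ 4) = ∫⁻ x in Ioo (0 : ℝ) 1,
        ENNReal.ofReal (ff n k x) := by
    refine setLIntegral_congr_fun measurableSet_Ioo fun x hx => ?_
    have hx0 : 0 < x := hx.1
    rw [abs_of_pos (by positivity : 0 < 4 * x ^ 3), ← ENNReal.ofReal_mul (by positivity)]
    congr 1
    unfold kap ff yv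
    have e1 : √(x ^ 4) = x ^ 2 := by
      rw [show x ^ 4 = (x ^ 2) ^ 2 by ring]
      exact Real.sqrt_sq (by positivity)
    rw [e1, abs_neg, abs_mul, abs_of_pos (by positivity : 0 < (x ^ 2) ^ (k + 1))]
    have e2 : (x ^ 2) ^ (k + 1) = x ^ (2 * k + 1) * x := by ring
    rw [e2]
    field_simp
  have h4 : ∫⁻ x in Ioo (0 : ℝ) 1, ENNReal.ofReal (ff n k x)
      = ENNReal.ofReal (∫ x in (0 : ℝ)..1, ff n k x) := by
    rw [intervalIntegral.integral_of_le zero_le_one, integral_Ioc_eq_integral_Ioo,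
      ofReal_integral_eq_lintegral_ofReal]
    · exact ((ff_cont n k).integrableOn_Icc (a := 0) (b := 1)).mono_set Ioo_subset_Icc_self
    · refine (ae_restrict_iff' measurableSet_Ioo).2 (Filter.Eventually.of_forall fun x hx => ?_)
      have hx0 : 0 < x := hx.1
      unfold ff
      positivity
  calc _ = ∫⁻ x in Ioo (0 : ℝ) 1, ENNReal.ofReal |4 * x ^ 3| *
      ENNReal.ofReal (|kap n (k + 1) (x ^ 4)| / x ^ 4) := rfl
    _ = ENNReal.ofReal (∫ x in (0 : ℝ)..1, ff n k x) := by rw [h3, h4]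
    _ ≤ _ := ENNReal.ofReal_le_ofReal h

lemma int_inv5 {a : ℝ} (ha : 0 < a) (ha1 : a ≤ 1) :
    ∫ x in a..1, 4 / x ^ 5 = 1 / a ^ 4 - 1 := by
  have h := intervalIntegral.integral_eq_sub_of_hasDerivAt (a := a) (b := 1)
    (f := fun x : ℝ => -(1 / x ^ 4)) (f' := fun x => 4 / x ^ 5) (fun x hx => by
      rw [uIcc_of_le ha1] at hx
      have hx0 : 0 < x := lt_of_lt_of_le ha hx.1
      have h1 := ((hasDerivAt_const x (1 : ℝ)).div (x4_der x) (by positivity)).neg
      refine h1.congr_deriv ?_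
      field_simp
      ring) (by
      refine ContinuousOn.intervalIntegrable ?_
      refine ContinuousOn.div (by fun_prop) (by fun_prop) fun x hx => ?_
      rw [uIcc_of_le ha1] at hx
      have hx0 : 0 < x := lt_of_lt_of_le ha hx.1
      positivity)
  rw [h]
  ring

/-- the part near `1` -/
theorem right_est (n k : ℕ) (hn : 1 ≤ n) {a : ℝ} (ha : 0 < a) (ha1 : a < 1) :
    ∫ x in a..1, ff n k x ≤ √((n : ℝ) * (n + (k + 1)) * (1 / a ^ 4 - 1)) := by
  have hy : Continuous fun x : ℝ => yv n (k + 1) (x ^ 4) := (yv_cont n (k + 1)).comp (by fun_prop)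
  have hS := int_Sx n k hn
  have hn' : (1 : ℝ) ≤ n := by exact_mod_cast hn
  have hc : Continuous fun x : ℝ => 4 * x ^ (4 * k + 7) * (yv n (k + 1) (x ^ 4)) ^ 2 := by fun_prop
  have h4 : a ^ 4 < 1 := pow_lt_one₀ ha.le ha1 (by norm_num)
  have ha4 : 0 < a ^ 4 := by positivity
  have hH : 0 < 1 / a ^ 4 - 1 := by
    have := one_lt_one_div ha4 h4
    linarith
  refine opt (by positivity) hH fun η hη => ?_
  have hi : IntervalIntegrable (fun x : ℝ => 4 / x ^ 5) volume a 1 := by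
    refine ContinuousOn.intervalIntegrable ?_
    refine ContinuousOn.div (by fun_prop) (by fun_prop) fun x hx => ?_
    rw [uIcc_of_le ha1.le] at hx
    have hx0 : 0 < x := lt_of_lt_of_le ha hx.1
    positivity
  have h := young ha1.le ((ff_cont n k).intervalIntegrable a 1) (hc.intervalIntegrable a 1) hi
    (fun x hx => by
      have hx0 : 0 < x := lt_trans ha hx.1
      refine ⟨by positivity, by positivity, ?_⟩
      rw [ff_sq]
      refine le_of_eq ?_
      have e1 : x ^ (4 * k + 7) = x ^ (4 * k + 2) * x ^ 5 := by rw [← pow_add]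
      rw [e1]
      field_simp
      ring) hη
  rw [int_inv5 ha ha1.le] at h
  refine h.trans ?_
  have h5 : ∫ x in a..1, 4 * x ^ (4 * k + 7) * (yv n (k + 1) (x ^ 4)) ^ 2 ≤ (n : ℝ) * (n + (k + 1)) := by
    rw [← hS]
    refine intervalIntegral.integral_mono_interval ha.le ha1.le le_rfl ?_ (hc.intervalIntegrable 0 1)
    refine (ae_restrict_iff' measurableSet_Ioc).2 (Filter.Eventually.of_forall fun x hx => ?_)
    have hx0 : 0 < x := hx.1
    simp only [Pi.zero_apply]
    positivity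
  gcongr

end Pool.Agent.Q75.BN
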