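import Pool.Agent.Q75.BN.N1

/-!
# The part away from `1`
-/

set_option autoImplicit false

open MeasureTheory Set

namespace Pool.Agent.Q75.BN

lemma wt_eq (n k : ℕ) {σ x : ℝ} (hs : x + σ ≠ 0) : wt n k σ x = x ^ (4 * k + 2) * ((1 - x ^ 4) / (x + σ) ^ 2 *
    (AA n (k + 1) * σ * x ^ 4 + (2 * x + σ) * ((((k : ℝ) + 1) ^ 2 - 1 / 4) / 4))) := by
  unfold wt
  field_simp
  ring

lemma p1 (n k : ℕ) (hn : 1 ≤ n) {σ x x0 : ℝ} (hσ : 0 < σ) (hx : 0 < x) (hx0 : x ≤ x0) (h01 : x0 < 1) :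
    16 * x ^ (4 * k + 2) ≤ wt n k σ x *
      (64 * (σ + x / 2) / ((((k : ℝ) + 1) ^ 2 - 1 / 4) * (1 - x0 ^ 4))) := by
  have hs : 0 < x + σ := by positivity
  rw [wt_eq n k hs.ne']
  have hA := AA_pos n (k + 1) hn
  have hk : (0 : ℝ) ≤ k := Nat.cast_nonneg k
  set m1 : ℝ := ((k : ℝ) + 1) ^ 2 - 1 / 4 with hm1
  have hm : 0 < m1 := by rw [hm1]; nlinarith
  have h0 : 0 < x0 := hx.trans_le hx0
  have h4 : x0 ^ 4 < 1 := pow_lt_one₀ h0.le h01 (by norm_num)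
  have h5 : x ^ 4 ≤ x0 ^ 4 := pow_le_pow_left₀ hx.le hx0 4
  have h6 : (1 - x0 ^ 4) / (x + σ) ^ 2 * ((2 * x + σ) * (m1 / 4)) ≤
      (1 - x ^ 4) / (x + σ) ^ 2 * (AA n (k + 1) * σ * x ^ 4 + (2 * x + σ) * (m1 / 4)) := by
    have h7 : 0 ≤ 1 - x ^ 4 := by linarith
    have h8 : 0 ≤ AA n (k + 1) * σ * x ^ 4 := by positivity
    gcongr
    linarith
  have h9 : 0 < 64 * (σ + x / 2) / (m1 * (1 - x0 ^ 4)) := by
    have : 0 < 1 - x0 ^ 4 := by linarith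
    positivity
  have h10 : (16 : ℝ) ≤ (1 - x0 ^ 4) / (x + σ) ^ 2 * ((2 * x + σ) * (m1 / 4)) *
      (64 * (σ + x / 2) / (m1 * (1 - x0 ^ 4))) := by
    have h11 : (1 - x0 ^ 4) ≠ 0 := by linarith
    have e : (1 - x0 ^ 4) / (x + σ) ^ 2 * ((2 * x + σ) * (m1 / 4)) *
      (64 * (σ + x / 2) / (m1 * (1 - x0 ^ 4))) = 16 * ((2 * x + σ) * (σ + x / 2)) / (x + σ) ^ 2 := by
      field_simp
      ring
    rw [e, le_div_iff₀ (by positivity)]
    nlinarith [mul_pos hx hσ]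
  calc 16 * x ^ (4 * k + 2) = x ^ (4 * k + 2) * 16 := mul_comm _ _
    _ ≤ x ^ (4 * k + 2) * ((1 - x0 ^ 4) / (x + σ) ^ 2 * ((2 * x + σ) * (m1 / 4)) *
      (64 * (σ + x / 2) / (m1 * (1 - x0 ^ 4)))) := by gcongr
    _ ≤ x ^ (4 * k + 2) * ((1 - x ^ 4) / (x + σ) ^ 2 * (AA n (k + 1) * σ * x ^ 4 +
      (2 * x + σ) * (m1 / 4)) * (64 * (σ + x / 2) / (m1 * (1 - x0 ^ 4)))) := by gcongr
    _ = _ := by ring

lemma p2 (n k : ℕ) (hn : 1 ≤ n) {σ x : ℝ} (hσ : 0 < σ) (hx : 0 < x) (hx0 : x ≤ 5 / 6) :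
    16 * x ^ (4 * k + 2) ≤ wt n k σ x *
      (16 / (AA n (k + 1) * σ) * ((x + σ) ^ 2 * (1 / x ^ 4 + 1296 / 671))) := by
  have hs : 0 < x + σ := by positivity
  rw [wt_eq n k hs.ne']
  have hA := AA_pos n (k + 1) hn
  have hk : (0 : ℝ) ≤ k := Nat.cast_nonneg k
  set m1 : ℝ := ((k : ℝ) + 1) ^ 2 - 1 / 4 with hm1
  have hm : 0 < m1 := by rw [hm1]; nlinarith
  have h5 : x ^ 4 ≤ (5 / 6) ^ 4 := pow_le_pow_left₀ hx.le hx0 4
  have h6 : 671 / 1296 ≤ 1 - x ^ 4 := by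
    have : ((5 : ℝ) / 6) ^ 4 = 625 / 1296 := by norm_num
    linarith
  have h7 : 0 < 1 - x ^ 4 := by linarith
  have h8 : 1 / (x ^ 4 * (1 - x ^ 4)) ≤ 1 / x ^ 4 + 1296 / 671 := by
    have e : 1 / (x ^ 4 * (1 - x ^ 4)) = 1 / x ^ 4 + 1 / (1 - x ^ 4) := by
      field_simp
      ring
    rw [e]
    have : 1 / (1 - x ^ 4) ≤ 1296 / 671 := by
      rw [div_le_div_iff₀ h7 (by norm_num)]
      linarith
    linarith
  have h9 : (1 - x ^ 4) / (x + σ) ^ 2 * (AA n (k + 1) * σ * x ^ 4) ≤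
      (1 - x ^ 4) / (x + σ) ^ 2 * (AA n (k + 1) * σ * x ^ 4 + (2 * x + σ) * (m1 / 4)) := by
    have h10 : 0 ≤ (2 * x + σ) * (m1 / 4) := by positivity
    gcongr
    linarith
  have e2 : (1 - x ^ 4) / (x + σ) ^ 2 * (AA n (k + 1) * σ * x ^ 4) *
      (16 / (AA n (k + 1) * σ) * ((x + σ) ^ 2 * (1 / (x ^ 4 * (1 - x ^ 4))))) = 16 := by
    field_simp
  calc 16 * x ^ (4 * k + 2) = x ^ (4 * k + 2) * ((1 - x ^ 4) / (x + σ) ^ 2 *
        (AA n (k + 1) * σ * x ^ 4) *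
      (16 / (AA n (k + 1) * σ) * ((x + σ) ^ 2 * (1 / (x ^ 4 * (1 - x ^ 4)))))) := by
        rw [e2]
        ring
    _ ≤ x ^ (4 * k + 2) * ((1 - x ^ 4) / (x + σ) ^ 2 *
        (AA n (k + 1) * σ * x ^ 4 + (2 * x + σ) * (m1 / 4)) *
      (16 / (AA n (k + 1) * σ) * ((x + σ) ^ 2 * (1 / x ^ 4 + 1296 / 671)))) := by gcongr
    _ = _ := by ring

lemma int_h1 {σ x0 M : ℝ} : ∫ x in (0 : ℝ)..x0, 64 * (σ + x / 2) / M
    = 64 * (σ * x0 + x0 ^ 2 / 4) / M := by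
  have h := intervalIntegral.integral_eq_sub_of_hasDerivAt (a := 0) (b := x0)
    (f := fun x : ℝ => 64 * (σ * x + x ^ 2 / 4) / M) (f' := fun x => 64 * (σ + x / 2) / M)
    (fun x _ => by
      have h1 := ((((hasDerivAt_id x).const_mul σ).add ((hasDerivAt_pow 2 x).div_const 4)).const_mul
        64).div_const M
      refine h1.congr_deriv ?_
      push_cast
      ring) (Continuous.intervalIntegrable (by fun_prop) _ _)
  rw [h]
  ring

lemma int_h2 {σ x0 B : ℝ} (hσ : 0 < σ) (hσ1 : σ ≤ 3 / 4) (hx0 : 0 < x0) (hx1 : x0 ≤ 5 / 6) (hB : 0 < B) :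
    ∫ x in x0..(5 / 6 : ℝ), B * ((x + σ) ^ 2 * (1 / x ^ 4 + 1296 / 671)) ≤
      B * (1 / x0 + σ / x0 ^ 2 + σ ^ 2 / (3 * x0 ^ 3)) := by
  have h := intervalIntegral.integral_eq_sub_of_hasDerivAt (a := x0) (b := (5 / 6 : ℝ))
    (f := fun x : ℝ => B * (-(1 / x) - σ / x ^ 2 - σ ^ 2 / (3 * x ^ 3) + 432 / 671 * (x + σ) ^ 3))
    (f' := fun x => B * ((x + σ) ^ 2 * (1 / x ^ 4 + 1296 / 671)))
    (fun x hx => by
      rw [uIcc_of_le hx1] at hx
      have hx0' : 0 < x := lt_of_lt_of_le hx0 hx.1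
      have a1 : HasDerivAt (fun x : ℝ => -(1 / x)) (1 / x ^ 2) x := by
        have := ((hasDerivAt_const x (1 : ℝ)).div (hasDerivAt_id x) hx0'.ne').neg
        refine this.congr_deriv ?_
        simp only [id_eq]
        field_simp
        ring
      have a2 : HasDerivAt (fun x : ℝ => σ / x ^ 2) (-(2 * σ / x ^ 3)) x := by
        have := (hasDerivAt_const x σ).div (hasDerivAt_pow 2 x) (by positivity)
        refine this.congr_deriv ?_
        push_cast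
        field_simp
        ring
      have a3 : HasDerivAt (fun x : ℝ => σ ^ 2 / (3 * x ^ 3)) (-(σ ^ 2 / x ^ 4)) x := by
        have := (hasDerivAt_const x (σ ^ 2)).div ((hasDerivAt_pow 3 x).const_mul 3) (by positivity)
        refine this.congr_deriv ?_
        push_cast
        field_simp
        ring
      have a4 : HasDerivAt (fun x : ℝ => 432 / 671 * (x + σ) ^ 3) (1296 / 671 * (x + σ) ^ 2) x := by
        have := ((s_der σ x).pow 3).const_mul (432 / 671)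
        refine this.congr_deriv ?_
        push_cast
        ring
      have h1 := (((a1.sub a2).sub a3).add a4).const_mul B
      refine h1.congr_deriv ?_
      field_simp
      ring) (by
      refine ContinuousOn.intervalIntegrable ?_
      rw [uIcc_of_le hx1]
      refine ContinuousOn.mul (by fun_prop) (ContinuousOn.mul (by fun_prop)
        (ContinuousOn.add (ContinuousOn.div (by fun_prop) (by fun_prop) fun x hx => ?_) (by fun_prop)))
      have hx0' : 0 < x := lt_of_lt_of_le hx0 hx.1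
      positivity)
  rw [h, ← mul_sub]
  refine mul_le_mul_of_nonneg_left ?_ hB.le
  have h1 : 0 ≤ 432 / 671 * (x0 + σ) ^ 3 := by positivity
  have h2 : -(1 / (5 / 6 : ℝ)) - σ / (5 / 6) ^ 2 - σ ^ 2 / (3 * (5 / 6) ^ 3) + 432 / 671 * (5 / 6 + σ) ^ 3 ≤ 0 := by
    have e : 0 ≤ σ * (3 / 4 - σ) := mul_nonneg hσ.le (by linarith)
    have e2 : 0 ≤ σ * (σ * (3 / 4 - σ)) := mul_nonneg hσ.le e
    have e3 : -(1 / (5 / 6 : ℝ)) - σ / (5 / 6) ^ 2 - σ ^ 2 / (3 * (5 / 6) ^ 3) +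
        432 / 671 * (5 / 6 + σ) ^ 3 = -(6 / 5) - 36 / 25 * σ - 72 / 125 * σ ^ 2 +
        432 / 671 * (125 / 216 + 25 / 12 * σ + 5 / 2 * σ ^ 2 + σ ^ 3) := by
      ring
    rw [e3]
    nlinarith
  linarith

/-- the estimate on `[0, 5/6]` -/
theorem left_est (n k : ℕ) (hn : 1 ≤ n) {σ x0 I1 I2 : ℝ} (hσ : 0 < σ) (hσ1 : σ ≤ 3 / 4)
    (hx0 : 0 < x0) (hx1 : x0 ≤ 5 / 6)
    (hI1 : ∫ x in (0 : ℝ)..1, wt n k σ x * (yv n (k + 1) (x ^ 4)) ^ 2 ≤ I1) (h1 : 0 < I1)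
    (hI2 : 64 * (σ * x0 + x0 ^ 2 / 4) / ((((k : ℝ) + 1) ^ 2 - 1 / 4) * (1 - x0 ^ 4)) +
      16 / (AA n (k + 1) * σ) * (1 / x0 + σ / x0 ^ 2 + σ ^ 2 / (3 * x0 ^ 3)) ≤ I2) :
    ∫ x in (0 : ℝ)..(5 / 6), ff n k x ≤ √(I1 * I2) := by
  have hA := AA_pos n (k + 1) hn
  have hk : (0 : ℝ) ≤ k := Nat.cast_nonneg k
  have hm : 0 < ((k : ℝ) + 1) ^ 2 - 1 / 4 := by nlinarith
  have h4 : x0 ^ 4 < 1 := pow_lt_one₀ hx0.le (by linarith) (by norm_num)
  have h4' : 0 < 1 - x0 ^ 4 := by linarith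
  have hI2p : 0 < I2 := lt_of_lt_of_le (by positivity) hI2
  have hy : Continuous fun x : ℝ => yv n (k + 1) (x ^ 4) := (yv_cont n (k + 1)).comp (by fun_prop)
  set g : ℝ → ℝ := fun x => wt n k σ x * (yv n (k + 1) (x ^ 4)) ^ 2 with hg
  have hgc : ContinuousOn g (Icc 0 1) := (wt_cont n k hσ).mul (hy.pow 2).continuousOn
  have hgi : ∀ a b : ℝ, 0 ≤ a → a ≤ b → b ≤ 1 → IntervalIntegrable g volume a b :=
    fun a b ha hab hb => (hgc.mono (by rw [uIcc_of_le hab]; exact Icc_subset_Icc ha hb)).intervalIntegrable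
  have hwt0 : ∀ x, 0 ≤ x → x ≤ 1 → 0 ≤ wt n k σ x := by
    intro x hx hx'
    rw [wt_eq n k (by positivity)]
    have : 0 ≤ 1 - x ^ 4 := by
      have := pow_le_one₀ hx hx' (n := 4)
      linarith
    positivity
  refine opt h1 hI2p fun η hη => ?_
  have i1 : ∫ x in (0 : ℝ)..x0, ff n k x ≤ (η * (∫ x in (0 : ℝ)..x0, g x) +
      (64 * (σ * x0 + x0 ^ 2 / 4) / ((((k : ℝ) + 1) ^ 2 - 1 / 4) * (1 - x0 ^ 4))) / η) / 2 := by
    rw [← int_h1]
    refine young hx0.le ((ff_cont n k).intervalIntegrable _ _) (hgi 0 x0 le_rfl hx0.le (by linarith))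
      (Continuous.intervalIntegrable (by fun_prop) _ _) (fun x hx => ⟨?_, ?_, ?_⟩) hη
    · exact mul_nonneg (hwt0 x hx.1.le (by linarith [hx.2])) (sq_nonneg _)
    · have := hx.1
      positivity
    · have h5 := p1 n k hn hσ hx.1 hx.2.le (by linarith)
      rw [ff_sq, hg]
      simp only
      nlinarith [mul_le_mul_of_nonneg_right h5 (sq_nonneg (yv n (k + 1) (x ^ 4)))]
  have i2 : ∫ x in x0..(5 / 6 : ℝ), ff n k x ≤ (η * (∫ x in x0..(5 / 6 : ℝ), g x) +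
      (16 / (AA n (k + 1) * σ) * (1 / x0 + σ / x0 ^ 2 + σ ^ 2 / (3 * x0 ^ 3))) / η) / 2 := by
    have h6 := int_h2 (B := 16 / (AA n (k + 1) * σ)) hσ hσ1 hx0 hx1 (by positivity)
    have hc : ContinuousOn (fun x : ℝ => 16 / (AA n (k + 1) * σ) *
        ((x + σ) ^ 2 * (1 / x ^ 4 + 1296 / 671))) (Icc x0 (5 / 6)) := by
      refine ContinuousOn.mul (by fun_prop) (ContinuousOn.mul (by fun_prop)
        (ContinuousOn.add (ContinuousOn.div (by fun_prop) (by fun_prop) fun x hx => ?_) (by fun_prop)))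
      have hx0' : 0 < x := lt_of_lt_of_le hx0 hx.1
      positivity
    have h7 := young (f := ff n k) (g := g) (h := fun x : ℝ => 16 / (AA n (k + 1) * σ) *
        ((x + σ) ^ 2 * (1 / x ^ 4 + 1296 / 671))) hx1 ((ff_cont n k).intervalIntegrable _ _)
      (hgi x0 (5 / 6) hx0.le hx1 (by norm_num))
      ((hc.mono (by rw [uIcc_of_le hx1])).intervalIntegrable) (fun x hx => ⟨?_, ?_, ?_⟩) hη
    · refine h7.trans ?_
      gcongr
    · exact mul_nonneg (hwt0 x (by linarith [hx.1]) (by linarith [hx.2])) (sq_nonneg _)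
    · have := hx0.trans hx.1
      positivity
    · have h5 := p2 n k hn hσ (hx0.trans hx.1) hx.2.le
      rw [ff_sq, hg]
      simp only
      nlinarith [mul_le_mul_of_nonneg_right h5 (sq_nonneg (yv n (k + 1) (x ^ 4)))]
  have e1 : (∫ x in (0 : ℝ)..x0, ff n k x) + ∫ x in x0..(5 / 6 : ℝ), ff n k x
      = ∫ x in (0 : ℝ)..(5 / 6), ff n k x :=
    intervalIntegral.integral_add_adjacent_intervals ((ff_cont n k).intervalIntegrable _ _)
      ((ff_cont n k).intervalIntegrable _ _)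
  have e2 : (∫ x in (0 : ℝ)..x0, g x) + ∫ x in x0..(5 / 6 : ℝ), g x = ∫ x in (0 : ℝ)..(5 / 6), g x :=
    intervalIntegral.integral_add_adjacent_intervals (hgi 0 x0 le_rfl hx0.le (by linarith))
      (hgi x0 (5 / 6) hx0.le hx1 (by norm_num))
  have e3 : ∫ x in (0 : ℝ)..(5 / 6), g x ≤ I1 := by
    refine le_trans ?_ hI1
    refine intervalIntegral.integral_mono_interval le_rfl (by norm_num) (by norm_num) ?_
      (hgi 0 1 le_rfl zero_le_one le_rfl)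
    refine (ae_restrict_iff' measurableSet_Ioc).2 (Filter.Eventually.of_forall fun x hx => ?_)
    simp only [Pi.zero_apply, hg]
    exact mul_nonneg (hwt0 x hx.1.le hx.2) (sq_nonneg _)
  rw [← e1]
  have h8 : η * (∫ x in (0 : ℝ)..(5 / 6), g x) ≤ η * I1 := by gcongr
  have h9 : (64 * (σ * x0 + x0 ^ 2 / 4) / ((((k : ℝ) + 1) ^ 2 - 1 / 4) * (1 - x0 ^ 4)) +
      16 / (AA n (k + 1) * σ) * (1 / x0 + σ / x0 ^ 2 + σ ^ 2 / (3 * x0 ^ 3))) / η ≤ I2 / η := by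
    gcongr
  rw [add_div] at h9
  rw [← e2, mul_add] at h8
  linarith

end Pool.Agent.Q75.BN
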