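import Pool.Agent.Q75.BN.N2

/-!
# The numerical cases `n ≥ 3`, `m ≤ 16 n`
-/

set_option autoImplicit false

open MeasureTheory Set

namespace Pool.Agent.Q75.BN

open Pool.Agent.Q75.BM (En)

/-- the estimate on `[0, 5/6]`, simple form -/
theorem left_est0 (n k : ℕ) (hn : 1 ≤ n) {σ I1 I2 : ℝ} (hσ : 0 < σ)
    (hI1 : ∫ x in (0 : ℝ)..1, wt n k σ x * (yv n (k + 1) (x ^ 4)) ^ 2 ≤ I1) (h1 : 0 < I1)
    (hI2 : 64 * (σ * (5 / 6) + (5 / 6) ^ 2 / 4) / ((((k : ℝ) + 1) ^ 2 - 1 / 4) * (1 - (5 / 6) ^ 4)) ≤ I2) :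
    ∫ x in (0 : ℝ)..(5 / 6), ff n k x ≤ √(I1 * I2) := by
  have hA := AA_pos n (k + 1) hn
  have hk : (0 : ℝ) ≤ k := Nat.cast_nonneg k
  have hm : 0 < ((k : ℝ) + 1) ^ 2 - 1 / 4 := by nlinarith
  have h4' : (0 : ℝ) < 1 - (5 / 6) ^ 4 := by norm_num
  have hI2p : 0 < I2 := lt_of_lt_of_le (by positivity) hI2
  have hy : Continuous fun x : ℝ => yv n (k + 1) (x ^ 4) := (yv_cont n (k + 1)).comp (by fun_prop)
  set g : ℝ → ℝ := fun x => wt n k σ x * (yv n (k + 1) (x ^ 4)) ^ 2 with hg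
  have hgc : ContinuousOn g (Icc 0 1) := (wt_cont n k hσ).mul (hy.pow 2).continuousOn
  have hgi : ∀ a b : ℝ, 0 ≤ a → a ≤ b → b ≤ 1 → IntervalIntegrable g volume a b :=
    fun a b ha hab hb => (hgc.mono (by rw [uIcc_of_le hab]; exact Icc_subset_Icc ha hb)).intervalIntegrable
  have hwt0 : ∀ x, 0 ≤ x → x ≤ 1 → 0 ≤ wt n k σ x := by
    intro x hx hx'
    rw [wt_eq n k (by positivity)]
    have : 0 ≤ 1 - x ^ 4 := by
      have := pow_le_one₀ hx hx' (n := 4)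
      linarith
    positivity
  refine opt h1 hI2p fun η hη => ?_
  have i1 : ∫ x in (0 : ℝ)..(5 / 6), ff n k x ≤ (η * (∫ x in (0 : ℝ)..(5 / 6), g x) +
      (64 * (σ * (5 / 6) + (5 / 6) ^ 2 / 4) / ((((k : ℝ) + 1) ^ 2 - 1 / 4) * (1 - (5 / 6) ^ 4))) / η) / 2 := by
    rw [← int_h1]
    refine young (by norm_num) ((ff_cont n k).intervalIntegrable _ _)
      (hgi 0 (5 / 6) le_rfl (by norm_num) (by norm_num))
      (Continuous.intervalIntegrable (by fun_prop) _ _) (fun x hx => ⟨?_, ?_, ?_⟩) hη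
    · exact mul_nonneg (hwt0 x hx.1.le (by linarith [hx.2])) (sq_nonneg _)
    · have := hx.1
      positivity
    · have h5 := p1 n k hn hσ hx.1 hx.2.le (by norm_num)
      rw [ff_sq, hg]
      simp only
      nlinarith [mul_le_mul_of_nonneg_right h5 (sq_nonneg (yv n (k + 1) (x ^ 4)))]
  have e3 : ∫ x in (0 : ℝ)..(5 / 6), g x ≤ I1 := by
    refine le_trans ?_ hI1
    refine intervalIntegral.integral_mono_interval le_rfl (by norm_num) (by norm_num) ?_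
      (hgi 0 1 le_rfl zero_le_one le_rfl)
    refine (ae_restrict_iff' measurableSet_Ioc).2 (Filter.Eventually.of_forall fun x hx => ?_)
    simp only [Pi.zero_apply, hg]
    exact mul_nonneg (hwt0 x hx.1.le hx.2) (sq_nonneg _)
  refine i1.trans ?_
  gcongr

/-- `H ≤ J` -/
lemma H1 (n k : ℕ) : ∫ x in (0 : ℝ)..1, x ^ (4 * k + 9) * (1 - x ^ 4) * (yv n (k + 1) (x ^ 4)) ^ 2 ≤
    ∫ x in (0 : ℝ)..1, x ^ (4 * k + 7) * (1 - x ^ 4) * (yv n (k + 1) (x ^ 4)) ^ 2 := by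
  have hy : Continuous fun x : ℝ => yv n (k + 1) (x ^ 4) := (yv_cont n (k + 1)).comp (by fun_prop)
  refine intervalIntegral.integral_mono_on zero_le_one (Continuous.intervalIntegrable (by fun_prop) _ _)
    (Continuous.intervalIntegrable (by fun_prop) _ _) fun x hx => ?_
  have h1 : 0 ≤ 1 - x ^ 4 := by
    have := pow_le_one₀ hx.1 hx.2 (n := 4)
    linarith
  have h2 : x ^ (4 * k + 9) ≤ x ^ (4 * k + 7) := pow_le_pow_of_le_one hx.1 hx.2 (by omega)
  gcongr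

/-- `H ≤ (0.7 ρ + 1 / 2.8) J` -/
lemma H2 (n k : ℕ) (hn : 1 ≤ n) {ρ : ℝ} (hρ : (AA n (k + 1) + (((k : ℝ) + 1) ^ 2 - 1) / 4) ≤ 2 * AA n (k + 1) * ρ) :
    ∫ x in (0 : ℝ)..1, x ^ (4 * k + 9) * (1 - x ^ 4) * (yv n (k + 1) (x ^ 4)) ^ 2 ≤
    (7 / 10 * ρ + 5 / 14) *
    ∫ x in (0 : ℝ)..1, x ^ (4 * k + 7) * (1 - x ^ 4) * (yv n (k + 1) (x ^ 4)) ^ 2 := by
  have hy : Continuous fun x : ℝ => yv n (k + 1) (x ^ 4) := (yv_cont n (k + 1)).comp (by fun_prop)
  have hA := AA_pos n (k + 1) hn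
  set A := AA n (k + 1) with hAdef
  set J := ∫ x in (0 : ℝ)..1, x ^ (4 * k + 7) * (1 - x ^ 4) * (yv n (k + 1) (x ^ 4)) ^ 2 with hJ
  set J1 := ∫ x in (0 : ℝ)..1, x ^ (4 * k + 11) * (1 - x ^ 4) * (yv n (k + 1) (x ^ 4)) ^ 2 with hJ1
  have hJ0 : 0 ≤ J := by
    refine intervalIntegral.integral_nonneg zero_le_one fun x hx => ?_
    have h1 : 0 ≤ 1 - x ^ 4 := by
      have := pow_le_one₀ hx.1 hx.2 (n := 4)
      linarith
    have := hx.1
    positivity
  have e1 : (A + (((k : ℝ) + 1) ^ 2 - 1) / 4) * J - 2 * A * J1 = 0 := by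
    have h := int_mom n k hn
    refine Eq.trans ?_ h
    rw [hJ, hJ1, ← intervalIntegral.integral_const_mul, ← intervalIntegral.integral_const_mul,
      ← intervalIntegral.integral_sub (Continuous.intervalIntegrable (by fun_prop) _ _)
        (Continuous.intervalIntegrable (by fun_prop) _ _)]
    refine intervalIntegral.integral_congr fun x _ => ?_
    simp only [← hAdef]
    have e2 : x ^ (4 * k + 11) = x ^ (4 * k + 7) * x ^ 4 := by rw [← pow_add]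
    rw [e2]
    ring
  have e2 : J1 ≤ ρ * J := by
    have h1 : 2 * A * J1 ≤ 2 * A * (ρ * J) := by
      calc 2 * A * J1 = (A + (((k : ℝ) + 1) ^ 2 - 1) / 4) * J := by linarith
        _ ≤ 2 * A * ρ * J := mul_le_mul_of_nonneg_right hρ hJ0
        _ = _ := by ring
    exact le_of_mul_le_mul_left h1 (by positivity)
  have e3 : ∫ x in (0 : ℝ)..1, x ^ (4 * k + 9) * (1 - x ^ 4) * (yv n (k + 1) (x ^ 4)) ^ 2 ≤
      7 / 10 * J1 + 5 / 14 * J := by
    rw [hJ, hJ1, ← intervalIntegral.integral_const_mul, ← intervalIntegral.integral_const_mul,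
      ← intervalIntegral.integral_add (Continuous.intervalIntegrable (by fun_prop) _ _)
        (Continuous.intervalIntegrable (by fun_prop) _ _)]
    refine intervalIntegral.integral_mono_on zero_le_one (Continuous.intervalIntegrable (by fun_prop) _ _)
      (Continuous.intervalIntegrable (by fun_prop) _ _) fun x hx => ?_
    have h1 : 0 ≤ 1 - x ^ 4 := by
      have := pow_le_one₀ hx.1 hx.2 (n := 4)
      linarith
    have h2 : x ^ 2 ≤ 7 / 10 * x ^ 4 + 5 / 14 := by nlinarith [sq_nonneg (x ^ 2 - 5 / 7)]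
    have h3 : 0 ≤ x ^ (4 * k + 7) * (1 - x ^ 4) * (yv n (k + 1) (x ^ 4)) ^ 2 := by
      have := hx.1
      positivity
    have e4 : x ^ (4 * k + 9) = x ^ (4 * k + 7) * x ^ 2 := by rw [← pow_add]
    have e5 : x ^ (4 * k + 11) = x ^ (4 * k + 7) * x ^ 4 := by rw [← pow_add]
    rw [e4, e5]
    nlinarith [mul_le_mul_of_nonneg_right h2 h3]
  calc _ ≤ 7 / 10 * J1 + 5 / 14 * J := e3
    _ ≤ 7 / 10 * (ρ * J) + 5 / 14 * J := by gcongr
    _ = _ := by ring

/-- `En n ≥ 7.01 (n + 1/16)` for `n ≥ 3` -/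
lemma En_ge3 (n : ℕ) (hn : 3 ≤ n) : 7.01 * ((n : ℝ) + 1 / 16) ≤ En n := by
  induction n, hn using Nat.le_induction with
  | base =>
    unfold En
    have h1 : (2.7182818283 : ℝ) < Real.exp 1 := Real.exp_one_gt_d9
    have h2 : (∑ j ∈ Finset.range 3, 2 / (2 * (j : ℝ) + 1)) = 3 + 1 / 15 := by
      simp [Finset.sum_range_succ]
      norm_num
    rw [h2, Real.exp_add]
    have h3 : Real.exp 3 = Real.exp 1 * Real.exp 1 * Real.exp 1 := by
      rw [← Real.exp_add, ← Real.exp_add]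
      norm_num
    have h4 := Real.quadratic_le_exp_of_nonneg (x := (1 : ℝ) / 15) (by norm_num)
    have h5 : (20.0855 : ℝ) ≤ Real.exp 3 := by
      rw [h3]
      have h6 : (2.7182818283 : ℝ) * 2.7182818283 ≤ Real.exp 1 * Real.exp 1 := by gcongr
      have h7 : (2.7182818283 : ℝ) * 2.7182818283 * 2.7182818283 ≤
          Real.exp 1 * Real.exp 1 * Real.exp 1 := by gcongr
      norm_num at h7 ⊢
      linarith
    have h6 : (1.06888 : ℝ) ≤ Real.exp (1 / 15) := by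
      refine le_trans ?_ h4
      norm_num
    have h7 : (20.0855 : ℝ) * 1.06888 ≤ Real.exp 3 * Real.exp (1 / 15) := by gcongr
    push_cast
    norm_num at h7 ⊢
    linarith
  | succ n hn ih =>
    have hn' : (3 : ℝ) ≤ n := by exact_mod_cast hn
    have h1 : En (n + 1) = En n * Real.exp (2 / (2 * (n : ℝ) + 1)) := by
      unfold En
      rw [Finset.sum_range_succ, Real.exp_add]
    have h2 := Real.quadratic_le_exp_of_nonneg (x := 2 / (2 * (n : ℝ) + 1)) (by positivity)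
    have h3 : (n : ℝ) + 1 + 1 / 16 ≤ ((n : ℝ) + 1 / 16) *
        (1 + 2 / (2 * (n : ℝ) + 1) + (2 / (2 * (n : ℝ) + 1)) ^ 2 / 2) := by
      have hv : (0 : ℝ) < 2 * (n : ℝ) + 1 := by positivity
      have e : ((n : ℝ) + 1 / 16) * (1 + 2 / (2 * (n : ℝ) + 1) + (2 / (2 * (n : ℝ) + 1)) ^ 2 / 2)
          - ((n : ℝ) + 1 + 1 / 16) = (n - 3) / (4 * (2 * (n : ℝ) + 1) ^ 2) := by
        field_simp
        ring
      have h4 : 0 ≤ ((n : ℝ) - 3) / (4 * (2 * (n : ℝ) + 1) ^ 2) := by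
        apply div_nonneg <;> nlinarith
      linarith
    rw [h1]
    push_cast
    calc 7.01 * ((n : ℝ) + 1 + 1 / 16)
        ≤ 7.01 * (((n : ℝ) + 1 / 16) *
          (1 + 2 / (2 * (n : ℝ) + 1) + (2 / (2 * (n : ℝ) + 1)) ^ 2 / 2)) := by gcongr
      _ = (7.01 * ((n : ℝ) + 1 / 16)) *
          (1 + 2 / (2 * (n : ℝ) + 1) + (2 / (2 * (n : ℝ) + 1)) ^ 2 / 2) := by ring
      _ ≤ En n * Real.exp (2 / (2 * (n : ℝ) + 1)) :=
          mul_le_mul ih h2 (by positivity) (Pool.Agent.Q75.BM.En_pos n).le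

end Pool.Agent.Q75.BN
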