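import Pool.Agent.Q75.BN.N4

/-!
# The cases `n ≥ 3`, `m ≤ 16 n`
-/

set_option autoImplicit false

open MeasureTheory Set

namespace Pool.Agent.Q75.BN

open Pool.Agent.Q75.BM (En)

lemma split56 (n k : ℕ) : ∫ x in (0 : ℝ)..1, ff n k x =
    (∫ x in (0 : ℝ)..(5 / 6), ff n k x) + ∫ x in (5 / 6 : ℝ)..1, ff n k x :=
  (intervalIntegral.integral_add_adjacent_intervals ((ff_cont n k).intervalIntegrable _ _)
    ((ff_cont n k).intervalIntegrable _ _)).symm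

/-- the choice of `σ` -/
lemma sigma_facts {A : ℝ} (hA : 12 ≤ A) : ∃ r σ : ℝ, 0 < r ∧ r ^ 2 = A ∧ 0 < σ ∧ σ ≤ 3 / 4 ∧
    12 / 5 * σ ≤ 5 / 6 ∧ σ ^ 2 * r = 9 / 50 ∧ (12 / 5 * σ) ^ 4 ≤ 0.0896 := by
  have hr : 0 < √A := Real.sqrt_pos.2 (by linarith)
  have hr2 : √A ^ 2 = A := Real.sq_sqrt (by linarith)
  have hr3 : (3.46 : ℝ) ≤ √A := Real.le_sqrt_of_sq_le (by norm_num; linarith)
  have hs : 0 < √(9 / 50 / √A) := Real.sqrt_pos.2 (by positivity)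
  have hs2 : √(9 / 50 / √A) ^ 2 = 9 / 50 / √A := Real.sq_sqrt (by positivity)
  have hs3 : √(9 / 50 / √A) ^ 2 * √A = 9 / 50 := by
    rw [hs2]
    field_simp
  have hs4 : √(9 / 50 / √A) ^ 2 ≤ 0.0521 := by
    rw [hs2, div_le_iff₀ hr]
    nlinarith
  refine ⟨√A, √(9 / 50 / √A), hr, hr2, hs, ?_, ?_, hs3, ?_⟩
  · nlinarith
  · nlinarith
  · have h5 : (√(9 / 50 / √A) ^ 2 * √A) ^ 2 = √(9 / 50 / √A) ^ 4 * A := by
      rw [mul_pow, ← pow_mul, hr2]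
    rw [hs3] at h5
    have h6 : √(9 / 50 / √A) ^ 4 * 12 ≤ √(9 / 50 / √A) ^ 4 * A := by gcongr
    nlinarith

/-- the case `m ≤ n`, general form -/
theorem caseB (n k : ℕ) (hn : 3 ≤ n) {κ : ℝ} (hκ : 0 < κ)
    (hH : ∫ x in (0 : ℝ)..1, x ^ (4 * k + 9) * (1 - x ^ 4) * (yv n (k + 1) (x ^ 4)) ^ 2 ≤
      κ * ∫ x in (0 : ℝ)..1, x ^ (4 * k + 7) * (1 - x ^ 4) * (yv n (k + 1) (x ^ 4)) ^ 2) :
    ∫ x in (0 : ℝ)..(5 / 6), ff n k x ≤ √(0.2515 * κ *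
      (48.6 / (((k : ℝ) + 1) ^ 2 - 1 / 4) + 54.62) * ((n : ℝ) * (n + (k + 1)))) := by
  have hn1 : 1 ≤ n := by omega
  have hn' : (3 : ℝ) ≤ n := by exact_mod_cast hn
  have hk : (0 : ℝ) ≤ k := Nat.cast_nonneg k
  have hm : 0 < ((k : ℝ) + 1) ^ 2 - 1 / 4 := by nlinarith
  set m1 : ℝ := ((k : ℝ) + 1) ^ 2 - 1 / 4 with hm1
  set N : ℝ := (n : ℝ) + ((k : ℝ) + 1) / 2 with hN
  have hN0 : 3.5 ≤ N := by rw [hN]; linarith
  have hA : AA n (k + 1) = N ^ 2 - 1 / 4 := by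
    unfold AA
    rw [hN]
    push_cast
    ring
  have hA12 : 12 ≤ AA n (k + 1) := by
    rw [hA]
    nlinarith
  obtain ⟨r, σ, hr, hr2, hσ, hσ1, hx1, hσr, hx4⟩ := sigma_facts hA12
  set A := AA n (k + 1) with hAdef
  set S : ℝ := (n : ℝ) * (n + (k + 1)) with hS
  have hSp : 0 < S := by positivity
  have hx0 : 0 < 12 / 5 * σ := by positivity
  have hJ := int_Jx n k hn1
  set I1 : ℝ := 2 * (A + 3 / 16) * (κ * (S / (8 * N))) with hI1
  have hI1' : ∫ x in (0 : ℝ)..1, wt n k σ x * (yv n (k + 1) (x ^ 4)) ^ 2 ≤ I1 := by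
    refine (int_wt n k hn1 hσ).trans ?_
    rw [hI1]
    refine mul_le_mul_of_nonneg_left ?_ (by linarith)
    refine hH.trans (le_of_eq ?_)
    rw [hJ, hS, hN]
    congr 2
    ring
  have hI1p : 0 < I1 := by
    rw [hI1]
    positivity
  have hI2 : 64 * (σ * (12 / 5 * σ) + (12 / 5 * σ) ^ 2 / 4) / (m1 * (1 - (12 / 5 * σ) ^ 4)) +
      16 / (A * σ) * (1 / (12 / 5 * σ) + σ / (12 / 5 * σ) ^ 2 + σ ^ 2 / (3 * (12 / 5 * σ) ^ 3))
      ≤ (48.6 / m1 + 54.62) / r := by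
    have hσ2 : σ ^ 2 = 9 / 50 / r := by
      field_simp
      linarith
    have e1 : 64 * (σ * (12 / 5 * σ) + (12 / 5 * σ) ^ 2 / 4) / (m1 * (1 - (12 / 5 * σ) ^ 4)) ≤
        48.6 / m1 / r := by
      have e2 : 64 * (σ * (12 / 5 * σ) + (12 / 5 * σ) ^ 2 / 4) = 44.2368 / r := by
        have : 64 * (σ * (12 / 5 * σ) + (12 / 5 * σ) ^ 2 / 4) = 245.76 * σ ^ 2 := by ring
        rw [this, hσ2]
        ring
      have h5 : 0.9104 ≤ 1 - (12 / 5 * σ) ^ 4 := by linarith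
      have h6 : 0 < 1 - (12 / 5 * σ) ^ 4 := by linarith
      rw [e2]
      have e3 : 48.6 / m1 / r = (48.6 / r) / m1 := by field_simp
      rw [e3, div_le_div_iff₀ (by positivity) hm]
      have h7 : 44.2368 / r ≤ 48.6 / r * (1 - (12 / 5 * σ) ^ 4) := by
        have e4 : 48.6 / r * (1 - (12 / 5 * σ) ^ 4) = 48.6 * (1 - (12 / 5 * σ) ^ 4) / r := by ring
        rw [e4]
        have : 44.2368 ≤ 48.6 * (1 - (12 / 5 * σ) ^ 4) := by linarith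
        gcongr
      calc 44.2368 / r * m1 ≤ 48.6 / r * (1 - (12 / 5 * σ) ^ 4) * m1 := by gcongr
        _ = _ := by ring
    have e2 : 16 / (A * σ) * (1 / (12 / 5 * σ) + σ / (12 / 5 * σ) ^ 2 + σ ^ 2 / (3 * (12 / 5 * σ) ^ 3))
        ≤ 54.62 / r := by
      have e3 : 16 / (A * σ) * (1 / (12 / 5 * σ) + σ / (12 / 5 * σ) ^ 2 +
          σ ^ 2 / (3 * (12 / 5 * σ) ^ 3)) = 16 * (5 / 12 + 25 / 144 + 125 / 5184) / (A * σ ^ 2) := by
        have hA0 : A ≠ 0 := by linarith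
        field_simp
        ring
      have e4 : A * σ ^ 2 = 9 / 50 * r := by
        rw [← hr2]
        calc r ^ 2 * σ ^ 2 = (σ ^ 2 * r) * r := by ring
          _ = _ := by rw [hσr]
      rw [e3, e4, div_le_div_iff₀ (by positivity) hr]
      nlinarith
    calc _ ≤ 48.6 / m1 / r + 54.62 / r := add_le_add e1 e2
      _ = _ := by ring
  have h := left_est n k hn1 hσ hσ1 hx0 hx1 hI1' hI1p hI2
  refine h.trans (Real.sqrt_le_sqrt ?_)
  have ht : A + 3 / 16 ≤ 1.006 * (N * r) := by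
    refine le_of_sq_le_sq ?_ (by positivity)
    have e5 : (1.006 * (N * r)) ^ 2 = 1.006 ^ 2 * ((A + 1 / 4) * A) := by
      have : N ^ 2 = A + 1 / 4 := by rw [hA]; ring
      rw [mul_pow, mul_pow, this, hr2]
    rw [e5]
    nlinarith
  have e6 : I1 * ((48.6 / m1 + 54.62) / r) = (A + 3 / 16) / (N * r) *
      (κ / 4 * (48.6 / m1 + 54.62) * S) := by
    rw [hI1]
    field_simp
    ring
  have h7 : (A + 3 / 16) / (N * r) ≤ 1.006 := by
    rw [div_le_iff₀ (by positivity)]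
    exact ht
  rw [e6]
  calc (A + 3 / 16) / (N * r) * (κ / 4 * (48.6 / m1 + 54.62) * S)
      ≤ 1.006 * (κ / 4 * (48.6 / m1 + 54.62) * S) := by gcongr
    _ = _ := by ring

/-- `m = 1` -/
theorem case_one (n : ℕ) (hn : 3 ≤ n) : ∫ x in (0 : ℝ)..1, ff n 0 x ≤ 7.01 * ((n : ℝ) + 1 / 16) - 1 := by
  have hn1 : 1 ≤ n := by omega
  have hn' : (3 : ℝ) ≤ n := by exact_mod_cast hn
  have h1 := caseB n 0 hn (κ := 99 / 140) (by norm_num) (by
    have h := H2 n 0 hn1 (ρ := 1 / 2) (by push_cast; linarith)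
    norm_num at h ⊢
    exact h)
  have h2 := right_est n 0 hn1 (a := 5 / 6) (by norm_num) (by norm_num)
  rw [split56]
  push_cast at h1 h2
  have h3 : √(0.2515 * (99 / 140) * (48.6 / ((0 + 1) ^ 2 - 1 / 4) + 54.62) * ((n : ℝ) * (n + (0 + 1))))
      ≤ 4.62 * ((n : ℝ) + 1 / 2) := by
    rw [Real.sqrt_le_left (by positivity)]
    nlinarith
  have h4 : √((n : ℝ) * (n + (0 + 1)) * (1 / (5 / 6) ^ 4 - 1)) ≤ 1.0362 * ((n : ℝ) + 1 / 2) := by
    rw [Real.sqrt_le_left (by positivity)]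
    nlinarith
  have h5 := h1.trans h3
  have h6 := h2.trans h4
  linarith

/-- `2 ≤ m ≤ n` -/
theorem case_two (n k : ℕ) (hn : 3 ≤ n) (hk1 : 1 ≤ k) (hkn : k + 1 ≤ n) :
    ∫ x in (0 : ℝ)..1, ff n k x ≤ 7.01 * ((n : ℝ) + 1 / 16) - 1 := by
  have hn1 : 1 ≤ n := by omega
  have hn' : (3 : ℝ) ≤ n := by exact_mod_cast hn
  have hk' : (1 : ℝ) ≤ k := by exact_mod_cast hk1
  have hkn' : (k : ℝ) + 1 ≤ n := by exact_mod_cast hkn
  have h1 := caseB n k hn (κ := 47 / 63) (by norm_num) (by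
    have h := H2 n k hn1 (ρ := 5 / 9) (by
      unfold AA
      push_cast
      nlinarith)
    norm_num at h ⊢
    exact h)
  have h2 := right_est n k hn1 (a := 5 / 6) (by norm_num) (by norm_num)
  rw [split56]
  have hm1 : (15 / 4 : ℝ) ≤ ((k : ℝ) + 1) ^ 2 - 1 / 4 := by nlinarith
  have hS : (n : ℝ) * (n + (k + 1)) ≤ 2 * (n : ℝ) ^ 2 := by nlinarith
  have hS0 : 0 ≤ (n : ℝ) * (n + (k + 1)) := by positivity
  have h3 : √(0.2515 * (47 / 63) * (48.6 / (((k : ℝ) + 1) ^ 2 - 1 / 4) + 54.62) *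
      ((n : ℝ) * (n + (k + 1)))) ≤ 5.04 * (n : ℝ) := by
    rw [Real.sqrt_le_left (by positivity)]
    have h5 : 48.6 / (((k : ℝ) + 1) ^ 2 - 1 / 4) ≤ 12.96 := by
      rw [div_le_iff₀ (by linarith)]
      nlinarith
    calc 0.2515 * (47 / 63) * (48.6 / (((k : ℝ) + 1) ^ 2 - 1 / 4) + 54.62) *
        ((n : ℝ) * (n + (k + 1))) ≤ 0.2515 * (47 / 63) * (12.96 + 54.62) * (2 * (n : ℝ) ^ 2) := by
          gcongr
      _ ≤ _ := by nlinarith
  have h4 : √((n : ℝ) * (n + (k + 1)) * (1 / (5 / 6) ^ 4 - 1)) ≤ 1.4656 * (n : ℝ) := by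
    rw [Real.sqrt_le_left (by positivity)]
    calc (n : ℝ) * (n + (k + 1)) * (1 / (5 / 6) ^ 4 - 1) ≤ 2 * (n : ℝ) ^ 2 * (1 / (5 / 6) ^ 4 - 1) := by
          gcongr
      _ ≤ _ := by nlinarith
  have h5 := h1.trans h3
  have h6 := h2.trans h4
  linarith

/-- `n ≤ m`, the part away from `1` -/
lemma caseA (n k : ℕ) (hn : 3 ≤ n) {c : ℝ} (hc : 0 ≤ c)
    (h : ((n : ℝ) + ((k : ℝ) + 1) / 2) * ((n : ℝ) * (n + (k + 1))) ≤
      c * n * (((k : ℝ) + 1) ^ 2 - 1 / 4)) :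
    ∫ x in (0 : ℝ)..(5 / 6), ff n k x ≤ √(6.66 / 3 * c) * n := by
  have hn1 : 1 ≤ n := by omega
  have hn' : (3 : ℝ) ≤ n := by exact_mod_cast hn
  have hk : (0 : ℝ) ≤ k := Nat.cast_nonneg k
  have hm : 0 < ((k : ℝ) + 1) ^ 2 - 1 / 4 := by nlinarith
  set m1 : ℝ := ((k : ℝ) + 1) ^ 2 - 1 / 4 with hm1
  set N : ℝ := (n : ℝ) + ((k : ℝ) + 1) / 2 with hN
  have hN0 : 3.5 ≤ N := by rw [hN]; linarith
  have hA : AA n (k + 1) = N ^ 2 - 1 / 4 := by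
    unfold AA
    rw [hN]
    push_cast
    ring
  set S : ℝ := (n : ℝ) * (n + (k + 1)) with hS
  have hSp : 0 < S := by positivity
  have hσ : (0 : ℝ) < 1 / 20 := by norm_num
  have hI1' : ∫ x in (0 : ℝ)..1, wt n k (1 / 20) x * (yv n (k + 1) (x ^ 4)) ^ 2 ≤ N * S / 4 := by
    refine (int_wt n k hn1 hσ).trans ?_
    have h2 := (H1 n k).trans (le_of_eq (int_Jx n k hn1))
    have hA1 : 0 ≤ 2 * (AA n (k + 1) + 3 / 16) := by
      have := AA_pos n (k + 1) hn1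
      linarith
    refine (mul_le_mul_of_nonneg_left h2 hA1).trans ?_
    have e1 : (n : ℝ) * (n + (k + 1)) / (4 * (2 * n + (k + 1))) = S / (8 * N) := by
      rw [hS, hN]
      congr 1
      ring
    rw [e1, hA]
    have e2 : N * S / 4 = 2 * N ^ 2 * (S / (8 * N)) := by
      field_simp
      ring
    rw [e2]
    have : 0 ≤ S / (8 * N) := by positivity
    gcongr
    linarith
  have h1 := left_est0 n k hn1 hσ hI1' (by positivity) (I2 := 26.64 / m1) (by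
    rw [div_le_div_iff₀ (by rw [← hm1]; norm_num; positivity) hm]
    norm_num
    nlinarith)
  refine h1.trans ?_
  have e3 : √(6.66 / 3 * c) * n = √(6.66 / 3 * c * (n : ℝ) ^ 2) := by
    have e4 : √(6.66 / 3 * c * (n : ℝ) ^ 2) = √(6.66 / 3 * c) * √((n : ℝ) ^ 2) :=
      Real.sqrt_mul (by positivity) _
    rw [e4, Real.sqrt_sq (by positivity)]
  rw [e3]
  refine Real.sqrt_le_sqrt ?_
  have e4 : N * S / 4 * (26.64 / m1) = 6.66 * (N * S) / m1 := by ring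
  rw [e4, div_le_iff₀ hm]
  calc 6.66 * (N * S) ≤ 6.66 * (c * n * m1) := by gcongr
    _ ≤ 6.66 / 3 * c * (n : ℝ) ^ 2 * m1 := by
      have : c * n * m1 * 3 ≤ c * n * m1 * n := by gcongr
      nlinarith

/-- `n ≤ m ≤ 4 n` -/
theorem case_three (n k : ℕ) (hn : 3 ≤ n) (h1 : n ≤ k + 1) (h2 : k + 1 ≤ 4 * n) :
    ∫ x in (0 : ℝ)..1, ff n k x ≤ 7.01 * ((n : ℝ) + 1 / 16) - 1 := by
  have hn1 : 1 ≤ n := by omega
  have hn' : (3 : ℝ) ≤ n := by exact_mod_cast hn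
  have h1' : (n : ℝ) ≤ k + 1 := by exact_mod_cast h1
  have h2' : (k : ℝ) + 1 ≤ 4 * n := by exact_mod_cast h2
  set m : ℝ := (k : ℝ) + 1 with hm
  have h3 := caseA n k hn (c := 3.1) (by norm_num) (by
    rw [← hm]
    have a1 : (n : ℝ) + m / 2 ≤ 3 / 2 * m := by linarith
    have a2 : (n : ℝ) * (n + m) ≤ n * (2 * m) := by gcongr; linarith
    calc ((n : ℝ) + m / 2) * ((n : ℝ) * (n + m)) ≤ 3 / 2 * m * (n * (2 * m)) := by gcongr
      _ = 3 * n * m ^ 2 := by ring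
      _ ≤ 3.1 * n * (m ^ 2 - 1 / 4) := by
        have : 3 * m ^ 2 ≤ 3.1 * (m ^ 2 - 1 / 4) := by nlinarith
        nlinarith)
  have h4 := right_est n k hn1 (a := 5 / 6) (by norm_num) (by norm_num)
  rw [split56]
  have h5 : √(6.66 / 3 * 3.1) * (n : ℝ) ≤ 2.63 * n := by
    gcongr
    rw [Real.sqrt_le_left (by positivity)]
    norm_num
  have h6 : √((n : ℝ) * (n + (k + 1)) * (1 / (5 / 6) ^ 4 - 1)) ≤ 2.32 * (n : ℝ) := by
    rw [Real.sqrt_le_left (by positivity), ← hm]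
    calc (n : ℝ) * (n + m) * (1 / (5 / 6) ^ 4 - 1) ≤ (n : ℝ) * (n + 4 * n) * (1 / (5 / 6) ^ 4 - 1) := by
          gcongr
      _ ≤ _ := by nlinarith
  have h7 := h3.trans h5
  have h8 := h4.trans h6
  linarith

/-- `4 n ≤ m ≤ 16 n` -/
theorem case_four (n k : ℕ) (hn : 3 ≤ n) (h1 : 4 * n ≤ k + 1) (h2 : k + 1 ≤ 16 * n) :
    ∫ x in (0 : ℝ)..1, ff n k x ≤ 7.01 * ((n : ℝ) + 1 / 16) - 1 := by
  have hn1 : 1 ≤ n := by omega
  have hn' : (3 : ℝ) ≤ n := by exact_mod_cast hn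
  have h1' : 4 * (n : ℝ) ≤ k + 1 := by exact_mod_cast h1
  have h2' : (k : ℝ) + 1 ≤ 16 * n := by exact_mod_cast h2
  set m : ℝ := (k : ℝ) + 1 with hm
  have h3 := caseA n k hn (c := 0.94) (by norm_num) (by
    rw [← hm]
    have a1 : (n : ℝ) + m / 2 ≤ 3 / 4 * m := by linarith
    have a2 : (n : ℝ) * (n + m) ≤ n * (5 / 4 * m) := by gcongr; linarith
    calc ((n : ℝ) + m / 2) * ((n : ℝ) * (n + m)) ≤ 3 / 4 * m * (n * (5 / 4 * m)) := by gcongr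
      _ = 15 / 16 * n * m ^ 2 := by ring
      _ ≤ 0.94 * n * (m ^ 2 - 1 / 4) := by
        have : 15 / 16 * m ^ 2 ≤ 0.94 * (m ^ 2 - 1 / 4) := by nlinarith
        nlinarith)
  have h4 := right_est n k hn1 (a := 5 / 6) (by norm_num) (by norm_num)
  rw [split56]
  have h5 : √(6.66 / 3 * 0.94) * (n : ℝ) ≤ 1.45 * n := by
    gcongr
    rw [Real.sqrt_le_left (by positivity)]
    norm_num
  have h6 : √((n : ℝ) * (n + (k + 1)) * (1 / (5 / 6) ^ 4 - 1)) ≤ 4.273 * (n : ℝ) := by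
    rw [Real.sqrt_le_left (by positivity), ← hm]
    calc (n : ℝ) * (n + m) * (1 / (5 / 6) ^ 4 - 1) ≤ (n : ℝ) * (n + 16 * n) * (1 / (5 / 6) ^ 4 - 1) := by
          gcongr
      _ ≤ _ := by nlinarith
  have h7 := h3.trans h5
  have h8 := h4.trans h6
  linarith

/-- all `1 ≤ m ≤ 16 n`, `n ≥ 3` -/
theorem UB_mid (n m : ℕ) (hn : 3 ≤ n) (hm : 1 ≤ m) (h : m ≤ 16 * n) : UB n m (En n) := by
  obtain ⟨k, rfl⟩ : ∃ k, m = k + 1 := ⟨m - 1, by omega⟩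
  have h0 := En_ge3 n hn
  have hn' : (3 : ℝ) ≤ n := by exact_mod_cast hn
  have key : ∫ x in (0 : ℝ)..1, ff n k x ≤ 7.01 * ((n : ℝ) + 1 / 16) - 1 := by
    rcases Nat.eq_zero_or_pos k with h1 | h1
    · subst h1
      exact case_one n hn
    · rcases le_or_gt (k + 1) n with h2 | h2
      · exact case_two n k hn h1 h2
      · rcases le_or_gt (k + 1) (4 * n) with h3 | h3
        · exact case_three n k hn h2.le h3
        · exact case_four n k hn h3.le h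
  exact UB_of n k (by linarith) (by linarith)

end Pool.Agent.Q75.BN
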