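import Pool.Agent.Q75.BM.P

/-!
# The differential equation of the kernel polynomial
-/

set_option autoImplicit false

open Polynomial

namespace Pool.Agent.Q75.BN

open Pool.Agent.Q75.BM

lemma iter_X_mul (f : ℝ[X]) (k : ℕ) :
    derivative^[k + 1] (X * f) = X * derivative^[k + 1] f + C ((k : ℝ) + 1) * derivative^[k] f := by
  induction k with
  | zero =>
    simp only [zero_add, Function.iterate_one, Function.iterate_zero, id_eq, derivative_mul,
      derivative_X, one_mul, Nat.cast_zero]
    simp
    ring
  | succ k ih =>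
    rw [Function.iterate_succ_apply', ih]
    simp only [derivative_add, derivative_mul, derivative_X, one_mul, derivative_C, zero_mul,
      zero_add]
    rw [← Function.iterate_succ_apply' derivative (k + 1) f, ← Function.iterate_succ_apply' derivative k f]
    push_cast
    simp only [map_add, map_one, map_natCast]
    ring

/-- the first order equation of `W` -/
lemma W_ode (n e : ℕ) (hn : 1 ≤ n) (he : 1 ≤ e) :
    X * (X * derivative (Wp n e)) - X * derivative (Wp n e)
      = C ((e : ℝ) + ((n : ℝ) - 1)) * (X * Wp n e) - C (e : ℝ) * Wp n e := by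
  unfold Wp
  obtain ⟨k, rfl⟩ : ∃ k, n = k + 1 := ⟨n - 1, by omega⟩
  obtain ⟨j, rfl⟩ : ∃ j, e = j + 1 := ⟨e - 1, by omega⟩
  rw [Nat.add_sub_cancel]
  rcases k with _ | k
  · simp only [pow_zero, mul_one, derivative_X_pow, Nat.add_sub_cancel]
    push_cast
    simp only [map_add, map_one, map_natCast, map_sub]
    ring
  · simp only [derivative_mul, derivative_X_pow, derivative_X_sub_C_pow, Nat.add_sub_cancel]
    push_cast
    simp only [map_add, map_one, map_natCast, map_sub]
    ring

/-- the second order equation of `V = W^(n)` -/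
lemma V_ode (n e : ℕ) (hn : 1 ≤ n) (he : 1 ≤ e) :
    X * (X * derivative^[n + 2] (Wp n e)) - X * derivative^[n + 2] (Wp n e)
      + C ((n : ℝ) + 2 - (e : ℝ) + 1) * (X * derivative^[n + 1] (Wp n e))
      + C ((e : ℝ) - (n : ℝ) - 1) * derivative^[n + 1] (Wp n e)
      = C (((n : ℝ) + 1) * ((e : ℝ) - 1)) * derivative^[n] (Wp n e) := by
  have h := congrArg (derivative^[n + 1]) (W_ode n e hn he)
  set W := Wp n e with hW
  obtain ⟨k, rfl⟩ : ∃ k, n = k + 1 := ⟨n - 1, by omega⟩
  have hs1 : ∀ (j : ℕ), derivative^[j] (derivative W) = derivative^[j + 1] W := fun j =>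
    (Function.iterate_succ_apply derivative j W).symm
  rw [iterate_derivative_sub, iterate_derivative_sub, iter_X_mul, iter_X_mul, iter_X_mul,
    iterate_derivative_C_mul, iterate_derivative_C_mul, iter_X_mul, hs1, hs1, hs1] at h
  push_cast at h ⊢
  simp only [map_add, map_one, map_natCast, map_sub, map_mul, map_ofNat] at h ⊢
  linear_combination h

lemma X_mul_der (m : ℕ) (b : ℝ[X]) :
    X * derivative (X ^ m * b) = X ^ m * (C (m : ℝ) * b + X * derivative b) := by
  rcases m with _ | m
  · simp
  · rw [derivative_mul, derivative_X_pow, Nat.add_sub_cancel]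
    simp only [map_natCast]
    ring

/-- Jacobi's equation -/
theorem ode (n m : ℕ) (hn : 1 ≤ n) :
    X * derivative (derivative (pp n (n + m))) - X * (X * derivative (derivative (pp n (n + m))))
      + C ((m : ℝ) + 1) * derivative (pp n (n + m))
      - C ((m : ℝ) + 3) * (X * derivative (pp n (n + m)))
      + C (((n : ℝ) - 1) * ((n : ℝ) + m + 1)) * pp n (n + m) = 0 := by
  set y := pp n (n + m) with hy
  have h0 := V_ode n (n + m) hn (by omega)
  have hV : derivative^[n] (Wp n (n + m)) = C (((n - 1).factorial : ℝ)) * (X ^ m * y) := by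
    have := deriv_Wp n (n + m) hn (by omega)
    rwa [Nat.add_sub_cancel_left] at this
  have hV1 : derivative^[n + 1] (Wp n (n + m)) = C (((n - 1).factorial : ℝ)) *
      derivative (X ^ m * y) := by
    rw [Function.iterate_succ_apply', hV, derivative_C_mul]
  have hV2 : derivative^[n + 2] (Wp n (n + m)) = C (((n - 1).factorial : ℝ)) *
      derivative (derivative (X ^ m * y)) := by
    rw [Function.iterate_succ_apply', hV1, derivative_C_mul]
  rw [hV, hV1, hV2] at h0
  have hc : (C (((n - 1).factorial : ℝ)) : ℝ[X]) ≠ 0 := by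
    rw [ne_eq, C_eq_zero]
    positivity
  have e1 := X_mul_der m y
  have e2 : X * (X * derivative (derivative (X ^ m * y))) =
      X ^ m * (C (m : ℝ) * (C (m : ℝ) * y + X * derivative y) +
        X * (C (m : ℝ) * derivative y + (derivative y + X * derivative (derivative y)))) -
        X ^ m * (C (m : ℝ) * y + X * derivative y) := by
    have e3 : derivative (X * derivative (X ^ m * y)) =
        derivative (X ^ m * y) + X * derivative (derivative (X ^ m * y)) := by
      rw [derivative_mul, derivative_X, one_mul]
    have hb : derivative (C (m : ℝ) * y + X * derivative y)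
        = C (m : ℝ) * derivative y + (derivative y + X * derivative (derivative y)) := by
      rw [derivative_add, derivative_C_mul, derivative_mul, derivative_X, one_mul]
    have e4 := X_mul_der m (C (m : ℝ) * y + X * derivative y)
    rw [hb, ← e1, e3] at e4
    linear_combination e4 - e1
  have hX : (X : ℝ[X]) ^ m ≠ 0 := pow_ne_zero _ X_ne_zero
  have h1 : C (((n - 1).factorial : ℝ)) * (X ^ m * (X * (X * derivative (derivative y)
      - X * (X * derivative (derivative y)) + C ((m : ℝ) + 1) * derivative y
      - C ((m : ℝ) + 3) * (X * derivative y)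
      + C (((n : ℝ) - 1) * ((n : ℝ) + m + 1)) * y))) = 0 := by
    push_cast at h0
    simp only [map_add, map_one, map_natCast, map_sub, map_mul, map_ofNat] at h0 e1 e2 ⊢
    linear_combination (-X) * h0 + ((((n - 1).factorial : ℝ[X]) * (X - 1))) * e2 +
      (((n - 1).factorial : ℝ[X]) * (((n : ℝ[X]) + 2 - (n + m) + 1) * X + ((n + m) - n - 1))) * e1
  have h2 := (mul_eq_zero.1 h1).resolve_left hc
  have h3 := (mul_eq_zero.1 h2).resolve_left hX
  exact (mul_eq_zero.1 h3).resolve_left X_ne_zero

/-- Jacobi's equation, evaluated -/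
theorem ode_eval (n m : ℕ) (hn : 1 ≤ n) (u : ℝ) :
    u * (1 - u) * (derivative (derivative (pp n (n + m)))).eval u
      + ((m : ℝ) + 1 - ((m : ℝ) + 3) * u) * (derivative (pp n (n + m))).eval u
      + ((n : ℝ) - 1) * ((n : ℝ) + m + 1) * (pp n (n + m)).eval u = 0 := by
  have h := congrArg (eval u) (ode n m hn)
  simp only [eval_add, eval_sub, eval_mul, eval_X, eval_C, eval_zero] at h
  linear_combination h

end Pool.Agent.Q75.BN
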