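import Pool.Agent.Q75.BN.P2

/-!
# The energy identity
-/

set_option autoImplicit false

open Polynomial MeasureTheory intervalIntegral Set

namespace Pool.Agent.Q75.BN

open Pool.Agent.Q75.BM (pp)

noncomputable def yv (n m : ℕ) (u : ℝ) : ℝ := (pp n (n + m)).eval u

noncomputable def yd (n m : ℕ) (u : ℝ) : ℝ := (derivative (pp n (n + m))).eval u

noncomputable def el (m : ℕ) (u : ℝ) : ℝ := ((m : ℝ) * (1 - u) - u) / 2

noncomputable def qv (n m : ℕ) (u : ℝ) : ℝ := el m u * yv n m u + u * (1 - u) * yd n m u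

noncomputable def AA (n m : ℕ) : ℝ := ((n : ℝ) + m / 2) ^ 2 - 1 / 4

noncomputable def DD (n m : ℕ) (u : ℝ) : ℝ := AA n m * u * (1 - u) - (m : ℝ) ^ 2 * (1 - u) / 4 - u / 4

lemma yv_cont (n m : ℕ) : Continuous (yv n m) := (pp n (n + m)).continuous

lemma yd_cont (n m : ℕ) : Continuous (yd n m) := (derivative (pp n (n + m))).continuous

lemma qv_cont (n m : ℕ) : Continuous (qv n m) := by
  have h1 := yv_cont n m
  have h2 := yd_cont n m
  unfold qv el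
  fun_prop

lemma yv_der (n m : ℕ) (u : ℝ) : HasDerivAt (yv n m) (yd n m u) u :=
  (pp n (n + m)).hasDerivAt u

lemma el_der (m : ℕ) (u : ℝ) : HasDerivAt (el m) (-((m : ℝ) + 1) / 2) u := by
  unfold el
  have h : HasDerivAt (fun u : ℝ => ((m : ℝ) * (1 - u) - u) / 2) (((m : ℝ) * (0 - 1) - 1) / 2) u :=
    ((((hasDerivAt_const u (1 : ℝ)).sub (hasDerivAt_id u)).const_mul (m : ℝ)).sub
      (hasDerivAt_id u)).div_const 2
  convert h using 1
  ring

lemma qv_der (n m : ℕ) (hn : 1 ≤ n) (u : ℝ) : HasDerivAt (qv n m)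
    (-(((m : ℝ) + 1) / 2 + ((n : ℝ) - 1) * ((n : ℝ) + m + 1)) * yv n m u - el m u * yd n m u) u := by
  have h0 := ode_eval n m hn u
  have hy2 : HasDerivAt (yd n m) ((derivative (derivative (pp n (n + m)))).eval u) u :=
    (derivative (pp n (n + m))).hasDerivAt u
  have hP : HasDerivAt (fun u : ℝ => u * (1 - u)) (1 * (1 - u) + u * (0 - 1)) u :=
    (hasDerivAt_id u).mul ((hasDerivAt_const u (1 : ℝ)).sub (hasDerivAt_id u))
  have h : HasDerivAt (qv n m) ((-((m : ℝ) + 1) / 2) * yv n m u + el m u * yd n m u +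
      ((1 * (1 - u) + u * (0 - 1)) * yd n m u +
        u * (1 - u) * (derivative (derivative (pp n (n + m)))).eval u)) u :=
    ((el_der m u).mul (yv_der n m u)).add (hP.mul hy2)
  convert h using 1
  unfold yv yd el
  linear_combination (-1 : ℝ) * h0

/-- abstract energy identity -/
lemma energy {Y Q E g0 g1 g2 D : ℝ → ℝ} {x c l g3 D1 : ℝ}
    (hY : HasDerivAt Y (c * (Q x - l * Y x)) x)
    (hQ : HasDerivAt Q (c * (-(D x) * Y x - l * Q x)) x)
    (hE : HasDerivAt E (c * (2 * l * E x)) x)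
    (h0 : HasDerivAt g0 (c * g1 x) x) (h1 : HasDerivAt g1 (c * g2 x) x)
    (h2 : HasDerivAt g2 (c * g3) x) (hD : HasDerivAt D (c * D1) x) :
    HasDerivAt (fun x => E x * (1 / 2 * (g0 x * (Q x) ^ 2) + 1 / 2 * (g0 x * (D x * (Y x) ^ 2))
      - 1 / 2 * (g1 x * (Y x * Q x)) + 1 / 4 * (g2 x * (Y x) ^ 2)))
      (c * (E x * (Y x) ^ 2 * (g1 x * D x + 1 / 2 * (g0 x * D1) + 1 / 4 * g3))) x := by
  have hQ2 := hQ.pow 2
  have hY2 := hY.pow 2
  have k1 := (h0.mul hQ2).const_mul (1 / 2)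
  have k2 := (h0.mul (hD.mul hY2)).const_mul (1 / 2)
  have k3 := (h1.mul (hY.mul hQ)).const_mul (1 / 2)
  have k4 := (h2.mul hY2).const_mul (1 / 4)
  have h := hE.mul (((k1.add k2).sub k3).add k4)
  refine h.congr_deriv ?_
  simp only [Pi.pow_apply, Pi.mul_apply, Pi.add_apply, Pi.sub_apply]
  push_cast
  ring

lemma x4_der (x : ℝ) : HasDerivAt (fun x : ℝ => x ^ 4) (4 * x ^ 3) x := by
  simpa using hasDerivAt_pow 4 x

section
variable {n m : ℕ} {x : ℝ}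

lemma Y_der (hx0 : 0 < x) (hx1 : x < 1) : HasDerivAt (fun x : ℝ => yv n m (x ^ 4))
    (4 / (x * (1 - x ^ 4)) * (qv n m (x ^ 4) - el m (x ^ 4) * yv n m (x ^ 4))) x := by
  have h := (yv_der n m (x ^ 4)).comp x (x4_der x)
  refine h.congr_deriv ?_
  have h4 : x ^ 4 < 1 := pow_lt_one₀ hx0.le hx1 (by norm_num)
  have h5 : 1 - x ^ 4 ≠ 0 := by linarith
  unfold qv
  field_simp
  ring

lemma Q_der (hn : 1 ≤ n) (hx0 : 0 < x) (hx1 : x < 1) : HasDerivAt (fun x : ℝ => qv n m (x ^ 4))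
    (4 / (x * (1 - x ^ 4)) * (-(DD n m (x ^ 4)) * yv n m (x ^ 4) -
      el m (x ^ 4) * qv n m (x ^ 4))) x := by
  have h := (qv_der n m hn (x ^ 4)).comp x (x4_der x)
  refine h.congr_deriv ?_
  have h4 : x ^ 4 < 1 := pow_lt_one₀ hx0.le hx1 (by norm_num)
  have h5 : 1 - x ^ 4 ≠ 0 := by linarith
  unfold qv DD el AA
  field_simp
  ring

lemma E_der (hx0 : 0 < x) (hx1 : x < 1) : HasDerivAt (fun x : ℝ => (1 - x ^ 4) * x ^ (4 * m))
    (4 / (x * (1 - x ^ 4)) * (2 * el m (x ^ 4) * ((1 - x ^ 4) * x ^ (4 * m)))) x := by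
  have h1 : HasDerivAt (fun x : ℝ => 1 - x ^ 4) (0 - 4 * x ^ 3) x :=
    (hasDerivAt_const x (1 : ℝ)).sub (x4_der x)
  have h2 : HasDerivAt (fun x : ℝ => (x ^ 4) ^ m) ((m : ℝ) * (x ^ 4) ^ (m - 1) * (4 * x ^ 3)) x :=
    (x4_der x).pow m
  have h4 : x ^ 4 < 1 := pow_lt_one₀ hx0.le hx1 (by norm_num)
  have h5 : 1 - x ^ 4 ≠ 0 := by linarith
  simp only [pow_mul]
  refine (h1.mul h2).congr_deriv ?_
  unfold el
  rcases m with _ | k
  · simp
    field_simp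
  · rw [Nat.add_sub_cancel, pow_succ (x ^ 4) k]
    push_cast
    field_simp
    ring

lemma D_der (hx0 : 0 < x) (hx1 : x < 1) : HasDerivAt (fun x : ℝ => DD n m (x ^ 4))
    (4 / (x * (1 - x ^ 4)) * (x ^ 4 * (1 - x ^ 4) *
      (AA n m * (1 - 2 * x ^ 4) + ((m : ℝ) ^ 2 - 1) / 4))) x := by
  have h4 : x ^ 4 < 1 := pow_lt_one₀ hx0.le hx1 (by norm_num)
  have h5 : 1 - x ^ 4 ≠ 0 := by linarith
  have h : HasDerivAt (DD n m) (AA n m * (1 - 2 * x ^ 4) + ((m : ℝ) ^ 2 - 1) / 4) (x ^ 4) := by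
    unfold DD
    have h1 : HasDerivAt (fun u : ℝ => 1 - u) (0 - 1) (x ^ 4) :=
      (hasDerivAt_const _ (1 : ℝ)).sub (hasDerivAt_id _)
    have h2 := ((((hasDerivAt_id (x ^ 4)).const_mul (AA n m)).mul h1).sub
      ((h1.const_mul ((m : ℝ) ^ 2)).div_const 4)).sub ((hasDerivAt_id (x ^ 4)).div_const 4)
    refine h2.congr_deriv ?_
    simp only [id_eq]
    ring
  have h' := HasDerivAt.comp (h := fun x : ℝ => x ^ 4) x h (x4_der x)
  refine h'.congr_deriv ?_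
  field_simp

end

end Pool.Agent.Q75.BN
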