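import Pool.Agent.Q75.BN.V

/-!
# The energy identity with the weight `1 / (x (x + σ))`, `x = u ^ (1/4)`
-/

set_option autoImplicit false

open Polynomial MeasureTheory intervalIntegral Set

namespace Pool.Agent.Q75.BN

open Pool.Agent.Q75.BM (pp)

noncomputable def g0 (σ x : ℝ) : ℝ := 1 / (x * (x + σ))

noncomputable def g1 (σ x : ℝ) : ℝ := -((1 - x ^ 4) * (2 * x + σ)) / (4 * (x * (x + σ) ^ 2))

noncomputable def g2 (σ x : ℝ) : ℝ :=
  ((1 - x ^ 4) * ((1 - x ^ 4) * (4 * x ^ 2 + 3 * σ * x + σ ^ 2) + 4 * (x ^ 4 * ((2 * x + σ) * (x + σ))))) /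
    (16 * (x * (x + σ) ^ 3))

noncomputable def g3 (σ x : ℝ) : ℝ :=
  ((1 - x ^ 4) * (-((1 - x ^ 4) ^ 2 * (8 * x ^ 3 + 5 * x ^ 2 * σ + 4 * x * σ ^ 2 + σ ^ 3))
    - 12 * (x ^ 4 * (1 - x ^ 4)) * (4 * x ^ 2 + 3 * x * σ + σ ^ 2) * (x + σ)
    + 16 * (x ^ 4 * (1 - 2 * x ^ 4)) * (2 * x + σ) * (x + σ) ^ 2)) / (64 * (x * (x + σ) ^ 4))

section
variable {σ x : ℝ}

lemma e1_der (x : ℝ) : HasDerivAt (fun x : ℝ => 1 - x ^ 4) (-(4 * x ^ 3)) x := by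
  refine ((hasDerivAt_const x (1 : ℝ)).sub (x4_der x)).congr_deriv ?_
  ring

lemma s_der (σ x : ℝ) : HasDerivAt (fun x : ℝ => x + σ) 1 x := by
  refine ((hasDerivAt_id x).add_const σ).congr_deriv ?_
  rfl

lemma s2_der (σ x : ℝ) : HasDerivAt (fun x : ℝ => 2 * x + σ) 2 x := by
  refine (((hasDerivAt_id x).const_mul 2).add_const σ).congr_deriv ?_
  norm_num

lemma g0_der (hσ : 0 < σ) (hx0 : 0 < x) (hx1 : x < 1) :
    HasDerivAt (g0 σ) (4 / (x * (1 - x ^ 4)) * g1 σ x) x := by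
  have h4 : x ^ 4 < 1 := pow_lt_one₀ hx0.le hx1 (by norm_num)
  have h5 : 1 - x ^ 4 ≠ 0 := by linarith
  have h6 : x + σ ≠ 0 := by positivity
  unfold g0 g1
  have h := (hasDerivAt_const x (1 : ℝ)).div ((hasDerivAt_id x).mul (s_der σ x))
    (by simp only [Pi.mul_apply, id_eq]; positivity)
  refine h.congr_deriv ?_
  simp only [Pi.mul_apply, id_eq]
  field_simp
  ring

lemma g1_der (hσ : 0 < σ) (hx0 : 0 < x) (hx1 : x < 1) :
    HasDerivAt (g1 σ) (4 / (x * (1 - x ^ 4)) * g2 σ x) x := by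
  have h4 : x ^ 4 < 1 := pow_lt_one₀ hx0.le hx1 (by norm_num)
  have h5 : 1 - x ^ 4 ≠ 0 := by linarith
  have h6 : x + σ ≠ 0 := by positivity
  unfold g1 g2
  have hN := ((e1_der x).mul (s2_der σ x)).neg
  have hD := ((hasDerivAt_id x).mul ((s_der σ x).pow 2)).const_mul 4
  have h := hN.div hD (by simp only [Pi.mul_apply, Pi.pow_apply, id_eq]; positivity)
  refine h.congr_deriv ?_
  simp only [Pi.mul_apply, Pi.pow_apply, Pi.neg_apply, id_eq]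
  push_cast
  field_simp
  ring

lemma g2_der (hσ : 0 < σ) (hx0 : 0 < x) (hx1 : x < 1) :
    HasDerivAt (g2 σ) (4 / (x * (1 - x ^ 4)) * g3 σ x) x := by
  have h4 : x ^ 4 < 1 := pow_lt_one₀ hx0.le hx1 (by norm_num)
  have h5 : 1 - x ^ 4 ≠ 0 := by linarith
  have h6 : x + σ ≠ 0 := by positivity
  unfold g2 g3
  have hq : HasDerivAt (fun x : ℝ => 4 * x ^ 2 + 3 * σ * x + σ ^ 2) (8 * x + 3 * σ) x := by
    refine (((((hasDerivAt_id x).pow 2).const_mul 4).add ((hasDerivAt_id x).const_mul (3 * σ))).add_const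
      (σ ^ 2)).congr_deriv ?_
    simp only [id_eq]
    push_cast
    ring
  have hN := (e1_der x).mul (((e1_der x).mul hq).add
    (((x4_der x).mul ((s2_der σ x).mul (s_der σ x))).const_mul 4))
  have hD := ((hasDerivAt_id x).mul ((s_der σ x).pow 3)).const_mul 16
  have h := hN.div hD (by simp only [Pi.mul_apply, Pi.pow_apply, id_eq]; positivity)
  refine h.congr_deriv ?_
  simp only [Pi.mul_apply, Pi.pow_apply, Pi.add_apply, id_eq]
  push_cast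
  field_simp
  ring

end

/-- the polynomial `Ω` -/
noncomputable def Om (A m s e : ℝ) : ℝ :=
  A * (1 - s) * e - A * e ^ 2 * (3 - s) + m ^ 2 / 4 * ((1 + s) + (1 - s) * e) - (1 - s) * e / 4
    + 1 / 64 * (-(1 + s + 6 * s ^ 3) + e * (6 + 6 * s - 24 * s ^ 2 + 12 * s ^ 3)
      + e ^ 2 * (-21 - 21 * s + 24 * s ^ 2 - 6 * s ^ 3))

lemma Om_eq {σ x : ℝ} (hσ : 0 < σ) (hx0 : 0 < x) (hx1 : x < 1) (n m : ℕ) :
    4 * x * (g1 σ x * DD n m (x ^ 4) + 1 / 2 * (g0 σ x * (x ^ 4 * (1 - x ^ 4) *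
      (AA n m * (1 - 2 * x ^ 4) + ((m : ℝ) ^ 2 - 1) / 4))) + 1 / 4 * g3 σ x)
    = (1 - x ^ 4) / (x + σ) * Om (AA n m) m (x / (x + σ)) (x ^ 4) := by
  have h6 : x + σ ≠ 0 := by positivity
  unfold g1 g0 g3 DD Om
  generalize AA n m = A
  field_simp
  ring

/-- the pointwise inequality -/
lemma Om_ge {A m s e : ℝ} (hA : 0 ≤ A) (hm : 1 ≤ m) (hs0 : 0 < s) (hs1 : s ≤ 1) (he0 : 0 ≤ e)
    (he1 : e ≤ 1) :
    A * (1 - s) * e + (1 + s) * ((m ^ 2 - 1 / 4) / 4) - 2 * (A + 3 / 16) * (e ^ 2 / s)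
      ≤ Om A m s e := by
  unfold Om
  have h1 : A * e ^ 2 * (3 - s) ≤ 2 * A * (e ^ 2 / s) := by
    have h2 : e ^ 2 / s * s = e ^ 2 := div_mul_cancel₀ _ hs0.ne'
    have h3 : 0 ≤ e ^ 2 / s := by positivity
    have h4 : e ^ 2 * (3 - s) ≤ 2 * (e ^ 2 / s) := by
      have h5 : (1 - s) * (2 - s) ≥ 0 := mul_nonneg (by linarith) (by linarith)
      nlinarith
    nlinarith
  have h2 : e ^ 2 * (21 + 21 * s - 24 * s ^ 2 + 6 * s ^ 3) ≤ 24 * (e ^ 2 / s) := by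
    have h2 : e ^ 2 / s * s = e ^ 2 := div_mul_cancel₀ _ hs0.ne'
    have h3 : 0 ≤ e ^ 2 / s := by positivity
    have h4 : s * (21 + 21 * s - 24 * s ^ 2 + 6 * s ^ 3) ≤ 24 := by
      have h5 : 0 ≤ (1 - s) * (24 + 3 * s - 18 * s ^ 2 + 6 * s ^ 3) := by
        refine mul_nonneg (by linarith) ?_
        nlinarith [sq_nonneg s, pow_pos hs0 3]
      nlinarith
    calc e ^ 2 * (21 + 21 * s - 24 * s ^ 2 + 6 * s ^ 3)
        = e ^ 2 / s * (s * (21 + 21 * s - 24 * s ^ 2 + 6 * s ^ 3)) := by rw [← mul_assoc, h2]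
      _ ≤ e ^ 2 / s * 24 := mul_le_mul_of_nonneg_left h4 h3
      _ = _ := mul_comm _ _
  have h3 : 0 ≤ (m ^ 2 - 1) / 4 * ((1 - s) * e) := by
    refine mul_nonneg ?_ (mul_nonneg (by linarith) he0)
    nlinarith
  have h4 : 0 ≤ e * (6 + 6 * s - 24 * s ^ 2 + 12 * s ^ 3) := by
    refine mul_nonneg he0 ?_
    have h5 : 6 + 6 * s - 24 * s ^ 2 + 12 * s ^ 3 = 6 * (1 - s) * (1 + 2 * (s * (1 - s))) := by ring
    rw [h5]
    have : 0 ≤ s * (1 - s) := mul_nonneg hs0.le (by linarith)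
    exact mul_nonneg (by linarith) (by linarith)
  have h5 : 0 ≤ 3 + 3 * s - 6 * s ^ 3 := by nlinarith [pow_le_one₀ hs0.le hs1 (n := 2), mul_pos hs0 hs0]
  nlinarith

end Pool.Agent.Q75.BN
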