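import Pool.Agent.Q75.BN.V3a

/-!
# The weighted `L²` inequality for the kernel polynomial
-/

set_option autoImplicit false

open Polynomial MeasureTheory intervalIntegral Set

namespace Pool.Agent.Q75.BN

open Pool.Agent.Q75.BM (pp)

lemma s_cont {σ : ℝ} (hσ : 0 < σ) : ContinuousOn (fun x : ℝ => x / (x + σ)) (Icc 0 1) := by
  refine continuousOn_id.div (by fun_prop) fun x hx => ?_
  have := hx.1
  positivity

lemma Om_cont {S : Set ℝ} (A m : ℝ) {u v : ℝ → ℝ} (hu : ContinuousOn u S) (hv : ContinuousOn v S) :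
    ContinuousOn (fun x => Om A m (u x) (v x)) S := by
  have h2 : ContinuousOn (fun x => u x ^ 2) S := hu.pow 2
  have h3 : ContinuousOn (fun x => u x ^ 3) S := hu.pow 3
  have h4 : ContinuousOn (fun x => v x ^ 2) S := hv.pow 2
  unfold Om
  fun_prop

lemma inv_cont {σ : ℝ} (hσ : 0 < σ) : ContinuousOn (fun x : ℝ => (1 - x ^ 4) / (x + σ)) (Icc 0 1) := by
  refine ContinuousOn.div (by fun_prop) (by fun_prop) fun x hx => ?_
  have := hx.1
  positivity

lemma Fp_cont (n k : ℕ) {σ : ℝ} (hσ : 0 < σ) : ContinuousOn (Fp n k σ) (Icc 0 1) := by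
  unfold Fp
  have h1 : ContinuousOn (fun x : ℝ => Om (AA n (k + 1)) ((k : ℝ) + 1) (x / (x + σ)) (x ^ 4))
      (Icc 0 1) := Om_cont _ _ (s_cont hσ) (by fun_prop)
  have h2 : Continuous fun x : ℝ => (yv n (k + 1) (x ^ 4)) ^ 2 :=
    ((yv_cont n (k + 1)).comp (by fun_prop)).pow 2
  exact ContinuousOn.mul (Continuous.continuousOn (by fun_prop))
    (((inv_cont hσ).mul h1).mul h2.continuousOn)

lemma Zf_cont (n k : ℕ) {σ : ℝ} (hσ : 0 < σ) : ContinuousOn (Zf n k σ) (Icc 0 1) := by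
  unfold Zf
  have hy : Continuous fun x : ℝ => yv n (k + 1) (x ^ 4) := (yv_cont n (k + 1)).comp (by fun_prop)
  have hq : Continuous fun x : ℝ => qv n (k + 1) (x ^ 4) := (qv_cont n (k + 1)).comp (by fun_prop)
  have hd : Continuous fun x : ℝ => DD n (k + 1) (x ^ 4) := (DD_cont n (k + 1)).comp (by fun_prop)
  refine ContinuousOn.mul (by fun_prop) ((inv_cont hσ).mul ?_)
  refine ((ContinuousOn.add (Continuous.continuousOn (by fun_prop)) ?_).add ?_)
  · refine ContinuousOn.mul (ContinuousOn.div (by fun_prop) (by fun_prop) fun x hx => ?_)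
      (hy.mul hq).continuousOn
    have := hx.1
    positivity
  · refine ContinuousOn.mul (ContinuousOn.div (by fun_prop) (by fun_prop) fun x hx => ?_)
      (hy.pow 2).continuousOn
    have := hx.1
    positivity

theorem int_Fp (n k : ℕ) (hn : 1 ≤ n) {σ : ℝ} (hσ : 0 < σ) :
    ∫ x in (0 : ℝ)..1, Fp n k σ x = 0 := by
  have h := integral_eq_sub_of_hasDerivAt_of_le (a := 0) (b := 1) zero_le_one (Zf_cont n k hσ)
    (fun x hx => Zf_der n k hn hσ hx.1 hx.2)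
    ((Fp_cont n k hσ).mono (by rw [uIcc_of_le zero_le_one])).intervalIntegrable
  rw [h]
  unfold Zf
  simp

/-- the weight -/
noncomputable def wt (n k : ℕ) (σ x : ℝ) : ℝ :=
  x ^ (4 * k + 2) * ((1 - x ^ 4) / (x + σ) * (AA n (k + 1) * (1 - x / (x + σ)) * x ^ 4 +
    (1 + x / (x + σ)) * ((((k : ℝ) + 1) ^ 2 - 1 / 4) / 4)))

lemma wt_cont (n k : ℕ) {σ : ℝ} (hσ : 0 < σ) : ContinuousOn (wt n k σ) (Icc 0 1) := by
  unfold wt
  have h1 := s_cont hσ
  exact ContinuousOn.mul (by fun_prop) ((inv_cont hσ).mul (by fun_prop))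

lemma AA_pos (n m : ℕ) (hn : 1 ≤ n) : 0 < AA n m := by
  unfold AA
  have h1 : (1 : ℝ) ≤ n := by exact_mod_cast hn
  have h2 : (0 : ℝ) ≤ m := Nat.cast_nonneg m
  nlinarith

/-- the weighted inequality -/
theorem int_wt (n k : ℕ) (hn : 1 ≤ n) {σ : ℝ} (hσ : 0 < σ) :
    ∫ x in (0 : ℝ)..1, wt n k σ x * (yv n (k + 1) (x ^ 4)) ^ 2 ≤
      2 * (AA n (k + 1) + 3 / 16) *
        ∫ x in (0 : ℝ)..1, x ^ (4 * k + 9) * (1 - x ^ 4) * (yv n (k + 1) (x ^ 4)) ^ 2 := by
  have hy : Continuous fun x : ℝ => yv n (k + 1) (x ^ 4) := (yv_cont n (k + 1)).comp (by fun_prop)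
  have hI : ∀ f : ℝ → ℝ, ContinuousOn f (Icc 0 1) → IntervalIntegrable f volume 0 1 := fun f hf =>
    (hf.mono (by rw [uIcc_of_le zero_le_one])).intervalIntegrable
  have i1 : IntervalIntegrable (fun x : ℝ => wt n k σ x * (yv n (k + 1) (x ^ 4)) ^ 2) volume 0 1 :=
    hI _ ((wt_cont n k hσ).mul (hy.pow 2).continuousOn)
  have i2 := hI _ (Fp_cont n k hσ)
  have i3 : IntervalIntegrable (fun x : ℝ => x ^ (4 * k + 9) * (1 - x ^ 4) *
      (yv n (k + 1) (x ^ 4)) ^ 2) volume 0 1 := by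
    refine hI _ (Continuous.continuousOn ?_)
    fun_prop
  have h0 := int_Fp n k hn hσ
  have hmono : ∫ x in (0 : ℝ)..1, (wt n k σ x * (yv n (k + 1) (x ^ 4)) ^ 2
      - 2 * (AA n (k + 1) + 3 / 16) * (x ^ (4 * k + 9) * (1 - x ^ 4) *
        (yv n (k + 1) (x ^ 4)) ^ 2)) ≤ ∫ x in (0 : ℝ)..1, Fp n k σ x := by
    refine integral_mono_on_of_le_Ioo zero_le_one (i1.sub (i3.const_mul _)) i2 fun x hx => ?_
    have hx0 := hx.1
    have hx1 := hx.2
    have hs : 0 < x + σ := by positivity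
    have h1 := Om_ge (A := AA n (k + 1)) (m := (k : ℝ) + 1) (s := x / (x + σ)) (e := x ^ 4)
      (AA_pos n (k + 1) hn).le (by have : (0 : ℝ) ≤ k := Nat.cast_nonneg k
                                   linarith)
      (by positivity) ((div_le_one hs).2 (by linarith)) (by positivity)
      (pow_le_one₀ hx0.le hx1.le)
    have h2 : 0 ≤ x ^ (4 * k + 2) * ((1 - x ^ 4) / (x + σ)) * (yv n (k + 1) (x ^ 4)) ^ 2 := by
      have h4 : x ^ 4 ≤ 1 := pow_le_one₀ hx0.le hx1.le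
      have : 0 ≤ 1 - x ^ 4 := by linarith
      positivity
    have h3 := mul_le_mul_of_nonneg_left h1 h2
    have e1 : wt n k σ x * (yv n (k + 1) (x ^ 4)) ^ 2
      - 2 * (AA n (k + 1) + 3 / 16) * (x ^ (4 * k + 9) * (1 - x ^ 4) *
        (yv n (k + 1) (x ^ 4)) ^ 2) = x ^ (4 * k + 2) * ((1 - x ^ 4) / (x + σ)) *
          (yv n (k + 1) (x ^ 4)) ^ 2 * (AA n (k + 1) * (1 - x / (x + σ)) * x ^ 4 +
          (1 + x / (x + σ)) * ((((k : ℝ) + 1) ^ 2 - 1 / 4) / 4)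
          - 2 * (AA n (k + 1) + 3 / 16) * ((x ^ 4) ^ 2 / (x / (x + σ)))) := by
      unfold wt
      have e2 : (x ^ 4) ^ 2 / (x / (x + σ)) = x ^ 7 * (x + σ) := by
        field_simp
      have e3 : x ^ (4 * k + 9) = x ^ (4 * k + 2) * x ^ 7 := by rw [← pow_add]
      rw [e2, e3]
      field_simp
    rw [e1]
    refine h3.trans (le_of_eq ?_)
    unfold Fp
    ring
  rw [h0, integral_sub i1 (i3.const_mul _), intervalIntegral.integral_const_mul] at hmono
  linarith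

/-- the first moment -/
theorem int_mom (n k : ℕ) (hn : 1 ≤ n) :
    ∫ x in (0 : ℝ)..1, x ^ (4 * k + 7) * (1 - x ^ 4) * (yv n (k + 1) (x ^ 4)) ^ 2 *
      (AA n (k + 1) * (1 - 2 * x ^ 4) + (((k : ℝ) + 1) ^ 2 - 1) / 4) = 0 := by
  have hy : Continuous fun x : ℝ => yv n (k + 1) (x ^ 4) := (yv_cont n (k + 1)).comp (by fun_prop)
  have hq : Continuous fun x : ℝ => qv n (k + 1) (x ^ 4) := (qv_cont n (k + 1)).comp (by fun_prop)
  have hd : Continuous fun x : ℝ => DD n (k + 1) (x ^ 4) := (DD_cont n (k + 1)).comp (by fun_prop)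
  set Z : ℝ → ℝ := fun x => (1 - x ^ 4) * x ^ (4 * (k + 1)) * (1 / 2 * (qv n (k + 1) (x ^ 4)) ^ 2 +
    1 / 2 * (DD n (k + 1) (x ^ 4) * (yv n (k + 1) (x ^ 4)) ^ 2)) with hZ
  have hZc : Continuous Z := by
    rw [hZ]
    fun_prop
  have hder : ∀ x ∈ Ioo (0 : ℝ) 1, HasDerivAt Z (2 * (x ^ (4 * k + 7) * (1 - x ^ 4) *
      (yv n (k + 1) (x ^ 4)) ^ 2 *
      (AA n (k + 1) * (1 - 2 * x ^ 4) + (((k : ℝ) + 1) ^ 2 - 1) / 4))) x := by
    intro x hx
    have hx0 := hx.1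
    have hx1 := hx.2
    have h4 : x ^ 4 < 1 := pow_lt_one₀ hx0.le hx1 (by norm_num)
    have h5 : 1 - x ^ 4 ≠ 0 := by linarith
    have hY := Y_der (n := n) (m := k + 1) hx0 hx1
    have hQ := Q_der (n := n) (m := k + 1) hn hx0 hx1
    have hE := E_der (m := k + 1) hx0 hx1
    have hD := D_der (n := n) (m := k + 1) hx0 hx1
    have k0 : HasDerivAt (fun _ : ℝ => (1 : ℝ)) (4 / (x * (1 - x ^ 4)) * (fun _ : ℝ => (0 : ℝ)) x) x := by
      simpa using hasDerivAt_const x (1 : ℝ)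
    have k1 : HasDerivAt (fun _ : ℝ => (0 : ℝ)) (4 / (x * (1 - x ^ 4)) * (fun _ : ℝ => (0 : ℝ)) x) x := by
      simpa using hasDerivAt_const x (0 : ℝ)
    have k2 : HasDerivAt (fun _ : ℝ => (0 : ℝ)) (4 / (x * (1 - x ^ 4)) * (0 : ℝ)) x := by
      simpa using hasDerivAt_const x (0 : ℝ)
    have h := energy (Y := fun x : ℝ => yv n (k + 1) (x ^ 4)) (Q := fun x : ℝ => qv n (k + 1) (x ^ 4))
      (E := fun x : ℝ => (1 - x ^ 4) * x ^ (4 * (k + 1))) (D := fun x : ℝ => DD n (k + 1) (x ^ 4))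
      (g0 := fun _ => 1) (g1 := fun _ => 0) (g2 := fun _ => 0) (g3 := 0) (x := x)
      (c := 4 / (x * (1 - x ^ 4))) (l := el (k + 1) (x ^ 4)) hY hQ hE k0 k1 k2 hD
    refine HasDerivAt.congr_deriv (h.congr_of_eventuallyEq
      (Filter.Eventually.of_forall fun y => ?_)) ?_
    · rw [hZ]
      simp only
      ring
    · push_cast
      have e2 : x ^ (4 * (k + 1)) = x ^ (4 * k + 4) := by ring
      have e3 : x ^ (4 * k + 7) = x ^ (4 * k + 4) * x ^ 3 := by rw [← pow_add]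
      rw [e2, e3]
      generalize yv n (k + 1) (x ^ 4) = Yy
      generalize x ^ (4 * k + 4) = Py
      generalize DD n (k + 1) (x ^ 4) = Dy
      field_simp
      ring
  have hint : IntervalIntegrable (fun x : ℝ => 2 * (x ^ (4 * k + 7) * (1 - x ^ 4) *
      (yv n (k + 1) (x ^ 4)) ^ 2 *
      (AA n (k + 1) * (1 - 2 * x ^ 4) + (((k : ℝ) + 1) ^ 2 - 1) / 4))) volume 0 1 :=
    Continuous.intervalIntegrable (by fun_prop) _ _
  have h := integral_eq_sub_of_hasDerivAt_of_le (a := 0) (b := 1) zero_le_one hZc.continuousOn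
    hder hint
  rw [intervalIntegral.integral_const_mul] at h
  have h0 : Z 1 - Z 0 = 0 := by
    rw [hZ]
    simp
  rw [h0] at h
  linarith

end Pool.Agent.Q75.BN
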