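import Pool.Agent.Q75.BN.V2

/-!
# The weighted `L²` inequality for the kernel polynomial
-/

set_option autoImplicit false

open Polynomial MeasureTheory intervalIntegral Set

namespace Pool.Agent.Q75.BN

open Pool.Agent.Q75.BM (pp)

lemma DD_cont (n m : ℕ) : Continuous (DD n m) := by
  unfold DD
  fun_prop

/-- the primitive -/
noncomputable def Zf (n k : ℕ) (σ x : ℝ) : ℝ :=
  x ^ (4 * k + 3) * ((1 - x ^ 4) / (x + σ) * (1 / 2 * (qv n (k + 1) (x ^ 4)) ^ 2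
    + 1 / 2 * (DD n (k + 1) (x ^ 4) * (yv n (k + 1) (x ^ 4)) ^ 2)
    + (1 - x ^ 4) * (2 * x + σ) / (8 * (x + σ)) * (yv n (k + 1) (x ^ 4) * qv n (k + 1) (x ^ 4))
    + ((1 - x ^ 4) * ((1 - x ^ 4) * (4 * x ^ 2 + 3 * σ * x + σ ^ 2)
      + 4 * (x ^ 4 * ((2 * x + σ) * (x + σ))))) / (64 * (x + σ) ^ 2) * (yv n (k + 1) (x ^ 4)) ^ 2))

/-- its derivative -/
noncomputable def Fp (n k : ℕ) (σ x : ℝ) : ℝ :=
  x ^ (4 * k + 2) * ((1 - x ^ 4) / (x + σ) * Om (AA n (k + 1)) ((k : ℝ) + 1) (x / (x + σ)) (x ^ 4) *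
    (yv n (k + 1) (x ^ 4)) ^ 2)

lemma Zf_der (n k : ℕ) (hn : 1 ≤ n) {σ x : ℝ} (hσ : 0 < σ) (hx0 : 0 < x) (hx1 : x < 1) :
    HasDerivAt (Zf n k σ) (Fp n k σ x) x := by
  have h4 : x ^ 4 < 1 := pow_lt_one₀ hx0.le hx1 (by norm_num)
  have h5 : 1 - x ^ 4 ≠ 0 := by linarith
  have h6 : x + σ ≠ 0 := by positivity
  have hY := Y_der (n := n) (m := k + 1) hx0 hx1
  have hQ := Q_der (n := n) (m := k + 1) hn hx0 hx1
  have hE := E_der (m := k + 1) hx0 hx1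
  have hD := D_der (n := n) (m := k + 1) hx0 hx1
  have h0 := g0_der hσ hx0 hx1
  have h1 := g1_der hσ hx0 hx1
  have h2 := g2_der hσ hx0 hx1
  have h := energy (Y := fun x : ℝ => yv n (k + 1) (x ^ 4)) (Q := fun x : ℝ => qv n (k + 1) (x ^ 4))
    (E := fun x : ℝ => (1 - x ^ 4) * x ^ (4 * (k + 1))) (D := fun x : ℝ => DD n (k + 1) (x ^ 4))
    (g0 := g0 σ) (g1 := g1 σ) (g2 := g2 σ) (g3 := g3 σ x) (x := x) (c := 4 / (x * (1 - x ^ 4)))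
    (l := el (k + 1) (x ^ 4)) hY hQ hE h0 h1 h2 hD
  have h7 := Om_eq hσ hx0 hx1 n (k + 1)
  refine HasDerivAt.congr_deriv (h.congr_of_eventuallyEq ?_) ?_
  · filter_upwards [isOpen_Ioi.mem_nhds (mem_Ioi.2 hx0)] with y hy
    have hy0 : (0 : ℝ) < y := hy
    have hys : y + σ ≠ 0 := by positivity
    unfold Zf g0 g1 g2
    generalize qv n (k + 1) (y ^ 4) = Qy
    generalize yv n (k + 1) (y ^ 4) = Yy
    generalize DD n (k + 1) (y ^ 4) = Dy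
    have e1 : y ^ (4 * (k + 1)) = y ^ (4 * k + 3) * y := by ring
    rw [e1]
    generalize y ^ (4 * k + 3) = Py
    field_simp
    ring
  · unfold Fp
    have e2 : x ^ (4 * (k + 1)) = x ^ (4 * k + 2) * x * x := by ring
    push_cast at h7 ⊢
    rw [e2]
    have e3 : x ^ (4 * k + 2) * ((1 - x ^ 4) / (x + σ) *
        Om (AA n (k + 1)) ((k : ℝ) + 1) (x / (x + σ)) (x ^ 4) * (yv n (k + 1) (x ^ 4)) ^ 2)
        = x ^ (4 * k + 2) * (((1 - x ^ 4) / (x + σ) *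
        Om (AA n (k + 1)) ((k : ℝ) + 1) (x / (x + σ)) (x ^ 4)) * (yv n (k + 1) (x ^ 4)) ^ 2) := rfl
    rw [e3, ← h7]
    generalize g1 σ x * DD n (k + 1) (x ^ 4) + 1 / 2 * (g0 σ x *
        (x ^ 4 * (1 - x ^ 4) * (AA n (k + 1) * (1 - 2 * x ^ 4) + (((k : ℝ) + 1) ^ 2 - 1) / 4)))
        + 1 / 4 * g3 σ x = B
    generalize yv n (k + 1) (x ^ 4) = Yy
    generalize x ^ (4 * k + 2) = Py
    field_simp

end Pool.Agent.Q75.BN
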